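import Pool.Agent.Work.MP_8826fd_mp.StmtsF

/-!
[8826fd TC] THIN CORNERS, ALL FIELDS. Definitions and item statements; every docstring of an item is a complete
proof. Proved and available (import Pool.Agent.Work.MP_8826fd_mp.Asm, .Sc): stSpec : StSpec, stLB : StLB,
sc (scaling and translation of lamN), rowD or the definitions of Defs.lean (eden, lamN, disc, Facts, Data).
-/

set_option autoImplicit false

namespace Pool.Agent.MFK.TC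

open MeasureTheory Set Filter Topology Pool.Agent.MFK

/-- The trial function `exp(-b x₁² + i B x₁ x₂ / 2)`. -/
noncomputable def tu (b B : ℝ) (x : ℝ × ℝ) : ℂ :=
  Complex.exp (((-(b * x.1 ^ 2) : ℝ) : ℂ) + Complex.I * ((B * x.1 * x.2 / 2 : ℝ) : ℂ))

/-- The phase `exp(i B (c n' - n n' / 2))`, `n = a x₁ + d x₂`, `n' = -d x₁ + a x₂`. -/
noncomputable def pf (B a d c : ℝ) (x : ℝ × ℝ) : ℂ :=
  Complex.exp (Complex.I * ((B * (c * (-(d * x.1) + a * x.2)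
    - (a * x.1 + d * x.2) * (-(d * x.1) + a * x.2) / 2) : ℝ) : ℂ))

/-- `Ω` lies in the wedge `|x₂| < κ x₁` and is star-shaped towards the tip `0` down to `x₁ > ε`. -/
structure Wd (κ ε : ℝ) (Ω : Set (ℝ × ℝ)) : Prop where
  wedge : ∀ x ∈ Ω, 0 < x.1 ∧ |x.2| < κ * x.1
  star : ∀ x ∈ Ω, ∀ t : ℝ, 0 < t → t < 1 → ε < t * x.1 → (t * x.1, t * x.2) ∈ Ω

/-- `Ω` lies in a strip of half-width `W`. -/
def Strip (W : ℝ) (Ω : Set (ℝ × ℝ)) : Prop :=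
  ∃ a d c : ℝ, a ^ 2 + d ^ 2 = 1 ∧ ∀ x ∈ Ω, |a * x.1 + d * x.2 - c| ≤ W

/-- The open triangle `0, u, v`. -/
def tri (u v : ℝ × ℝ) : Set (ℝ × ℝ) :=
  {x | ∃ s t : ℝ, 0 < s ∧ 0 < t ∧ s + t < 1 ∧ x = (s * u.1 + t * v.1, s * u.2 + t * v.2)}

/-- The ellipse with semi-axes `a`, `1/a` and centre `(a + e, 0)`. -/
def ell (a e : ℝ) : Set (ℝ × ℝ) := {x | (x.1 - (a + e)) ^ 2 / a ^ 2 + a ^ 2 * x.2 ^ 2 < 1}

/-! ## Trial functions -/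

/-- Item TR (EASY). `N = ∫ ‖u‖²`, `v = (√N)⁻¹ u`: `‖v‖² = ‖u‖²/N`, `fderiv v = (√N)⁻¹ fderiv u` (fderiv_const_smul or
const_mul on the open set, `u` is differentiable at the points of Ω), so `eden B v = eden B u / N` on Ω. So the quotient
lies in the set of `lamN` (`setIntegral_congr_fun`); the set is bounded below by `0` (eden is nonnegative):
`csInf_le`. -/
def StTR : Prop := ∀ (B : ℝ) (Ω : Set (ℝ × ℝ)) (u : ℝ × ℝ → ℂ), IsOpen Ω → ContDiffOn ℝ 1 u Ω →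
  IntegrableOn (fun x => ‖u x‖ ^ 2) Ω → IntegrableOn (fun x => eden B u x) Ω →
  0 < (∫ x in Ω, ‖u x‖ ^ 2) → lamN B Ω ≤ (∫ x in Ω, eden B u x) / ∫ x in Ω, ‖u x‖ ^ 2

/-- Item ED (EASY). `∂₁ u = (-2 b x₁ + i B x₂/2) u`, `∂₂ u = (i B x₁/2) u`; `eden`: the first term is
`‖(-2 b x₁ + i B x₂) u‖²`, the second is `0`; `‖u‖² = exp(-2 b x₁²)` (`Complex.norm_exp`). -/
def StED : Prop := ∀ (b B : ℝ), ContDiff ℝ 1 (tu b B) ∧ ∀ x : ℝ × ℝ,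
  ‖tu b B x‖ ^ 2 = Real.exp (-(2 * b * x.1 ^ 2)) ∧
  eden B (tu b B) x = (4 * b ^ 2 * x.1 ^ 2 + B ^ 2 * x.2 ^ 2) * Real.exp (-(2 * b * x.1 ^ 2))

/-- Item EP (EASY). With `n = a x₁ + d x₂`, `n' = -d x₁ + a x₂`, `φ = c n' - n n'/2`: `∂₁ φ = -c d - (a n' - d n)/2`,
`∂₂ φ = c a - (d n' + a n)/2`; `∂₁ φ + x₂/2` and `∂₂ φ - x₁/2` are `d (n - c)` and `-a (n - c)` (use
`x₁ = a n - d n'`, `x₂ = d n + a n'`, from `a² + d² = 1`). So `eden = B² (n - c)²`, and `‖pf‖ = 1`. -/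
def StEP : Prop := ∀ (B a d c : ℝ), a ^ 2 + d ^ 2 = 1 → ContDiff ℝ 1 (pf B a d c) ∧ ∀ x : ℝ × ℝ,
  ‖pf B a d c x‖ ^ 2 = 1 ∧ eden B (pf B a d c) x = B ^ 2 * (a * x.1 + d * x.2 - c) ^ 2

/-- Item SU (EASY, use StTR, StEP). `u = pf`: `∫ ‖u‖² = |Ω| = π`, `∫ eden ≤ B² W² π` (bounded, continuous, so integrable
on the set Ω of finite measure). -/
def StSU : Prop := ∀ (B W : ℝ) (Ω : Set (ℝ × ℝ)), IsOpen Ω → volume Ω = ENNReal.ofReal Real.pi →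
  Strip W Ω → lamN B Ω ≤ B ^ 2 * W ^ 2

/-- Item MA (EASY-MEDIUM, one dimension). The integrand is `≤ 0` on `S ∩ (0, ε]`. `S ∩ (ε, ∞)` is, up to one point, `(ε, X)`
or `(ε, ∞)` or empty (if `s ∈ S` then `(ε, s) ⊆ S`; `X` the supremum). With `G(x) = -(x² - ε²) e^(-2 b x²)/(4 b)`:
`G' = (x² - ε² - 1/(2b)) e^(-2 b x²) x`, `G(ε) = 0`, `G(X) ≤ 0`, `G → 0` at infinity. So the integral over
`S ∩ (ε, ∞)` is `G(X) - G(ε) ≤ 0` resp. `0`. -/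
def StMA : Prop := ∀ (b ε : ℝ) (S : Set ℝ), 0 < b → 0 ≤ ε → MeasurableSet S → S ⊆ Ioi 0 →
  (∀ s ∈ S, ∀ t : ℝ, ε < t → t < s → t ∈ S) →
  (∫ x in S, (x ^ 2 - ε ^ 2 - 1 / (2 * b)) * Real.exp (-(2 * b * x ^ 2)) * x) ≤ 0

/-- Item MB (MEDIUM, use StMA; Fubini). `f(x) = (x² - ε² - 1/(2b)) e^(-2 b x²)`. Ω open, so measurable. The integral of
`f(x₁)` over Ω is `∫_(x > 0) ∫_y 1_Ω(x, y) f(x) dy dx = ∫_(x > 0) x f(x) ∫_s 1_Ω(x, s x) ds dx` (for fixed `x > 0`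
substitute `y = s x`: `Measure.integral_comp_mul_right`) `= ∫_s ∫_(x > 0) 1_Ω(x, s x) x f(x) dx ds` (Fubini,
`integral_integral_swap`: the integrand vanishes for `|s| ≥ κ` by Wd.wedge and is bounded by `|x f(x)|`, which is
integrable on `(0, ∞)`), and for each `s` the inner integral is `≤ 0` by StMA for `S = {x | 0 < x, (x, s x) ∈ Ω}` (Wd.star
with the factor `t/x`). -/
def StMB : Prop := ∀ (b κ ε : ℝ) (Ω : Set (ℝ × ℝ)), 0 < b → 0 < κ → 0 ≤ ε → IsOpen Ω → Wd κ ε Ω →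
  (∫ x in Ω, (x.1 ^ 2 - ε ^ 2 - 1 / (2 * b)) * Real.exp (-(2 * b * x.1 ^ 2))) ≤ 0

/-- Item WE (EASY-MEDIUM, use StTR, StED, StMB). `b = κ B/2`, `u = tu b B`, `w = e^(-2 b x₁²) ≤ 1`. On Ω
`eden ≤ (4 b² + κ² B²) x₁² w = 2 κ² B² x₁² w` (bounded, as `x₁² w ≤ 1/(2b)`; |Ω| = π finite, so everything is
integrable). StMB: `∫ x₁² w ≤ (ε² + 1/(2b)) ∫ w = (ε² + 1/(κ B)) ∫ w`. So
`∫ eden ≤ (2 κ B + 2 κ² ε² B²) ∫ w`; `∫ w > 0`. -/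
def StWE : Prop := ∀ (B κ ε : ℝ) (Ω : Set (ℝ × ℝ)), 0 < B → 0 < κ → 0 ≤ ε → IsOpen Ω →
  volume Ω = ENNReal.ofReal Real.pi → Wd κ ε Ω → lamN B Ω ≤ 2 * κ * B + 2 * κ ^ 2 * ε ^ 2 * B ^ 2

/-! ## The disc (only algebra with the structure `Facts` of Defs.lean, `M = p + 2m`) -/

/-- Item DA (EASY). (1) `be_rec 0`, `be 0 = 0`: `be 1 * M = p (1 - p) + lam`, `be 1 ≥ 0`, `M > 0` (`be_den 0`): so
`lam ≥ p² - p`. (2) `be_rec 1`: `be 2 (M + 1 - be 1) = (M + 2) be 1 - (1 - p)(2 - p) + lam`; `be_ge 2`: `be 2 ≥ 2 - p`;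
`be_den 1`: `M + 1 - be 1 > 0`. So `(2 - p)(M + 1 - be 1) ≤ (M + 2) be 1 - (1 - p)(2 - p) + lam`; multiply by `M > 0` and put
`M be 1 = p (1 - p) + lam`: `lam (2M + 4 - p) ≥ M (2 - p)(M + 2 - p) - p (1 - p)(M + 4 - p)`, and `M = p + 2m`. -/
def StDA : Prop := ∀ (p M lam : ℝ) (m : ℕ) (al be : ℕ → ℝ), Facts p M lam m al be →
  p ^ 2 - p ≤ lam ∧
  2 * p ^ 2 + 8 * (m : ℝ) ^ 2 + 8 * m - 2 * m * p - 4 * (m : ℝ) ^ 2 * p ≤ lam * (4 + p + 4 * m)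

/-- Item DB (EASY-MEDIUM, use StDA). `B = M + p > 16`, `s = √B > 4`. Suppose `lam ≤ B/16`. `p ≤ s/4 + 1` (otherwise
`p² - p > (s/4)(s/4 + 1) > B/16`). Claim: `be k ≤ k/4` for all `k : ℕ` with `k ≤ s`. Induction: `be 0 = 0`. Let
`D = M + k - be k > 0`; `be_rec`: `be (k+1) = be k + (be k + (be k)² - (k - p)(k - p + 1) + lam)/D`. As
`(k - p)(k - p + 1) ≥ -1/4` and `0 ≤ be k ≤ k/4 ≤ s/4` the numerator is `≤ s/4 + s²/16 + 1/4 + s²/16`. And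
`D ≥ M = s² - p ≥ s² - s/4 - 1`. So numerator `≤ D/4` because `2 s² - 5 s - 8 ≥ 0` for `s ≥ 4`. For `k = ⌊s⌋₊`:
`k - p ≤ be k ≤ k/4`, so `(3/4)(s - 1) < s/4 + 1`, `s < 7/2`, contradiction. -/
def StDB : Prop := ∀ (p M lam : ℝ) (m : ℕ) (al be : ℕ → ℝ), Facts p M lam m al be →
  16 < M + p → (M + p) / 16 < lam

/-- Item DC (EASY-MEDIUM, use StDA). `M + p = 2 (p + m)`, `p > 0`, `p + m ≤ 8`. If `p > 2`: `lam ≥ p² - p > 2 > 1`. If `p ≤ 2`: with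
`R` the left side of StDA (2), `8 R > (p + m)(4 + p + 4m)` gives the claim (`4 + p + 4m > 0`). `m = 0`: `16 p² > p (4 + p)`, i.e.
`p > 4/15` (`p ≥ 1/2`). `m ≥ 1`: `8 m - 2 m p ≥ 4 m`, so the difference `8 R - (p + m)(4 + p + 4m)` is at least
`15 p² - 4p + 28 m - 5 m p + m² (32 (2 - p) - 4)`. If `2 - p ≥ 1/8`: `m² (..) ≥ 0`, `28 m - 5 m p ≥ 18 m ≥ 18`, `15 p² - 4p > -1`. If
`2 - p < 1/8`: `m ≤ 6` (`m < 6.125`), `-4 m² ≥ -24 m`, sum `≥ 15 p² - 4p - 6 m > 44 - 36`. -/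
def StDC : Prop := ∀ (p M lam : ℝ) (m : ℕ) (al be : ℕ → ℝ), Facts p M lam m al be →
  1 ≤ M + p → M + p ≤ 16 → (M + p) / 16 < lam

/-- Item DD (EASY, use StDA). `p > 0` and `2 p + 2 m = M + p ≤ 1`, so `m = 0`, `p ≤ 1/2`, `lam (4 + p) ≥ 2 p²`, so
`lam ≥ 4 p²/9`. -/
def StDD : Prop := ∀ (p M lam : ℝ) (m : ℕ) (al be : ℕ → ℝ), Facts p M lam m al be →
  M + p ≤ 1 → (M + p) ^ 2 / 9 ≤ lam

/-- Item DE (EASY, use StDB, StDC, StDD and stSpec, stLB of Asm.lean: here as hypotheses-free facts, import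
Pool.Agent.Work.MP_8826fd_mp.Asm in the item file). `M + p = B`. -/
def StDE : Prop := ∀ B : ℝ, 0 < B → (1 ≤ B → B / 16 < lamN B disc) ∧ (B ≤ 1 → B ^ 2 / 9 ≤ lamN B disc)

/-! ## General theorem -/

/-- Item GE (EASY, use StSU, StWE, StDE). `B ≤ 1`: `lamN B Ω ≤ B² W² < B²/9`. `B > 1`: `lamN B Ω ≤ B (2 κ + 2 κ² ε² B) ≤ B/16 < lamN B disc`. -/
def StGE : Prop := ∀ (B κ ε W : ℝ) (Ω : Set (ℝ × ℝ)), 0 < B → 0 < κ → 0 ≤ ε → IsOpen Ω →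
  volume Ω = ENNReal.ofReal Real.pi → Wd κ ε Ω → Strip W Ω → W ^ 2 < 1 / 9 →
  2 * κ + 2 * κ ^ 2 * ε ^ 2 * B ≤ 1 / 16 → lamN B Ω < lamN B disc

/-! ## Convex domains -/

/-- Item CS (EASY). Ω open and convex, `0 ∈ closure Ω`: `t x ∈ Ω` for `x ∈ Ω`, `0 < t ≤ 1`
(`Convex.openSegment_interior_closure_subset_interior` or `Convex.combo_interior_closure_mem_interior`,
`IsOpen.interior_eq`). So Wd κ 0 Ω. -/
def StCS : Prop := ∀ (κ : ℝ) (Ω : Set (ℝ × ℝ)), IsOpen Ω → Convex ℝ Ω → (0, 0) ∈ closure Ω →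
  (∀ x ∈ Ω, 0 < x.1 ∧ |x.2| < κ * x.1) → Wd κ 0 Ω

/-- Item CQ (EASY-MEDIUM). Otherwise `κ x₁² < 3` on Ω, so Ω is contained in the triangle `0 < x₁ < r`, `|x₂| < κ x₁`,
`r = √(3/κ)`, of measure `κ r² = 3 < π` (`volume_regionBetween_eq_integral`, or the two images tri). -/
def StCQ : Prop := ∀ (κ : ℝ) (Ω : Set (ℝ × ℝ)), 0 < κ → volume Ω = ENNReal.ofReal Real.pi →
  (∀ x ∈ Ω, 0 < x.1 ∧ |x.2| < κ * x.1) → ∃ q ∈ Ω, 3 ≤ κ * q.1 ^ 2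

/-- Item CT (EASY-MEDIUM). `tri u v` is the image of `T = {0 < s, 0 < t, s + t < 1}` under the linear map with matrix
columns `u, v`, determinant `u₁ v₂ - u₂ v₁` (`Measure.addHaar_image_linearMap`), and `|T| = 1/2`
(`volume_regionBetween_eq_integral`, `∫_0^1 (1 - s) = 1/2`). -/
def StCT : Prop := ∀ u v : ℝ × ℝ, volume (tri u v) = ENNReal.ofReal (|u.1 * v.2 - u.2 * v.1| / 2)

/-- Item CW (EASY-MEDIUM, use StCT, StCS). `D(z) = q₁ z₂ - q₂ z₁`. `tri q z ⊆ Ω` for `z ∈ Ω` (`s q + t z = (s + t) y` with `y` on the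
segment, and StCS with factor `s + t < 1`: here as hypothesis `hs`). If `D(z) ≤ 0` or `D(w) ≥ 0` one triangle is enough:
`D(z) - D(w) ≤ |D(z)|` or `|D(w)|`, `≤ 2 π` by StCT and monotonicity of the measure. If `D(z) > 0 > D(w)` the triangles `tri q z`, `tri q w` are
disjoint (`D > 0` on the first, `D < 0` on the second) and measurable (open, or images), so
`(D(z) + |D(w)|)/2 ≤ π`. -/
def StCW : Prop := ∀ (Ω : Set (ℝ × ℝ)), IsOpen Ω → Convex ℝ Ω → volume Ω = ENNReal.ofReal Real.pi →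
  (∀ x ∈ Ω, ∀ t : ℝ, 0 < t → t < 1 → (t * x.1, t * x.2) ∈ Ω) →
  ∀ q ∈ Ω, ∀ z ∈ Ω, ∀ w ∈ Ω, (q.1 * z.2 - q.2 * z.1) - (q.1 * w.2 - q.2 * w.1) ≤ 2 * Real.pi

/-- Item CF (EASY-MEDIUM, use StCW, StCQ, StCS). `q` from StCQ, `r = √(q₁² + q₂²)`, `r² ≥ q₁² ≥ 3/κ = 96`. `a = -q₂/r`,
`d = q₁/r`: `a x₁ + d x₂ = D(x)/r`. By StCW the values of `D` on Ω lie in an interval of length `≤ 2π`: `c = (sup + inf)/(2 r)`, so
`|D(x)/r - c| ≤ π/r =: W`, `W² ≤ π²/96 < 1/9` (`π < 3.15`). -/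
def StCF : Prop := ∀ (Ω : Set (ℝ × ℝ)), IsOpen Ω → Convex ℝ Ω → volume Ω = ENNReal.ofReal Real.pi →
  (0, 0) ∈ closure Ω → (∀ x ∈ Ω, 0 < x.1 ∧ |x.2| < 1 / 32 * x.1) → ∃ W : ℝ, W ^ 2 < 1 / 9 ∧ Strip W Ω

/-- Item CO (EASY, use StGE, StCS, StCF with `κ = 1/32`, `ε = 0`; scaling by sc, in Sc.lean, with `x0 = 0`):
`Ω = R Ω'`, `Ω' = R⁻¹ Ω` open, convex, area `π`, in the wedge, `0` in the closure; `lamN B Ω = R⁻² lamN (B R²) Ω'`, the same for the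
disc (`edisc 0 R` is the image of `disc`). `volume (edisc 0 R) = π R²`: StVO. -/
def StCO : Prop := ∀ (B R : ℝ) (Ω : Set (ℝ × ℝ)), 0 < B → 0 < R → IsOpen Ω → Convex ℝ Ω →
  volume Ω = volume (edisc (0, 0) R) → (0, 0) ∈ closure Ω →
  (∀ x ∈ Ω, 0 < x.1 ∧ |x.2| < 1 / 32 * x.1) → lamN B Ω < lamN B (edisc (0, 0) R)

/-- Item VO (EASY). `edisc (a, b) R` is the image of the complex ball (`Complex.volume_ball`,
`Complex.volume_preserving_equiv_real_prod`), or see NF, RT: the same lemma may be there. -/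
def StVO : Prop := ∀ (a : ℝ × ℝ) (R : ℝ), 0 < R → volume (edisc a R) = ENNReal.ofReal (Real.pi * R ^ 2)

/-- Item GR (EASY-MEDIUM, use StGE, StVO; scaling by sc, in Sc.lean, `x0 = 0`): StGE for `R⁻¹ Ω`, with the field `B R²`, `ε/R` and
`W/R`. -/
def StGR : Prop := ∀ (B R κ ε W : ℝ) (Ω : Set (ℝ × ℝ)), 0 < B → 0 < R → 0 < κ → 0 ≤ ε → IsOpen Ω →
  volume Ω = volume (edisc (0, 0) R) → Wd κ ε Ω → Strip W Ω → 3 * |W| < R →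
  2 * κ + 2 * κ ^ 2 * ε ^ 2 * B ≤ 1 / 16 → lamN B Ω < lamN B (edisc (0, 0) R)

/-! ## Ellipses -/

/-- Item EL (EASY-MEDIUM). `a > 3`, `κ = 1/40`, `e = 800/a³`, `2e = 1600/a³`. With `g(x) = 2 (x - e)/a - (x - e)²/a²`: a point is in the
ellipse iff `a² x₂² < g(x₁)`; so `x₁ > e > 0`. wedge: `a² x₂² < 2 (x₁ - e)/a ≤ x₁²/(2 a e) = a² x₁²/1600` as `4 e (x₁ - e) ≤ x₁²`. star: let
`2e < y = t x < x`: `g(y)/y² ≥ g(x)/x²`: `(y - e)/y² ≥ (x - e)/x²` (cross multiplied: `(x - y)(x y - e x - e y) ≥ 0`, true for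
`x, y ≥ 2e`) and `(y - e)/y ≤ (x - e)/x`; so `a² t² x₂² < t² g(x) ≤ g(y)`. -/
def StEL : Prop := ∀ a : ℝ, 3 < a → Wd (1 / 40) (1600 / a ^ 3) (ell a (800 / a ^ 3))

/-- Item EV (EASY-MEDIUM). The ellipse is the image of the unit disc under `(x, y) ↦ (a + e + a x, y/a)` (determinant 1, translation);
StVO for `R = 1`. It is open and in the strip `|x₂| ≤ 1/a`. -/
def StEV : Prop := ∀ a e : ℝ, 0 < a → IsOpen (ell a e) ∧ volume (ell a e) = ENNReal.ofReal Real.pi ∧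
  Strip (1 / a) (ell a e)

/-- Item EF (EASY, use StGE, StEL, StEV). `κ = 1/40`, `ε = 1600/a³`, `W = 1/a < 1/3`: `2κ = 1/20`,
`2 κ² ε² B = 3200 B/a⁶ ≤ 1/80`. Then translate by sc with `R = 1`: the ellipse with centre `z` is the image of `ell a e` under
`x ↦ x0 + 1 • x`. -/
def StEF : Prop := ∀ (a B : ℝ) (z : ℝ × ℝ), 3 < a → 0 < B → 256000 * B ≤ a ^ 6 →
  lamN B {x | (x.1 - z.1) ^ 2 / a ^ 2 + a ^ 2 * (x.2 - z.2) ^ 2 < 1} < lamN B disc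

/-! ## Final theorem -/

/-- The final theorem: general form and convex form. -/
def StFin : Prop := StGR ∧ StCO ∧ StEF

end Pool.Agent.MFK.TC
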