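import Mathlib
import Pool.Agent.Work.MP_8826fd_mp.TC.Stmts

/-!
[8826fd TC CF] a convex domain with a thin corner lies in a narrow strip
-/

set_option autoImplicit false

namespace Pool.Agent.MFK.TC

open MeasureTheory Set Filter Topology Pool.Agent.MFK

theorem pr_CF (h1 : StCW) (h2 : StCQ) (h3 : StCS) : StCF := by
  intro Ω hO hC hV h0 hW
  obtain ⟨-, hstar⟩ := h3 (1 / 32) Ω hO hC h0 hW
  have hstar' : ∀ x ∈ Ω, ∀ t : ℝ, 0 < t → t < 1 → (t * x.1, t * x.2) ∈ Ω := by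
    intro x hx t ht0 ht1
    exact hstar x hx t ht0 ht1 (mul_pos ht0 (hW x hx).1)
  obtain ⟨q, hq, hq3⟩ := h2 (1 / 32) Ω (by norm_num) hV hW
  have hcw := h1 Ω hO hC hV hstar' q hq
  obtain ⟨r, hr⟩ : ∃ r : ℝ, r = Real.sqrt (q.1 ^ 2 + q.2 ^ 2) := ⟨_, rfl⟩
  have hr2 : r ^ 2 = q.1 ^ 2 + q.2 ^ 2 := by
    rw [hr]
    exact Real.sq_sqrt (by positivity)
  have hr96 : 96 ≤ r ^ 2 := by
    rw [hr2]
    nlinarith [sq_nonneg q.2]
  have hr0 : 0 < r := by
    have : 0 ≤ r := by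
      rw [hr]
      exact Real.sqrt_nonneg _
    rcases this.lt_or_eq with h | h
    · exact h
    · rw [← h] at hr96
      norm_num at hr96
  -- the values of the linear form
  obtain ⟨S, hS⟩ : ∃ S : Set ℝ, S = (fun z : ℝ × ℝ => q.1 * z.2 - q.2 * z.1) '' Ω := ⟨_, rfl⟩
  have hmem : ∀ z ∈ Ω, q.1 * z.2 - q.2 * z.1 ∈ S := by
    intro z hz
    rw [hS]
    exact ⟨z, hz, rfl⟩
  have hdiff : ∀ s ∈ S, ∀ t ∈ S, s - t ≤ 2 * Real.pi := by
    intro s hs t ht
    rw [hS] at hs ht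
    obtain ⟨z, hz, rfl⟩ := hs
    obtain ⟨w, hw, rfl⟩ := ht
    exact hcw z hz w hw
  have hne : S.Nonempty := ⟨_, hmem q hq⟩
  have hba : BddAbove S := ⟨q.1 * q.2 - q.2 * q.1 + 2 * Real.pi, fun s hs => by
    have := hdiff s hs _ (hmem q hq)
    linarith⟩
  have hbb : BddBelow S := ⟨q.1 * q.2 - q.2 * q.1 - 2 * Real.pi, fun s hs => by
    have := hdiff _ (hmem q hq) s hs
    linarith⟩
  have hMm : sSup S ≤ sInf S + 2 * Real.pi := by
    apply csSup_le hne
    intro s hs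
    have : s - 2 * Real.pi ≤ sInf S := by
      apply le_csInf hne
      intro t ht
      have := hdiff s hs t ht
      linarith
    linarith
  refine ⟨Real.pi / r, ?_, -q.2 / r, q.1 / r, (sSup S + sInf S) / (2 * r), ?_, ?_⟩
  · rw [div_pow, div_lt_iff₀ (by positivity)]
    have hpi : Real.pi < 3.15 := Real.pi_lt_d2
    have hpi0 := Real.pi_pos
    nlinarith
  · field_simp
    rw [hr2]
    ring
  · intro x hx
    have hx1 := le_csSup hba (hmem x hx)
    have hx2 := csInf_le hbb (hmem x hx)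
    have e : -q.2 / r * x.1 + q.1 / r * x.2 - (sSup S + sInf S) / (2 * r) =
        (q.1 * x.2 - q.2 * x.1 - (sSup S + sInf S) / 2) / r := by
      field_simp
      ring
    rw [e, abs_div, abs_of_pos hr0]
    apply div_le_div_of_nonneg_right _ hr0.le
    rw [abs_le]
    constructor
    · linarith
    · linarith

end Pool.Agent.MFK.TC
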