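import Pool.Agent.Work.MP_8826fd_mp.TC.Stmts

/-!
[8826fd TC] Second part: the theorems of TC/Stmts.lean in general position. Every docstring of an item is a complete
proof. `sc` (Sc.lean) is scaling and translation; its lemmas (namespace Sc) are the model for the rotation.
-/

set_option autoImplicit false

namespace Pool.Agent.MFK.TC

open MeasureTheory Set Filter Topology Pool.Agent.MFK

/-- Coordinates of `x` for the origin `p` and the orthonormal basis `(a, d)`, `(-d, a)` (if `a² + d² = 1`). -/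
def mv (p : ℝ × ℝ) (a d : ℝ) (x : ℝ × ℝ) : ℝ × ℝ :=
  (a * (x.1 - p.1) + d * (x.2 - p.2), -(d * (x.1 - p.1)) + a * (x.2 - p.2))

/-- Item RI (EASY-MEDIUM). `v = u ∘ mv 0 a d`: `∂₁ v = a ∂₁u - d ∂₂u`, `∂₂ v = d ∂₁u + a ∂₂u` at `y = mv 0 a d x`, and
`x₁ = a y₁ - d y₂`, `x₂ = d y₁ + a y₂`; so the vector `(∂₁ v + i B x₂ v/2, ∂₂ v - i B x₁ v/2)` is the rotated vector
`(∂₁ u + i B y₂ u/2, ∂₂ u - i B y₁ u/2)` and `eden B v x = eden B u (mv 0 a d x)`. This is for `u` differentiable at `y`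
(`y` in the open set Ω). -/
def StRI : Prop := ∀ (B a d : ℝ) (u : ℝ × ℝ → ℂ) (x : ℝ × ℝ), a ^ 2 + d ^ 2 = 1 →
  DifferentiableAt ℝ u (mv (0, 0) a d x) →
  eden B (fun y => u (mv (0, 0) a d y)) x = eden B u (mv (0, 0) a d x)

/-- Item PV (EASY-MEDIUM). `mv p a d` is a homeomorphism with inverse
`y ↦ (p₁ + a y₁ - d y₂, p₂ + d y₁ + a y₂)`, and preserves the measure (a translation followed by a linear map of
determinant `a² + d² = 1`: `Measure.map_linearMap_addHaar_eq_smul_addHaar` or `Measure.addHaar_preimage_linearMap`). -/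
def StPV : Prop := ∀ (p : ℝ × ℝ) (a d : ℝ), a ^ 2 + d ^ 2 = 1 →
  Continuous (mv p a d) ∧ (∀ y : ℝ × ℝ, mv p a d (p.1 + a * y.1 - d * y.2, p.2 + d * y.1 + a * y.2) = y) ∧
  (∀ x : ℝ × ℝ, (p.1 + a * (mv p a d x).1 - d * (mv p a d x).2, p.2 + d * (mv p a d x).1 + a * (mv p a d x).2) = x) ∧
  MeasurePreserving (mv p a d) volume volume

/-- Item PI (EASY-MEDIUM, use StRI, StPV, and sc of Sc.lean). (1) `p = 0`: `u ↦ u ∘ mv 0 a d` maps the admissible functions of Ω to those of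
`mv 0 a d ⁻¹' Ω` with the same norm and energy (StRI, StPV: `MeasurePreserving.setIntegral_preimage_emb`), and `mv 0 a (-d)` is the
inverse; so both sets in the definition of `lamN` are equal. (2) `mv p a d ⁻¹' Ω` is the image of `mv 0 a d ⁻¹' Ω` under
`x ↦ p + 1 • x`: sc with `R = 1`. -/
def StPI : Prop := ∀ (B : ℝ) (p : ℝ × ℝ) (a d : ℝ) (Ω : Set (ℝ × ℝ)), a ^ 2 + d ^ 2 = 1 → IsOpen Ω →
  lamN B (mv p a d ⁻¹' Ω) = lamN B Ω

/-- Item CG (EASY-MEDIUM, use StCO, StPI, StPV). `Ω' = mv p a d '' Ω` (= the preimage of Ω under the inverse map, so open),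
`Ω = mv p a d ⁻¹' Ω'`; Ω' is convex (affine image), of the same area, in the wedge, `0 = mv p a d p` in the closure
(continuity). -/
def StCG : Prop := ∀ (B R : ℝ) (Ω : Set (ℝ × ℝ)) (p : ℝ × ℝ) (a d : ℝ), 0 < B → 0 < R → IsOpen Ω → Convex ℝ Ω →
  volume Ω = volume (edisc (0, 0) R) → p ∈ closure Ω → a ^ 2 + d ^ 2 = 1 →
  (∀ x ∈ Ω, 0 < (mv p a d x).1 ∧ |(mv p a d x).2| < 1 / 32 * (mv p a d x).1) →
  lamN B Ω < lamN B (edisc (0, 0) R)

/-- Item GG (EASY-MEDIUM, use StGR, StPI, StPV). As CG: `Wd` and `Strip` (the strip is in any direction) for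
`Ω' = mv p a d '' Ω`. -/
def StGG : Prop := ∀ (B R κ ε W : ℝ) (Ω : Set (ℝ × ℝ)) (p : ℝ × ℝ) (a d : ℝ), 0 < B → 0 < R → 0 < κ → 0 ≤ ε →
  IsOpen Ω → volume Ω = volume (edisc (0, 0) R) → a ^ 2 + d ^ 2 = 1 → Wd κ ε (mv p a d '' Ω) →
  Strip W Ω → 3 * |W| < R → 2 * κ + 2 * κ ^ 2 * ε ^ 2 * B ≤ 1 / 16 → lamN B Ω < lamN B (edisc (0, 0) R)

/-- Item EG (EASY-MEDIUM, use StEF, StPI; scaling by sc, in Sc.lean). The ellipse with semi-axes `s > 9 t > 0`, centre `p`, axes in the directions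
`(a, d)`, `(-d, a)`; `r² = s t`, `q = s/r = √(s/t) > 3`. `x ↦ 0 + r • x` maps the ellipse of StEF with `a := q`, `z := 0` to
`{x₁²/s² + x₂²/t² < 1}` (`t = r/q`), and the field `B r²` satisfies `256000 B r² ≤ q⁶ = (s/t)³`. Then StPI. -/
def StEG : Prop := ∀ (B s t : ℝ) (p : ℝ × ℝ) (a d : ℝ), 0 < B → 0 < t → 9 * t < s → a ^ 2 + d ^ 2 = 1 →
  256000 * (B * (s * t)) ≤ (s / t) ^ 3 →
  lamN B {x | (mv p a d x).1 ^ 2 / s ^ 2 + (mv p a d x).2 ^ 2 / t ^ 2 < 1} < lamN B (edisc (0, 0) (Real.sqrt (s * t)))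

end Pool.Agent.MFK.TC
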