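import Mathlib
import Pool.Agent.Work.MP_8826fd_mp.TC.StmtsP

/-! [8826fd TC] Item CG: convex domains with an acute corner, in general position. -/

set_option autoImplicit false

namespace Pool.Agent.MFK.TC

open MeasureTheory Set Filter Topology Pool.Agent.MFK

namespace ICG

/-- The inverse map. -/
def iv (p : ℝ × ℝ) (a d : ℝ) (y : ℝ × ℝ) : ℝ × ℝ :=
  (p.1 + a * y.1 - d * y.2, p.2 + d * y.1 + a * y.2)

theorem iv_cont (p : ℝ × ℝ) (a d : ℝ) : Continuous (iv p a d) := by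
  unfold iv
  fun_prop

theorem iv_combo (p : ℝ × ℝ) (a d : ℝ) (x y : ℝ × ℝ) (s t : ℝ) (h : s + t = 1) :
    iv p a d (s • x + t • y) = s • iv p a d x + t • iv p a d y := by
  have hs : s = 1 - t := by linarith
  subst hs
  ext
  · simp only [iv, Prod.fst_add, Prod.smul_fst, Prod.snd_add, Prod.smul_snd, smul_eq_mul]
    ring
  · simp only [iv, Prod.fst_add, Prod.smul_fst, Prod.snd_add, Prod.smul_snd, smul_eq_mul]
    ring

end ICG

theorem pr_CG (h1 : StCO) (h2 : StPI) (h3 : StPV) : StCG := by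
  intro B R Ω p a d hB hR hO hC hV hp had hw
  obtain ⟨c1, c2, c3, c4⟩ := h3 p a d had
  have c2' : ∀ y, mv p a d (ICG.iv p a d y) = y := c2
  have c3' : ∀ x, ICG.iv p a d (mv p a d x) = x := c3
  have hO' : IsOpen (ICG.iv p a d ⁻¹' Ω) := hO.preimage (ICG.iv_cont p a d)
  have hpre : mv p a d ⁻¹' (ICG.iv p a d ⁻¹' Ω) = Ω := by
    ext x
    simp only [mem_preimage, c3']
  have hC' : Convex ℝ (ICG.iv p a d ⁻¹' Ω) := by
    intro x hx y hy s t hs ht hst
    rw [mem_preimage, ICG.iv_combo p a d x y s t hst]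
    exact hC hx hy hs ht hst
  have hV' : volume (ICG.iv p a d ⁻¹' Ω) = volume (edisc (0, 0) R) := by
    rw [← c4.measure_preimage hO'.measurableSet.nullMeasurableSet, hpre, hV]
  have hp' : (0, 0) ∈ closure (ICG.iv p a d ⁻¹' Ω) := by
    have e1 : mv p a d p ∈ closure (mv p a d '' Ω) :=
      image_closure_subset_closure_image c1 ⟨p, hp, rfl⟩
    have e2 : mv p a d p = (0, 0) := by
      simp [mv]
    have e3 : mv p a d '' Ω ⊆ ICG.iv p a d ⁻¹' Ω := by
      rintro _ ⟨x, hx, rfl⟩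
      rw [mem_preimage, c3']
      exact hx
    rw [e2] at e1
    exact closure_mono e3 e1
  have hw' : ∀ x ∈ ICG.iv p a d ⁻¹' Ω, 0 < x.1 ∧ |x.2| < 1 / 32 * x.1 := by
    intro x hx
    have := hw (ICG.iv p a d x) hx
    rwa [c2'] at this
  have key := h1 B R (ICG.iv p a d ⁻¹' Ω) hB hR hO' hC' hV' hp' hw'
  have e4 := h2 B p a d (ICG.iv p a d ⁻¹' Ω) had hO'
  rw [hpre] at e4
  rw [e4]
  exact key

end Pool.Agent.MFK.TC
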