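import Mathlib
import Pool.Agent.Work.MP_8826fd_mp.TC.Stmts
import Pool.Agent.Work.MP_8826fd_mp.Sc

/-!
[8826fd TC CO] convex domains with a corner inside the wedge, by scaling.
-/

set_option autoImplicit false

namespace Pool.Agent.MFK.TC

open MeasureTheory Set Filter Topology Pool.Agent.MFK

namespace ICO

theorem image_pre {R : ℝ} (hR : 0 < R) (Om : Set (ℝ × ℝ)) :
    (fun x : ℝ × ℝ => ((0 : ℝ), (0 : ℝ)) + R • x) '' ((fun x : ℝ × ℝ => R • x) ⁻¹' Om) = Om := by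
  ext x
  constructor
  · rintro ⟨y, hy, rfl⟩
    have h : ((0 : ℝ), (0 : ℝ)) + R • y = R • y := by
      ext <;> simp
    show ((0 : ℝ), (0 : ℝ)) + R • y ∈ Om
    rw [h]
    exact hy
  · intro hx
    refine ⟨R⁻¹ • x, ?_, ?_⟩
    · show R • R⁻¹ • x ∈ Om
      rw [smul_inv_smul₀ hR.ne']
      exact hx
    · show ((0 : ℝ), (0 : ℝ)) + R • R⁻¹ • x = x
      rw [smul_inv_smul₀ hR.ne']
      ext <;> simp

theorem image_disc {R : ℝ} (hR : 0 < R) :
    (fun x : ℝ × ℝ => ((0 : ℝ), (0 : ℝ)) + R • x) '' disc = edisc (0, 0) R := by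
  have h : (fun x : ℝ × ℝ => R • x) ⁻¹' edisc (0, 0) R = disc := by
    ext x
    show (R * x.1 - 0) ^ 2 + (R * x.2 - 0) ^ 2 < R ^ 2 ↔ x.1 ^ 2 + x.2 ^ 2 < 1
    have e : (R * x.1 - 0) ^ 2 + (R * x.2 - 0) ^ 2 = R ^ 2 * (x.1 ^ 2 + x.2 ^ 2) := by ring
    rw [e]
    constructor
    · intro h1
      have h2 : R ^ 2 * (x.1 ^ 2 + x.2 ^ 2) < R ^ 2 * 1 := by linarith
      exact lt_of_mul_lt_mul_left h2 (by positivity)
    · intro h1
      have h2 := mul_lt_mul_of_pos_left h1 (by positivity : (0 : ℝ) < R ^ 2)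
      linarith
  rw [← h]
  exact image_pre hR _

theorem vol_pre {R : ℝ} (hR : 0 < R) (Om : Set (ℝ × ℝ))
    (hv : volume Om = ENNReal.ofReal (Real.pi * R ^ 2)) :
    volume ((fun x : ℝ × ℝ => R • x) ⁻¹' Om) = ENNReal.ofReal Real.pi := by
  rw [Measure.addHaar_preimage_smul volume hR.ne' Om, hv, ← ENNReal.ofReal_mul (abs_nonneg _)]
  congr 1
  have h2 : Module.finrank ℝ (ℝ × ℝ) = 2 := by simp
  rw [h2, abs_of_pos (by positivity)]
  field_simp

theorem closure_pre {R : ℝ} (hR : 0 < R) (Om : Set (ℝ × ℝ)) (h0 : ((0 : ℝ), (0 : ℝ)) ∈ closure Om) :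
    ((0 : ℝ), (0 : ℝ)) ∈ closure ((fun x : ℝ × ℝ => R • x) ⁻¹' Om) := by
  have hc : Continuous (fun x : ℝ × ℝ => R⁻¹ • x) := by fun_prop
  have h1 := map_mem_closure hc h0 (t := (fun x : ℝ × ℝ => R • x) ⁻¹' Om) (fun x hx => by
    show R • R⁻¹ • x ∈ Om
    rw [smul_inv_smul₀ hR.ne']
    exact hx)
  have h2 : R⁻¹ • (((0 : ℝ), (0 : ℝ)) : ℝ × ℝ) = ((0 : ℝ), (0 : ℝ)) := by
    ext <;> simp
  rw [h2] at h1
  exact h1

theorem convex_pre (R : ℝ) (Om : Set (ℝ × ℝ)) (h : Convex ℝ Om) :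
    Convex ℝ ((fun x : ℝ × ℝ => R • x) ⁻¹' Om) := by
  intro x hx y hy a b ha hb hab
  have h1 := h (show R • x ∈ Om from hx) (show R • y ∈ Om from hy) ha hb hab
  have h2 : a • R • x + b • R • y = R • (a • x + b • y) := by
    rw [smul_add, smul_comm a R x, smul_comm b R y]
  show R • (a • x + b • y) ∈ Om
  rw [← h2]
  exact h1

end ICO

theorem pr_CO (h1 : StGE) (h2 : StCS) (h3 : StCF) (h4 : StVO) : StCO := by
  intro B R Om hB hR hO hC hv h0 hW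
  have hR2 : (0 : ℝ) < R ^ 2 := by positivity
  have hv' : volume Om = ENNReal.ofReal (Real.pi * R ^ 2) := by
    rw [hv, h4 (0, 0) R hR]
  set Om' : Set (ℝ × ℝ) := (fun x : ℝ × ℝ => R • x) ⁻¹' Om with hOm'
  have hO' : IsOpen Om' := hO.preimage (by fun_prop)
  have hC' : Convex ℝ Om' := ICO.convex_pre R Om hC
  have h0' : ((0 : ℝ), (0 : ℝ)) ∈ closure Om' := ICO.closure_pre hR Om h0
  have hvol : volume Om' = ENNReal.ofReal Real.pi := ICO.vol_pre hR Om hv'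
  have hW' : ∀ x ∈ Om', 0 < x.1 ∧ |x.2| < 1 / 32 * x.1 := by
    intro x hx
    obtain ⟨h5, h6⟩ := hW _ (show R • x ∈ Om from hx)
    have h7 : 0 < R * x.1 := h5
    have h8 : |R * x.2| < 1 / 32 * (R * x.1) := h6
    rw [abs_mul, abs_of_pos hR] at h8
    refine ⟨pos_of_mul_pos_right h7 hR.le, ?_⟩
    have h9 : R * |x.2| < R * (1 / 32 * x.1) := by
      calc R * |x.2| < 1 / 32 * (R * x.1) := h8
        _ = R * (1 / 32 * x.1) := by ring
    exact lt_of_mul_lt_mul_left h9 hR.le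
  have hWd := h2 (1 / 32) Om' hO' hC' h0' hW'
  obtain ⟨W, hW2, hSt⟩ := h3 Om' hO' hC' hvol h0' hW'
  have key := h1 (B * R ^ 2) (1 / 32) 0 W Om' (by positivity) (by norm_num) le_rfl hO' hvol hWd
    hSt hW2 (by norm_num)
  have hdo : IsOpen disc := by
    have : disc = {x : ℝ × ℝ | x.1 ^ 2 + x.2 ^ 2 < 1} := rfl
    rw [this]
    exact isOpen_lt (by fun_prop) continuous_const
  have e1 := sc B R (0, 0) Om' hR hO'
  have e2 := sc B R (0, 0) disc hR hdo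
  rw [ICO.image_pre hR Om] at e1
  rw [ICO.image_disc hR] at e2
  rw [e1, e2]
  exact mul_lt_mul_of_pos_left key (by positivity)

end Pool.Agent.MFK.TC
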