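import Mathlib
import Pool.Agent.Work.MP_8826fd_mp.TC.Stmts

/-! Item [8826fd TC CQ]: a point of the domain far from the tip. -/

set_option autoImplicit false

namespace Pool.Agent.MFK.TC

open MeasureTheory Set Filter Topology Pool.Agent.MFK

namespace ICQ

theorem vol (κ r : ℝ) (hκ : 0 < κ) (hr : 0 ≤ r) :
    volume (regionBetween (fun x : ℝ => -(κ * x)) (fun x : ℝ => κ * x) (Ioo 0 r)) =
      ENNReal.ofReal (κ * r ^ 2) := by
  have hc1 : Continuous (fun x : ℝ => -(κ * x)) := by fun_prop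
  have hc2 : Continuous (fun x : ℝ => κ * x) := by fun_prop
  have hi1 : IntegrableOn (fun x : ℝ => -(κ * x)) (Ioo 0 r) :=
    (hc1.integrableOn_Icc (a := 0) (b := r)).mono_set Ioo_subset_Icc_self
  have hi2 : IntegrableOn (fun x : ℝ => κ * x) (Ioo 0 r) :=
    (hc2.integrableOn_Icc (a := 0) (b := r)).mono_set Ioo_subset_Icc_self
  have h1 := volume_regionBetween_eq_integral (μ := (volume : Measure ℝ)) hi1 hi2
    measurableSet_Ioo (fun x hx => by
      have h2 : 0 ≤ κ * x := mul_nonneg hκ.le hx.1.le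
      show -(κ * x) ≤ κ * x
      linarith)
  have h3 : (∫ y in Ioo 0 r, ((fun x : ℝ => κ * x) - fun x : ℝ => -(κ * x)) y) = κ * r ^ 2 := by
    have h4 : ∀ y : ℝ, ((fun x : ℝ => κ * x) - fun x : ℝ => -(κ * x)) y = (2 * κ) * y := by
      intro y
      show κ * y - -(κ * y) = 2 * κ * y
      ring
    simp_rw [h4]
    rw [← integral_Ioc_eq_integral_Ioo, ← intervalIntegral.integral_of_le hr,
      intervalIntegral.integral_const_mul, integral_id]
    ring
  rw [h3] at h1
  exact h1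

end ICQ

theorem pr_CQ : StCQ := by
  intro κ Ω hκ hvol hΩ
  by_contra hno
  push Not at hno
  have h3 : (0 : ℝ) ≤ 3 / κ := div_nonneg (by norm_num) hκ.le
  have hsub : Ω ⊆ regionBetween (fun x : ℝ => -(κ * x)) (fun x : ℝ => κ * x)
      (Ioo 0 (Real.sqrt (3 / κ))) := by
    intro x hx
    obtain ⟨h1, h2⟩ := hΩ x hx
    have h4 := hno x hx
    have h5 := abs_lt.1 h2
    refine ⟨⟨h1, ?_⟩, ⟨h5.1, h5.2⟩⟩
    rw [Real.lt_sqrt h1.le, lt_div_iff₀ hκ]
    linarith
  have hle := measure_mono (μ := (volume : Measure (ℝ × ℝ))) hsub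
  rw [hvol, ICQ.vol κ _ hκ (Real.sqrt_nonneg _), Real.sq_sqrt h3] at hle
  have h6 : κ * (3 / κ) = 3 := by
    field_simp
  rw [h6, ENNReal.ofReal_le_ofReal_iff (by norm_num)] at hle
  exact absurd Real.pi_gt_three (not_lt.2 hle)

end Pool.Agent.MFK.TC
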