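import Mathlib
import Pool.Agent.Work.MP_8826fd_mp.TC.Stmts

/-! Item CS of the block [8826fd TC]: an open convex set with `0` in its closure is star-shaped towards `0`. -/

set_option autoImplicit false

namespace Pool.Agent.MFK.TC

open MeasureTheory Set Filter Topology Pool.Agent.MFK

theorem pr_CS : StCS := by
  intro κ Ω ho hc h0 hw
  refine ⟨hw, fun x hx t ht ht1 _ => ?_⟩
  have h := hc.combo_interior_closure_mem_interior (x := x) (y := ((0 : ℝ), (0 : ℝ)))
    (by rwa [ho.interior_eq]) h0 (a := t) (b := 1 - t) ht (by linarith) (by ring)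
  rw [ho.interior_eq] at h
  have e : (t * x.1, t * x.2) = t • x + (1 - t) • (((0 : ℝ), (0 : ℝ)) : ℝ × ℝ) := by
    ext <;> simp
  rw [e]
  exact h

end Pool.Agent.MFK.TC
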