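import Mathlib
import Pool.Agent.Work.MP_8826fd_mp.TC.Stmts

/-!
# Item [8826fd TC CT]: the area of the open triangle `0, u, v`
-/

set_option autoImplicit false

namespace Pool.Agent.MFK.TC

open MeasureTheory Set Filter Topology Pool.Agent.MFK

namespace ICT

/-- The standard triangle. -/
def T : Set (ℝ × ℝ) := {p | 0 < p.1 ∧ 0 < p.2 ∧ p.1 + p.2 < 1}

theorem T_eq : T = regionBetween (fun _ : ℝ => (0 : ℝ)) (fun s : ℝ => 1 - s) (Ioo 0 1) := by
  ext p
  simp only [T, regionBetween, mem_setOf_eq, mem_Ioo]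
  constructor
  · rintro ⟨h1, h2, h3⟩
    exact ⟨⟨h1, by linarith⟩, h2, by linarith⟩
  · rintro ⟨⟨h1, h2⟩, h3, h4⟩
    exact ⟨h1, h3, by linarith⟩

theorem vol_T : volume T = ENNReal.ofReal (1 / 2) := by
  rw [T_eq]
  have h := volume_regionBetween_eq_integral (μ := (volume : Measure ℝ))
    (f := fun _ : ℝ => (0 : ℝ)) (g := fun s : ℝ => 1 - s) (s := Ioo 0 1)
    (by simp [integrableOn_const])
    (((continuous_const.sub continuous_id).integrableOn_Icc (a := 0) (b := 1)).mono_set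
      Ioo_subset_Icc_self)
    measurableSet_Ioo (fun x hx => by linarith [hx.2])
  have h2 : (volume : Measure (ℝ × ℝ)) = (volume : Measure ℝ).prod volume := rfl
  rw [h2, h]
  congr 1
  rw [← integral_Ioc_eq_integral_Ioo, ← intervalIntegral.integral_of_le zero_le_one]
  simp only [Pi.sub_apply, sub_zero]
  rw [intervalIntegral.integral_sub (by simp) (by simp)]
  simp
  norm_num

/-- The linear map with columns `u`, `v`. -/
noncomputable def L (u v : ℝ × ℝ) : (ℝ × ℝ) →ₗ[ℝ] (ℝ × ℝ) :=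
  Matrix.toLin (Module.Basis.finTwoProd ℝ) (Module.Basis.finTwoProd ℝ) !![u.1, v.1; u.2, v.2]

theorem L_apply (u v : ℝ × ℝ) (p : ℝ × ℝ) :
    L u v p = (p.1 * u.1 + p.2 * v.1, p.1 * u.2 + p.2 * v.2) := by
  unfold L
  rw [Matrix.toLin_finTwoProd]
  ext
  · simp
    ring
  · simp
    ring

theorem det_L (u v : ℝ × ℝ) : LinearMap.det (L u v) = u.1 * v.2 - u.2 * v.1 := by
  unfold L
  rw [LinearMap.det_toLin, Matrix.det_fin_two_of]
  ring

theorem tri_eq (u v : ℝ × ℝ) : tri u v = L u v '' T := by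
  ext x
  constructor
  · rintro ⟨s, t, hs, ht, hst, rfl⟩
    exact ⟨(s, t), ⟨hs, ht, hst⟩, by rw [L_apply]⟩
  · rintro ⟨p, ⟨hs, ht, hst⟩, rfl⟩
    exact ⟨p.1, p.2, hs, ht, hst, by rw [L_apply]⟩

end ICT

theorem pr_CT : StCT := by
  intro u v
  rw [ICT.tri_eq, Measure.addHaar_image_linearMap, ICT.det_L, ICT.vol_T,
    ← ENNReal.ofReal_mul (abs_nonneg _)]
  congr 1
  ring

end Pool.Agent.MFK.TC
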