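import Mathlib
import Pool.Agent.Work.MP_8826fd_mp.TC.Stmts

/-!
[8826fd TC] item CW: the width of a convex domain seen from a point of it and the tip.
-/

set_option autoImplicit false

namespace Pool.Agent.MFK.TC

open MeasureTheory Set Filter Topology Pool.Agent.MFK

namespace ICW

theorem tri_sub (Ω : Set (ℝ × ℝ)) (hc : Convex ℝ Ω)
    (hs : ∀ x ∈ Ω, ∀ t : ℝ, 0 < t → t < 1 → (t * x.1, t * x.2) ∈ Ω)
    (q z : ℝ × ℝ) (hq : q ∈ Ω) (hz : z ∈ Ω) : tri q z ⊆ Ω := by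
  rintro x ⟨s, t, h0s, h0t, hst, rfl⟩
  have hpos : 0 < s + t := by linarith
  have hy := hc hq hz (a := s / (s + t)) (b := t / (s + t)) (by positivity) (by positivity)
    (by field_simp)
  have hx := hs _ hy (s + t) hpos hst
  have e : ((s + t) * ((s / (s + t)) • q + (t / (s + t)) • z).1,
      (s + t) * ((s / (s + t)) • q + (t / (s + t)) • z).2)
      = (s * q.1 + t * z.1, s * q.2 + t * z.2) := by
    simp only [Prod.fst_add, Prod.snd_add, Prod.smul_fst, Prod.smul_snd, smul_eq_mul]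
    ext
    · field_simp
    · field_simp
  rw [e] at hx
  exact hx

theorem one (h1 : StCT) (Ω : Set (ℝ × ℝ)) (hc : Convex ℝ Ω)
    (hv : volume Ω = ENNReal.ofReal Real.pi)
    (hs : ∀ x ∈ Ω, ∀ t : ℝ, 0 < t → t < 1 → (t * x.1, t * x.2) ∈ Ω)
    (q z : ℝ × ℝ) (hq : q ∈ Ω) (hz : z ∈ Ω) : |q.1 * z.2 - q.2 * z.1| ≤ 2 * Real.pi := by
  have h := measure_mono (μ := volume) (tri_sub Ω hc hs q z hq hz)
  rw [h1 q z, hv, ENNReal.ofReal_le_ofReal_iff Real.pi_pos.le] at h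
  linarith

theorem side (q x z : ℝ × ℝ) (hx : x ∈ tri q z) :
    ∃ t : ℝ, 0 < t ∧ q.1 * x.2 - q.2 * x.1 = t * (q.1 * z.2 - q.2 * z.1) := by
  obtain ⟨s, t, _, h0t, _, rfl⟩ := hx
  exact ⟨t, h0t, by ring⟩

end ICW

theorem pr_CW (h1 : StCT) : StCW := by
  intro Ω ho hc hv hs q hq z hz w hw
  have hDz := ICW.one h1 Ω hc hv hs q z hq hz
  have hDw := ICW.one h1 Ω hc hv hs q w hq hw
  by_cases hz0 : q.1 * z.2 - q.2 * z.1 ≤ 0
  · have := neg_abs_le (q.1 * w.2 - q.2 * w.1)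
    linarith
  by_cases hw0 : 0 ≤ q.1 * w.2 - q.2 * w.1
  · have := le_abs_self (q.1 * z.2 - q.2 * z.1)
    linarith
  push Not at hz0 hw0
  let P : Set (ℝ × ℝ) := {x | 0 < q.1 * x.2 - q.2 * x.1}
  let N : Set (ℝ × ℝ) := {x | q.1 * x.2 - q.2 * x.1 < 0}
  have hP : IsOpen P := isOpen_lt (by fun_prop) (by fun_prop)
  have hN : IsOpen N := isOpen_lt (by fun_prop) (by fun_prop)
  have a1 : tri q z ⊆ Ω ∩ P := by
    intro x hx
    refine ⟨ICW.tri_sub Ω hc hs q z hq hz hx, ?_⟩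
    obtain ⟨t, ht, e⟩ := ICW.side q x z hx
    show 0 < q.1 * x.2 - q.2 * x.1
    rw [e]
    exact mul_pos ht hz0
  have a2 : tri q w ⊆ Ω ∩ N := by
    intro x hx
    refine ⟨ICW.tri_sub Ω hc hs q w hq hw hx, ?_⟩
    obtain ⟨t, ht, e⟩ := ICW.side q x w hx
    show q.1 * x.2 - q.2 * x.1 < 0
    rw [e]
    exact mul_neg_of_pos_of_neg ht hw0
  have hd : Disjoint (Ω ∩ P) (Ω ∩ N) := by
    rw [Set.disjoint_left]
    rintro x ⟨_, hxP⟩ ⟨_, hxN⟩
    have e1 : 0 < q.1 * x.2 - q.2 * x.1 := hxP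
    have e2 : q.1 * x.2 - q.2 * x.1 < 0 := hxN
    exact lt_asymm e1 e2
  have hsum : volume (tri q z) + volume (tri q w) ≤ volume Ω := by
    calc volume (tri q z) + volume (tri q w) ≤ volume (Ω ∩ P) + volume (Ω ∩ N) :=
          add_le_add (measure_mono a1) (measure_mono a2)
      _ = volume ((Ω ∩ P) ∪ (Ω ∩ N)) := (measure_union hd (ho.inter hN).measurableSet).symm
      _ ≤ volume Ω := measure_mono (Set.union_subset Set.inter_subset_left Set.inter_subset_left)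
  rw [h1 q z, h1 q w, hv, ← ENNReal.ofReal_add (by positivity) (by positivity),
    ENNReal.ofReal_le_ofReal_iff Real.pi_pos.le, abs_of_pos hz0, abs_of_neg hw0] at hsum
  linarith

end Pool.Agent.MFK.TC
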