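import Mathlib
import Pool.Agent.Work.MP_8826fd_mp.TC.Stmts

/-!
[8826fd TC DA] algebra: two lower bounds for the ground state energy of the disc.
-/

set_option autoImplicit false

namespace Pool.Agent.MFK.TC

open MeasureTheory Set Filter Topology Pool.Agent.MFK

/-- Item DA. -/
theorem pr_DA : StDA := by
  intro p M lam m al be h
  have r0 := h.be_rec 0
  have r1 := h.be_rec 1
  have d0 := h.be_den 0
  have d1 := h.be_den 1
  have g2 := h.be_ge 2
  have n1 := h.be_nonneg 1
  have b0 := h.be0
  have hM := h.hM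
  have hp := h.hp
  rw [b0] at r0 d0
  norm_num at r0 r1 d0 d1 g2
  have hM0 : 0 < M := d0
  have e1 : be 1 * M = p * (1 - p) + lam := by linarith
  constructor
  · nlinarith [mul_nonneg n1 hM0.le]
  · have k1 : (2 - p) * (M + 1 - be 1) ≤ be 2 * (M + 1 - be 1) :=
      mul_le_mul_of_nonneg_right (by linarith) (by linarith)
    have k2 : (2 - p) * (M + 1 - be 1) ≤ (M + 2) * be 1 - (1 - p) * (2 - p) + lam := by
      nlinarith [k1, r1]
    have k3 : 0 ≤ M * ((M + 2) * be 1 - (1 - p) * (2 - p) + lam - (2 - p) * (M + 1 - be 1)) :=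
      mul_nonneg hM0.le (by linarith)
    have k4 : M * ((M + 2) * be 1 - (1 - p) * (2 - p) + lam - (2 - p) * (M + 1 - be 1)) =
        lam * (2 * M + 4 - p) - (M * (2 - p) * (M + 2 - p) - p * (1 - p) * (M + 4 - p)) := by
      linear_combination (M + 4 - p) * e1
    rw [k4, hM] at k3
    nlinarith [k3]

end Pool.Agent.MFK.TC
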