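import Mathlib
import Pool.Agent.Work.MP_8826fd_mp.TC.Stmts

/-!
[8826fd TC] Item DC: the disc, fields between 1 and 16.
-/

set_option autoImplicit false

namespace Pool.Agent.MFK.TC

open MeasureTheory Set Filter Topology Pool.Agent.MFK

namespace IDC

/-- the polynomial inequality for `p ≤ 2`, `m ≥ 1` -/
theorem poly (p x : ℝ) (hp : 0 < p) (hp2 : p ≤ 2) (hx : 1 ≤ x) (hx6 : 15 / 8 < p → x ≤ 6) :
    (p + x) * (4 + p + 4 * x) < 8 * (2 * p ^ 2 + 8 * x ^ 2 + 8 * x - 2 * x * p - 4 * x ^ 2 * p) := by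
  have e : 8 * (2 * p ^ 2 + 8 * x ^ 2 + 8 * x - 2 * x * p - 4 * x ^ 2 * p) - (p + x) * (4 + p + 4 * x) =
      15 * p ^ 2 - 4 * p + 60 * x - 21 * (x * p) + x ^ 2 * (60 - 32 * p) := by ring
  have h1 : x * p ≤ x * 2 := mul_le_mul_of_nonneg_left hp2 (by linarith)
  rcases le_or_gt p (15 / 8) with h | h
  · have h2 : 0 ≤ x ^ 2 * (60 - 32 * p) := mul_nonneg (by positivity) (by linarith)
    nlinarith [sq_nonneg (15 * p - 2)]
  · have h6 := hx6 h
    have h2 : -(24 * x) ≤ x ^ 2 * (60 - 32 * p) := by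
      have h3 : -4 ≤ 60 - 32 * p := by linarith
      have h4 : x ^ 2 * (-4) ≤ x ^ 2 * (60 - 32 * p) := mul_le_mul_of_nonneg_left h3 (by positivity)
      nlinarith
    nlinarith

end IDC

theorem pr_DC (h1 : StDA) : StDC := by
  intro p M lam m al be hF hB1 hB2
  obtain ⟨hA, hR⟩ := h1 p M lam m al be hF
  have hp := hF.hp
  have hM := hF.hM
  have hlp := hF.lam_pos
  rw [hM] at hB1 hB2 ⊢
  have hm0 : (0 : ℝ) ≤ m := Nat.cast_nonneg m
  rcases le_or_gt p 2 with hp2 | hp2
  · have hpos : 0 < 4 + p + 4 * (m : ℝ) := by positivity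
    have key : (p + m) * (4 + p + 4 * (m : ℝ)) <
        8 * (2 * p ^ 2 + 8 * (m : ℝ) ^ 2 + 8 * m - 2 * m * p - 4 * (m : ℝ) ^ 2 * p) := by
      rcases Nat.eq_zero_or_pos m with h0 | h0
      · subst h0
        simp only [Nat.cast_zero] at hB1 ⊢
        nlinarith
      · apply IDC.poly p m hp hp2 (by exact_mod_cast h0)
        intro h
        by_contra hc
        push Not at hc
        have h7 : 7 ≤ m := by
          have : (6 : ℝ) < m := hc
          exact_mod_cast this
        have h7' : (7 : ℝ) ≤ m := by exact_mod_cast h7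
        linarith
    have h2 : (p + m) * (4 + p + 4 * (m : ℝ)) < 8 * lam * (4 + p + 4 * (m : ℝ)) := by
      linarith
    have h3 : p + m < 8 * lam := lt_of_mul_lt_mul_right h2 hpos.le
    linarith
  · have h2 : 2 < p ^ 2 - p := by nlinarith
    linarith

end Pool.Agent.MFK.TC
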