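import Mathlib
import Pool.Agent.Work.MP_8826fd_mp.TC.Stmts

set_option autoImplicit false

namespace Pool.Agent.MFK.TC

open MeasureTheory Set Filter Topology Pool.Agent.MFK

theorem pr_DD (h1 : StDA) : StDD := by
  intro p M lam m al be hF hB
  have hp := hF.hp
  have hM := hF.hM
  have hm0 : m = 0 := by
    by_contra h
    have h2 : (1 : ℝ) ≤ m := by exact_mod_cast Nat.one_le_iff_ne_zero.mpr h
    linarith
  subst hm0
  have h3 := (h1 p M lam 0 al be hF).2
  have hM' : M = p := by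
    rw [hM]
    simp
  have hp2 : p ≤ 1 / 2 := by linarith
  have h4 : 2 * p ^ 2 ≤ lam * (4 + p) := by
    have e : 2 * p ^ 2 + 8 * ((0 : ℕ) : ℝ) ^ 2 + 8 * ((0 : ℕ) : ℝ) - 2 * ((0 : ℕ) : ℝ) * p -
        4 * ((0 : ℕ) : ℝ) ^ 2 * p = 2 * p ^ 2 := by
      push_cast
      ring
    have e2 : lam * (4 + p + 4 * ((0 : ℕ) : ℝ)) = lam * (4 + p) := by
      push_cast
      ring
    rw [e, e2] at h3
    exact h3
  have hl := hF.lam_pos
  have h5 : lam * (4 + p) ≤ lam * (9 / 2) :=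
    mul_le_mul_of_nonneg_left (by linarith) hl.le
  rw [hM']
  have e3 : (p + p) ^ 2 / 9 = 4 * p ^ 2 / 9 := by ring
  rw [e3]
  linarith

end Pool.Agent.MFK.TC
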