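import Mathlib
import Pool.Agent.Work.MP_8826fd_mp.TC.Stmts
import Pool.Agent.Work.MP_8826fd_mp.Asm

/-!
[8826fd TC] Item DE: the ground state of the disc.
-/

set_option autoImplicit false

namespace Pool.Agent.MFK.TC

open MeasureTheory Set Filter Topology Pool.Agent.MFK

theorem pr_DE (h1 : StDB) (h2 : StDC) (h3 : StDD) : StDE := by
  intro B hB
  obtain ⟨lam, m, F, hD, hF⟩ := Asm.stSpec B hB
  have hlb := Asm.stLB B lam m F hB hD
  have e : B / 2 + (m : ℝ) + (B / 2 - (m : ℝ)) = B := by ring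
  constructor
  · intro hB1
    rcases le_or_gt B 16 with h16 | h16
    · have h4 := h2 _ _ _ _ _ _ hF (by rw [e]; exact hB1) (by rw [e]; exact h16)
      rw [e] at h4
      exact lt_of_lt_of_le h4 hlb
    · have h4 := h1 _ _ _ _ _ _ hF (by rw [e]; exact h16)
      rw [e] at h4
      exact lt_of_lt_of_le h4 hlb
  · intro hB1
    have h4 := h3 _ _ _ _ _ _ hF (by rw [e]; exact hB1)
    rw [e] at h4
    exact h4.trans hlb

end Pool.Agent.MFK.TC
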