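import Mathlib
import Pool.Agent.Work.MP_8826fd_mp.TC.Stmts

/-!
[8826fd TC], item ED: the trial function `tu`.
-/

set_option autoImplicit false

namespace Pool.Agent.MFK.TC

open MeasureTheory Set Filter Topology Pool.Agent.MFK

namespace IED

theorem contDiff (b B : ℝ) : ContDiff ℝ 1 (tu b B) := by
  unfold tu
  have h1 : ContDiff ℝ 1 (fun x : ℝ × ℝ => (-(b * x.1 ^ 2) : ℝ)) := by fun_prop
  have h2 : ContDiff ℝ 1 (fun x : ℝ × ℝ => (B * x.1 * x.2 / 2 : ℝ)) := by fun_prop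
  have h3 : ContDiff ℝ 1 (fun x : ℝ × ℝ => (((-(b * x.1 ^ 2) : ℝ)) : ℂ)) :=
    Complex.ofRealCLM.contDiff.comp h1
  have h4 : ContDiff ℝ 1 (fun x : ℝ × ℝ => (((B * x.1 * x.2 / 2 : ℝ)) : ℂ)) :=
    Complex.ofRealCLM.contDiff.comp h2
  exact (h3.add (contDiff_const.mul h4)).cexp

theorem fd (b B : ℝ) (x : ℝ × ℝ) (v : ℝ × ℝ) :
    fderiv ℝ (tu b B) x v = tu b B x *
      ((((-(b * (2 * x.1 * v.1))) : ℝ) : ℂ) +
        Complex.I * (((B * (x.2 * v.1 + x.1 * v.2) / 2) : ℝ) : ℂ)) := by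
  have hf : HasFDerivAt (fun z : ℝ × ℝ => z.1) (ContinuousLinearMap.fst ℝ ℝ ℝ) x :=
    hasFDerivAt_fst
  have hs : HasFDerivAt (fun z : ℝ × ℝ => z.2) (ContinuousLinearMap.snd ℝ ℝ ℝ) x :=
    hasFDerivAt_snd
  have h1 : HasFDerivAt (fun z : ℝ × ℝ => (-(b * z.1 ^ 2) : ℝ))
      ((-(b * (2 * x.1))) • ContinuousLinearMap.fst ℝ ℝ ℝ) x := by
    have h := ((hf.pow 2).const_mul b).neg
    refine h.congr_fderiv ?_
    ext <;> simp
  have h2 : HasFDerivAt (fun z : ℝ × ℝ => (B * z.1 * z.2 / 2 : ℝ))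
      ((B * x.2 / 2) • ContinuousLinearMap.fst ℝ ℝ ℝ +
        (B * x.1 / 2) • ContinuousLinearMap.snd ℝ ℝ ℝ) x := by
    have h := ((hf.mul hs).const_mul (B / 2))
    have e : (fun z : ℝ × ℝ => (B * z.1 * z.2 / 2 : ℝ)) = fun z => B / 2 * (z.1 * z.2) := by
      funext z
      ring
    rw [e]
    refine h.congr_fderiv ?_
    ext <;> simp <;> ring
  have h3 := (Complex.ofRealCLM.hasFDerivAt (x := (-(b * x.1 ^ 2) : ℝ))).comp x h1
  have h4 := (Complex.ofRealCLM.hasFDerivAt (x := (B * x.1 * x.2 / 2 : ℝ))).comp x h2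
  have h5 := (h3.add (h4.const_mul Complex.I)).cexp
  have h6 : HasFDerivAt (tu b B) _ x := h5
  rw [h6.fderiv]
  simp [tu]
  ring

end IED

open IED in
theorem pr_ED : StED := by
  intro b B
  refine ⟨contDiff b B, fun x => ?_⟩
  have hn : ‖tu b B x‖ ^ 2 = Real.exp (-(2 * b * x.1 ^ 2)) := by
    unfold tu
    rw [Complex.norm_exp, ← Real.exp_nat_mul]
    congr 1
    rw [Complex.add_re, Complex.mul_re, Complex.ofReal_re, Complex.I_re, Complex.ofReal_im]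
    push_cast
    ring
  refine ⟨hn, ?_⟩
  unfold eden
  rw [fd, fd]
  have e1 : tu b B x * ((((-(b * (2 * x.1 * ((1 : ℝ), (0 : ℝ)).1))) : ℝ) : ℂ) +
        Complex.I * (((B * (x.2 * ((1 : ℝ), (0 : ℝ)).1 + x.1 * ((1 : ℝ), (0 : ℝ)).2) / 2) : ℝ) : ℂ)) -
      Complex.I * ((-(B * x.2 / 2) : ℝ) : ℂ) * tu b B x =
      tu b B x * ⟨-(2 * b * x.1), B * x.2⟩ := by
    have : (⟨-(2 * b * x.1), B * x.2⟩ : ℂ) =
        ((-(2 * b * x.1) : ℝ) : ℂ) + ((B * x.2 : ℝ) : ℂ) * Complex.I := Complex.mk_eq_add_mul_I _ _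
    rw [this]
    push_cast
    ring
  have e2 : tu b B x * ((((-(b * (2 * x.1 * ((0 : ℝ), (1 : ℝ)).1))) : ℝ) : ℂ) +
        Complex.I * (((B * (x.2 * ((0 : ℝ), (1 : ℝ)).1 + x.1 * ((0 : ℝ), (1 : ℝ)).2) / 2) : ℝ) : ℂ)) -
      Complex.I * ((B * x.1 / 2 : ℝ) : ℂ) * tu b B x = 0 := by
    push_cast
    ring
  rw [e1, e2, norm_zero, norm_mul, mul_pow, hn]
  have e3 : ‖(⟨-(2 * b * x.1), B * x.2⟩ : ℂ)‖ ^ 2 = 4 * b ^ 2 * x.1 ^ 2 + B ^ 2 * x.2 ^ 2 := by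
    rw [Complex.sq_norm, Complex.normSq_apply]
    ring
  rw [e3]
  ring

end Pool.Agent.MFK.TC
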