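import Mathlib
import Pool.Agent.Work.MP_8826fd_mp.TC.Stmts
import Pool.Agent.Work.MP_8826fd_mp.Sc

/-!
[8826fd TC] item EF: long ellipses.
-/

set_option autoImplicit false

namespace Pool.Agent.MFK.TC

open MeasureTheory Set Filter Topology Pool.Agent.MFK

namespace IEF

theorem img (a e : ℝ) (z : ℝ × ℝ) :
    {x : ℝ × ℝ | (x.1 - z.1) ^ 2 / a ^ 2 + a ^ 2 * (x.2 - z.2) ^ 2 < 1} =
      (fun x : ℝ × ℝ => (z.1 - (a + e), z.2) + (1 : ℝ) • x) '' ell a e := by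
  ext x
  constructor
  · intro hx
    refine ⟨(x.1 - (z.1 - (a + e)), x.2 - z.2), ?_, ?_⟩
    · change (x.1 - (z.1 - (a + e)) - (a + e)) ^ 2 / a ^ 2 + a ^ 2 * (x.2 - z.2) ^ 2 < 1
      have h : x.1 - (z.1 - (a + e)) - (a + e) = x.1 - z.1 := by ring
      rw [h]
      exact hx
    · apply Prod.ext
      · change z.1 - (a + e) + 1 * (x.1 - (z.1 - (a + e))) = x.1
        ring
      · change z.2 + 1 * (x.2 - z.2) = x.2
        ring
  · rintro ⟨y, hy, rfl⟩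
    change (z.1 - (a + e) + 1 * y.1 - z.1) ^ 2 / a ^ 2 + a ^ 2 * (z.2 + 1 * y.2 - z.2) ^ 2 < 1
    have h1 : z.1 - (a + e) + 1 * y.1 - z.1 = y.1 - (a + e) := by ring
    have h2 : z.2 + 1 * y.2 - z.2 = y.2 := by ring
    rw [h1, h2]
    exact hy

end IEF

theorem pr_EF (h1 : StGE) (h2 : StEL) (h3 : StEV) : StEF := by
  intro a B z ha hB haB
  have ha0 : 0 < a := by linarith
  obtain ⟨k1, k2, k3⟩ := h3 a (800 / a ^ 3) ha0
  have g1 : (1 / a) ^ 2 < 1 / 9 := by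
    rw [div_pow, one_pow, div_lt_div_iff₀ (by positivity) (by norm_num)]
    nlinarith
  have g2 : 2 * (1 / 40 : ℝ) + 2 * (1 / 40) ^ 2 * (1600 / a ^ 3) ^ 2 * B ≤ 1 / 16 := by
    have e1 : 2 * (1 / 40 : ℝ) ^ 2 * (1600 / a ^ 3) ^ 2 * B = 3200 * B / a ^ 6 := by
      field_simp
      ring
    have e2 : 3200 * B / a ^ 6 ≤ 1 / 80 := by
      rw [div_le_div_iff₀ (by positivity) (by norm_num)]
      linarith
    rw [e1]
    linarith
  have hG := h1 B (1 / 40) (1600 / a ^ 3) (1 / a) (ell a (800 / a ^ 3)) hB (by norm_num) (by positivity) k1 k2 (h2 a ha) k3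
    g1 g2
  rw [IEF.img a (800 / a ^ 3) z, sc B 1 _ _ one_pos k1, one_pow, inv_one, one_mul, mul_one]
  exact hG

end Pool.Agent.MFK.TC
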