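import Mathlib
import Pool.Agent.Work.MP_8826fd_mp.TC.StmtsP
import Pool.Agent.Work.MP_8826fd_mp.Sc

/-!
[8826fd TC EG] (helper5) ellipses in general position
-/

set_option autoImplicit false

namespace Pool.Agent.MFK.TC

open MeasureTheory Set Filter Topology Pool.Agent.MFK

namespace IEG

theorem image_eq {r : ℝ} (hr : 0 < r) (S T : Set (ℝ × ℝ)) (h : ∀ x : ℝ × ℝ, r⁻¹ • x ∈ S ↔ x ∈ T) :
    (fun x : ℝ × ℝ => (0 : ℝ × ℝ) + r • x) '' S = T := by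
  ext x
  constructor
  · rintro ⟨y, hy, rfl⟩
    rw [← h]
    show r⁻¹ • ((0 : ℝ × ℝ) + r • y) ∈ S
    rw [zero_add, inv_smul_smul₀ hr.ne']
    exact hy
  · intro hx
    refine ⟨r⁻¹ • x, (h x).2 hx, ?_⟩
    show (0 : ℝ × ℝ) + r • (r⁻¹ • x) = x
    rw [zero_add, smul_inv_smul₀ hr.ne']

end IEG

theorem pr_EG (h1 : StEF) (h2 : StPI) : StEG := by
  intro B s t p a d hB ht hst had hs
  have hs0 : 0 < s := by linarith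
  obtain ⟨r, hrdef⟩ : ∃ r, r = Real.sqrt (s * t) := ⟨_, rfl⟩
  obtain ⟨q, hqdef⟩ : ∃ q, q = Real.sqrt (s / t) := ⟨_, rfl⟩
  have hr : 0 < r := by rw [hrdef]; exact Real.sqrt_pos.2 (mul_pos hs0 ht)
  have hq0 : 0 < q := by rw [hqdef]; exact Real.sqrt_pos.2 (div_pos hs0 ht)
  have hr2 : r ^ 2 = s * t := by rw [hrdef]; exact Real.sq_sqrt (mul_pos hs0 ht).le
  have hq2 : q ^ 2 = s / t := by rw [hqdef]; exact Real.sq_sqrt (div_pos hs0 ht).le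
  have hq3 : 3 < q := by
    have h9 : 9 < s / t := by rw [lt_div_iff₀ ht]; exact hst
    nlinarith
  have hq6 : q ^ 6 = (s / t) ^ 3 := by
    rw [← hq2]; ring
  have key := h1 q (B * r ^ 2) (0, 0) hq3 (mul_pos hB (by positivity)) (by rw [hq6, hr2]; exact hs)
  have hmul : (r ^ 2)⁻¹ * lamN (B * r ^ 2) {x | (x.1 - ((0, 0) : ℝ × ℝ).1) ^ 2 / q ^ 2
      + q ^ 2 * (x.2 - ((0, 0) : ℝ × ℝ).2) ^ 2 < 1} < (r ^ 2)⁻¹ * lamN (B * r ^ 2) disc :=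
    mul_lt_mul_of_pos_left key (by positivity)
  have hO1 : IsOpen {x : ℝ × ℝ | (x.1 - ((0, 0) : ℝ × ℝ).1) ^ 2 / q ^ 2
      + q ^ 2 * (x.2 - ((0, 0) : ℝ × ℝ).2) ^ 2 < 1} :=
    isOpen_lt (by fun_prop) continuous_const
  have hO2 : IsOpen disc := isOpen_lt (by fun_prop) continuous_const
  have hO3 : IsOpen {x : ℝ × ℝ | x.1 ^ 2 / s ^ 2 + x.2 ^ 2 / t ^ 2 < 1} :=
    isOpen_lt (by fun_prop) continuous_const
  rw [← sc B r 0 _ hr hO1, ← sc B r 0 _ hr hO2] at hmul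
  rw [IEG.image_eq hr _ {x : ℝ × ℝ | x.1 ^ 2 / s ^ 2 + x.2 ^ 2 / t ^ 2 < 1} ?_,
    IEG.image_eq hr _ (edisc (0, 0) r) ?_] at hmul
  · rw [← h2 B p a d _ had hO3] at hmul
    rw [← hrdef]
    exact hmul
  · intro x
    show (r⁻¹ * x.1) ^ 2 + (r⁻¹ * x.2) ^ 2 < 1 ↔ (x.1 - 0) ^ 2 + (x.2 - 0) ^ 2 < r ^ 2
    rw [show (r⁻¹ * x.1) ^ 2 + (r⁻¹ * x.2) ^ 2 = (x.1 ^ 2 + x.2 ^ 2) / r ^ 2 by field_simp, div_lt_one (by positivity),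
      sub_zero, sub_zero]
  · intro x
    show (r⁻¹ * x.1 - 0) ^ 2 / q ^ 2 + q ^ 2 * (r⁻¹ * x.2 - 0) ^ 2 < 1 ↔ x.1 ^ 2 / s ^ 2 + x.2 ^ 2 / t ^ 2 < 1
    have e1 : (r⁻¹ * x.1 - 0) ^ 2 / q ^ 2 = x.1 ^ 2 / (r ^ 2 * q ^ 2) := by
      rw [sub_zero]; field_simp
    have e2 : q ^ 2 * (r⁻¹ * x.2 - 0) ^ 2 = x.2 ^ 2 * q ^ 2 / r ^ 2 := by
      rw [sub_zero]; field_simp
    have e3 : x.1 ^ 2 / (r ^ 2 * q ^ 2) = x.1 ^ 2 / s ^ 2 := by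
      rw [hr2, hq2]; congr 1; field_simp
    have e4 : x.2 ^ 2 * q ^ 2 / r ^ 2 = x.2 ^ 2 / t ^ 2 := by
      rw [hr2, hq2]; field_simp
    rw [e1, e2, e3, e4]

end Pool.Agent.MFK.TC
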