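import Mathlib
import Pool.Agent.Work.MP_8826fd_mp.TC.Stmts

/-!
[8826fd TC] Item EL: the ellipse in the wedge.
-/

set_option autoImplicit false

namespace Pool.Agent.MFK.TC

open MeasureTheory Set Filter Topology Pool.Agent.MFK

namespace IEL

theorem mem_ell (a e : ℝ) (ha : 0 < a) (x : ℝ × ℝ) :
    x ∈ ell a e ↔ (x.1 - (a + e)) ^ 2 + a ^ 4 * x.2 ^ 2 < a ^ 2 := by
  have h : (x.1 - (a + e)) ^ 2 / a ^ 2 + a ^ 2 * x.2 ^ 2 =
      ((x.1 - (a + e)) ^ 2 + a ^ 4 * x.2 ^ 2) / a ^ 2 := by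
    field_simp
  show (x.1 - (a + e)) ^ 2 / a ^ 2 + a ^ 2 * x.2 ^ 2 < 1 ↔ _
  rw [h, div_lt_one (by positivity)]

theorem wedge (a e x y : ℝ) (ha : 0 < a) (he : e * a ^ 3 = 800) (he0 : 0 < e)
    (h : (x - (a + e)) ^ 2 + a ^ 4 * y ^ 2 < a ^ 2) : 0 < x ∧ |y| < 1 / 40 * x := by
  have h1 : (x - e) ^ 2 + a ^ 4 * y ^ 2 < 2 * a * (x - e) := by nlinarith
  have h2 : 0 < 2 * a * (x - e) := by
    have : 0 ≤ (x - e) ^ 2 + a ^ 4 * y ^ 2 := by positivity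
    linarith
  have h3 : 0 < x - e := by
    by_contra hc
    push Not at hc
    have : 2 * a * (x - e) ≤ 0 := mul_nonpos_of_nonneg_of_nonpos (by positivity) hc
    linarith
  have h4 : a * (a ^ 3 * y ^ 2) < a * (2 * (x - e)) := by
    have : 0 ≤ (x - e) ^ 2 := sq_nonneg _
    nlinarith
  have h5 : a ^ 3 * y ^ 2 < 2 * (x - e) := lt_of_mul_lt_mul_left h4 ha.le
  have h6 : 1600 * y ^ 2 = 2 * e * (a ^ 3 * y ^ 2) := by linear_combination (-2 * y ^ 2) * he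
  have h7 : 2 * e * (a ^ 3 * y ^ 2) < 2 * e * (2 * (x - e)) :=
    mul_lt_mul_of_pos_left h5 (by positivity)
  have h8 : 2 * e * (2 * (x - e)) ≤ x ^ 2 := by nlinarith [sq_nonneg (x - 2 * e)]
  have hx : 0 < x := by linarith
  refine ⟨hx, ?_⟩
  apply abs_lt_of_sq_lt_sq _ (by positivity)
  have h9 : (1 / 40 * x) ^ 2 = x ^ 2 / 1600 := by ring
  rw [h9]
  linarith

theorem star (a e x y t : ℝ) (ha : 0 < a) (he0 : 0 < e)
    (h : (x - (a + e)) ^ 2 + a ^ 4 * y ^ 2 < a ^ 2) (ht : 0 < t) (ht1 : t < 1) (hx : 2 * e < t * x) :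
    (t * x - (a + e)) ^ 2 + a ^ 4 * (t * y) ^ 2 < a ^ 2 := by
  have h1 : (x - e) ^ 2 + a ^ 4 * y ^ 2 < 2 * a * (x - e) := by nlinarith
  have h0 : e * (1 + t) ≤ 2 * e := by nlinarith
  have p1 : 0 ≤ 2 * a * ((1 - t) * (t * x - e * (1 + t))) := by
    apply mul_nonneg (by positivity)
    apply mul_nonneg (by linarith)
    linarith
  have p2 : 0 ≤ e * (1 - t) * (2 * (t * x) - e * (1 + t)) := by
    apply mul_nonneg
    · exact mul_nonneg he0.le (by linarith)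
    · linarith
  have p3 : t ^ 2 * ((x - e) ^ 2 + a ^ 4 * y ^ 2) < t ^ 2 * (2 * a * (x - e)) :=
    mul_lt_mul_of_pos_left h1 (by positivity)
  have p4 : (t * x - (a + e)) ^ 2 + a ^ 4 * (t * y) ^ 2 - a ^ 2 =
      t ^ 2 * ((x - e) ^ 2 + a ^ 4 * y ^ 2) - t ^ 2 * (2 * a * (x - e)) -
      2 * a * ((1 - t) * (t * x - e * (1 + t))) - e * (1 - t) * (2 * (t * x) - e * (1 + t)) := by
    ring
  linarith

end IEL

theorem pr_EL : StEL := by
  intro a ha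
  have ha0 : 0 < a := by linarith
  obtain ⟨e, hedef⟩ : ∃ e : ℝ, e = 800 / a ^ 3 := ⟨_, rfl⟩
  have he : e * a ^ 3 = 800 := by
    rw [hedef]
    field_simp
  have he0 : 0 < e := by
    rw [hedef]
    positivity
  have h2e : 1600 / a ^ 3 = 2 * e := by
    rw [hedef]
    ring
  rw [← hedef, h2e]
  constructor
  · intro x hx
    exact IEL.wedge a e x.1 x.2 ha0 he he0 ((IEL.mem_ell a e ha0 x).1 hx)
  · intro x hx t ht ht1 htx
    exact (IEL.mem_ell a e ha0 _).2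
      (IEL.star a e x.1 x.2 t ha0 he0 ((IEL.mem_ell a e ha0 x).1 hx) ht ht1 htx)

end Pool.Agent.MFK.TC
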