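import Mathlib
import Pool.Agent.Work.MP_8826fd_mp.TC.Stmts

/-!
# [8826fd TC] item EP: the phase and its energy density
-/

set_option autoImplicit false

namespace Pool.Agent.MFK.TC

open MeasureTheory Set Filter Topology Pool.Agent.MFK

namespace IEPb

/-- the real phase -/
noncomputable def fi (B a d c : ℝ) (x : ℝ × ℝ) : ℝ :=
  B * (c * (-(d * x.1) + a * x.2) - (a * x.1 + d * x.2) * (-(d * x.1) + a * x.2) / 2)

theorem fi_diff (B a d c : ℝ) : ContDiff ℝ 1 (fi B a d c) := by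
  unfold fi
  fun_prop

theorem fi_fderiv (B a d c : ℝ) (x v : ℝ × ℝ) :
    fderiv ℝ (fi B a d c) x v = B * (c * (-(d * v.1) + a * v.2)
      - ((a * v.1 + d * v.2) * (-(d * x.1) + a * x.2)
        + (a * x.1 + d * x.2) * (-(d * v.1) + a * v.2)) / 2) := by
  have h1 : HasFDerivAt (fun y : ℝ × ℝ => y.1) (ContinuousLinearMap.fst ℝ ℝ ℝ) x := hasFDerivAt_fst
  have h2 : HasFDerivAt (fun y : ℝ × ℝ => y.2) (ContinuousLinearMap.snd ℝ ℝ ℝ) x := hasFDerivAt_snd
  have hn := (h1.const_mul a).add (h2.const_mul d)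
  have hm := ((h1.const_mul d).neg).add (h2.const_mul a)
  have h := ((hm.const_mul c).sub ((hn.mul hm).mul_const (1 / 2 : ℝ))).const_mul B
  have h' : HasFDerivAt (fi B a d c) _ x := h.congr_of_eventuallyEq
    (Filter.Eventually.of_forall fun y => by simp only [fi, Pi.add_apply, Pi.mul_apply, Pi.neg_apply, Pi.sub_apply]; ring)
  rw [h'.fderiv]
  simp only [ContinuousLinearMap.smul_apply, ContinuousLinearMap.sub_apply, ContinuousLinearMap.add_apply,
    ContinuousLinearMap.neg_apply, ContinuousLinearMap.coe_fst', ContinuousLinearMap.coe_snd', smul_eq_mul,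
    Pi.add_apply, Pi.mul_apply, Pi.neg_apply]
  ring

theorem pf_eq (B a d c : ℝ) : pf B a d c = fun x => Complex.exp (Complex.I * ((fi B a d c x : ℝ) : ℂ)) := rfl

theorem pf_fderiv (B a d c : ℝ) (x v : ℝ × ℝ) :
    fderiv ℝ (pf B a d c) x v = Complex.I * ((fderiv ℝ (fi B a d c) x v : ℝ) : ℂ) * pf B a d c x := by
  have h1 : HasFDerivAt (fi B a d c) (fderiv ℝ (fi B a d c) x) x :=
    ((fi_diff B a d c).differentiable one_ne_zero x).hasFDerivAt
  have h2 : HasFDerivAt (fun y => ((fi B a d c y : ℝ) : ℂ))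
      (Complex.ofRealCLM.comp (fderiv ℝ (fi B a d c) x)) x := Complex.ofRealCLM.hasFDerivAt.comp x h1
  have h3 := (h2.const_mul Complex.I).cexp
  rw [pf_eq, h3.fderiv]
  simp only [ContinuousLinearMap.smul_apply, ContinuousLinearMap.comp_apply, Complex.ofRealCLM_apply, smul_eq_mul]
  ring

theorem norm_pf (B a d c : ℝ) (x : ℝ × ℝ) : ‖pf B a d c x‖ = 1 := by
  rw [pf_eq]
  simp only []
  rw [mul_comm, Complex.norm_exp_ofReal_mul_I]

end IEPb

theorem pr_EPb : StEP := by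
  intro B a d c had
  refine ⟨?_, fun x => ⟨?_, ?_⟩⟩
  · rw [IEPb.pf_eq]
    have h := IEPb.fi_diff B a d c
    have h2 : ContDiff ℝ 1 (fun x => ((IEPb.fi B a d c x : ℝ) : ℂ)) := Complex.ofRealCLM.contDiff.comp h
    exact (contDiff_const.mul h2).cexp
  · rw [IEPb.norm_pf, one_pow]
  · unfold eden
    rw [IEPb.pf_fderiv, IEPb.pf_fderiv, IEPb.fi_fderiv, IEPb.fi_fderiv]
    have e1 : Complex.I * ((B * (c * (-(d * ((1 : ℝ), (0 : ℝ)).1) + a * ((1 : ℝ), (0 : ℝ)).2)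
        - ((a * ((1 : ℝ), (0 : ℝ)).1 + d * ((1 : ℝ), (0 : ℝ)).2) * (-(d * x.1) + a * x.2)
        + (a * x.1 + d * x.2) * (-(d * ((1 : ℝ), (0 : ℝ)).1) + a * ((1 : ℝ), (0 : ℝ)).2)) / 2) : ℝ) : ℂ)
        * pf B a d c x - Complex.I * ((-(B * x.2 / 2) : ℝ) : ℂ) * pf B a d c x
        = Complex.I * (((B * (d * (a * x.1 + d * x.2 - c)) : ℝ)) : ℂ) * pf B a d c x := by
      have e2 : B * (c * (-(d * ((1 : ℝ), (0 : ℝ)).1) + a * ((1 : ℝ), (0 : ℝ)).2)
        - ((a * ((1 : ℝ), (0 : ℝ)).1 + d * ((1 : ℝ), (0 : ℝ)).2) * (-(d * x.1) + a * x.2)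
        + (a * x.1 + d * x.2) * (-(d * ((1 : ℝ), (0 : ℝ)).1) + a * ((1 : ℝ), (0 : ℝ)).2)) / 2)
        - (-(B * x.2 / 2)) = B * (d * (a * x.1 + d * x.2 - c)) := by
        simp only []
        linear_combination (-(B * x.2 / 2)) * had
      rw [← e2]
      push_cast
      ring
    have e3 : Complex.I * ((B * (c * (-(d * ((0 : ℝ), (1 : ℝ)).1) + a * ((0 : ℝ), (1 : ℝ)).2)
        - ((a * ((0 : ℝ), (1 : ℝ)).1 + d * ((0 : ℝ), (1 : ℝ)).2) * (-(d * x.1) + a * x.2)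
        + (a * x.1 + d * x.2) * (-(d * ((0 : ℝ), (1 : ℝ)).1) + a * ((0 : ℝ), (1 : ℝ)).2)) / 2) : ℝ) : ℂ)
        * pf B a d c x - Complex.I * ((B * x.1 / 2 : ℝ) : ℂ) * pf B a d c x
        = Complex.I * (((-(B * (a * (a * x.1 + d * x.2 - c))) : ℝ)) : ℂ) * pf B a d c x := by
      have e2 : B * (c * (-(d * ((0 : ℝ), (1 : ℝ)).1) + a * ((0 : ℝ), (1 : ℝ)).2)
        - ((a * ((0 : ℝ), (1 : ℝ)).1 + d * ((0 : ℝ), (1 : ℝ)).2) * (-(d * x.1) + a * x.2)
        + (a * x.1 + d * x.2) * (-(d * ((0 : ℝ), (1 : ℝ)).1) + a * ((0 : ℝ), (1 : ℝ)).2)) / 2)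
        - B * x.1 / 2 = -(B * (a * (a * x.1 + d * x.2 - c))) := by
        simp only []
        linear_combination (B * x.1 / 2) * had
      rw [← e2]
      push_cast
      ring
    rw [e1, e3, norm_mul, norm_mul, norm_mul, norm_mul, IEPb.norm_pf, Complex.norm_I, Complex.norm_real,
      Complex.norm_real]
    simp only [one_mul, mul_one, Real.norm_eq_abs, sq_abs]
    linear_combination (B ^ 2 * (a * x.1 + d * x.2 - c) ^ 2) * had

end Pool.Agent.MFK.TC
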