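import Mathlib
import Pool.Agent.Work.MP_8826fd_mp.TC.Stmts

/-!
[8826fd TC] item EV: the ellipse with semi-axes `a`, `1/a` is open, has the area of the unit disc, and lies in a
strip of half-width `1/a`.
-/

set_option autoImplicit false

namespace Pool.Agent.MFK.TC

open MeasureTheory Set Filter Topology Pool.Agent.MFK

namespace IEV

/-- the linear part of the map of the ellipse onto the unit disc -/
noncomputable def lin (a : ℝ) : (ℝ × ℝ) →ₗ[ℝ] (ℝ × ℝ) :=
  LinearMap.prodMap (a⁻¹ • LinearMap.id) (a • LinearMap.id)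

theorem lin_apply (a : ℝ) (x : ℝ × ℝ) : lin a x = (a⁻¹ * x.1, a * x.2) := by
  simp [lin]

theorem lin_det (a : ℝ) (ha : 0 < a) : LinearMap.det (lin a) = 1 := by
  unfold lin
  rw [LinearMap.det_prodMap, LinearMap.det_smul, LinearMap.det_smul]
  simp [ha.ne']

theorem ell_eq (a e : ℝ) (ha : 0 < a) :
    ell a e = (fun x : ℝ × ℝ => x + (-(a + e), 0)) ⁻¹' (lin a ⁻¹' (edisc (0, 0) 1)) := by
  ext x
  simp only [ell, mem_ofPred_eq, mem_preimage, lin_apply, edisc, Prod.fst_add, Prod.snd_add]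
  have h1 : (x.1 - (a + e)) ^ 2 / a ^ 2 + a ^ 2 * x.2 ^ 2 =
      (a⁻¹ * (x.1 + -(a + e)) - 0) ^ 2 + (a * (x.2 + 0) - 0) ^ 2 := by
    field_simp
    ring
  rw [h1]
  norm_num

end IEV

theorem pr_EV (h1 : StVO) : StEV := by
  intro a e ha
  refine ⟨?_, ?_, ?_⟩
  · have hc : Continuous (fun x : ℝ × ℝ => (x.1 - (a + e)) ^ 2 / a ^ 2 + a ^ 2 * x.2 ^ 2) := by
      fun_prop
    exact isOpen_lt hc continuous_const
  · rw [IEV.ell_eq a e ha, measure_preimage_add_right,
      Measure.addHaar_preimage_linearMap volume (by rw [IEV.lin_det a ha]; norm_num),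
      IEV.lin_det a ha, h1 (0, 0) 1 one_pos]
    simp
  · refine ⟨0, 1, 0, by norm_num, ?_⟩
    intro x hx
    have h2 : (x.1 - (a + e)) ^ 2 / a ^ 2 + a ^ 2 * x.2 ^ 2 < 1 := hx
    have h3 : 0 ≤ (x.1 - (a + e)) ^ 2 / a ^ 2 := by positivity
    have h4 : (a * x.2) ^ 2 < 1 := by
      have : (a * x.2) ^ 2 = a ^ 2 * x.2 ^ 2 := by ring
      linarith
    have h5 : |a * x.2| < 1 := by
      rw [← sq_lt_one_iff_abs_lt_one]
      exact h4
    rw [zero_mul, one_mul, zero_add, sub_zero]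
    rw [abs_mul, abs_of_pos ha] at h5
    rw [le_div_iff₀ ha]
    linarith

end Pool.Agent.MFK.TC
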