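import Mathlib
import Pool.Agent.Work.MP_8826fd_mp.TC.Stmts

/-!
[8826fd TC GE] (helper5) the general theorem
-/

set_option autoImplicit false

namespace Pool.Agent.MFK.TC

open MeasureTheory Set Filter Topology Pool.Agent.MFK

theorem pr_GE (h1 : StSU) (h2 : StWE) (h3 : StDE) : StGE := by
  intro B κ ε W Ω hB hκ hε hO hv hW hS hW2 hk
  rcases le_or_gt B 1 with hB1 | hB1
  · have a1 := h1 B W Ω hO hv hS
    have a2 := (h3 B hB).2 hB1
    have a3 : B ^ 2 * W ^ 2 < B ^ 2 * (1 / 9) := mul_lt_mul_of_pos_left hW2 (by positivity)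
    linarith
  · have a1 := h2 B κ ε Ω hB hκ hε hO hv hW
    have a2 := (h3 B hB).1 hB1.le
    have a3 : B * (2 * κ + 2 * κ ^ 2 * ε ^ 2 * B) ≤ B * (1 / 16) := mul_le_mul_of_nonneg_left hk hB.le
    have a4 : B * (2 * κ + 2 * κ ^ 2 * ε ^ 2 * B) = 2 * κ * B + 2 * κ ^ 2 * ε ^ 2 * B ^ 2 := by ring
    linarith

end Pool.Agent.MFK.TC
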