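import Mathlib
import Pool.Agent.Work.MP_8826fd_mp.TC.Stmts
import Pool.Agent.Work.MP_8826fd_mp.Sc

/-!
[8826fd TC GR] the general theorem for discs of any radius, by scaling.
-/

set_option autoImplicit false

namespace Pool.Agent.MFK.TC

open MeasureTheory Set Filter Topology Pool.Agent.MFK

namespace IGR

theorem image_pre {R : ℝ} (hR : 0 < R) (Om : Set (ℝ × ℝ)) :
    (fun x : ℝ × ℝ => ((0 : ℝ), (0 : ℝ)) + R • x) '' ((fun x : ℝ × ℝ => R • x) ⁻¹' Om) = Om := by
  ext x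
  constructor
  · rintro ⟨y, hy, rfl⟩
    have h : ((0 : ℝ), (0 : ℝ)) + R • y = R • y := by
      ext <;> simp
    show ((0 : ℝ), (0 : ℝ)) + R • y ∈ Om
    rw [h]
    exact hy
  · intro hx
    refine ⟨R⁻¹ • x, ?_, ?_⟩
    · show R • R⁻¹ • x ∈ Om
      rw [smul_inv_smul₀ hR.ne']
      exact hx
    · show ((0 : ℝ), (0 : ℝ)) + R • R⁻¹ • x = x
      rw [smul_inv_smul₀ hR.ne']
      ext <;> simp

theorem image_disc {R : ℝ} (hR : 0 < R) :
    (fun x : ℝ × ℝ => ((0 : ℝ), (0 : ℝ)) + R • x) '' disc = edisc (0, 0) R := by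
  have h : (fun x : ℝ × ℝ => R • x) ⁻¹' edisc (0, 0) R = disc := by
    ext x
    show (R * x.1 - 0) ^ 2 + (R * x.2 - 0) ^ 2 < R ^ 2 ↔ x.1 ^ 2 + x.2 ^ 2 < 1
    have e : (R * x.1 - 0) ^ 2 + (R * x.2 - 0) ^ 2 = R ^ 2 * (x.1 ^ 2 + x.2 ^ 2) := by ring
    rw [e]
    constructor
    · intro h1
      have h2 : R ^ 2 * (x.1 ^ 2 + x.2 ^ 2) < R ^ 2 * 1 := by linarith
      exact lt_of_mul_lt_mul_left h2 (by positivity)
    · intro h1
      have h2 := mul_lt_mul_of_pos_left h1 (by positivity : (0 : ℝ) < R ^ 2)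
      linarith
  rw [← h]
  exact image_pre hR _

theorem vol_pre {R : ℝ} (hR : 0 < R) (Om : Set (ℝ × ℝ))
    (hv : volume Om = ENNReal.ofReal (Real.pi * R ^ 2)) :
    volume ((fun x : ℝ × ℝ => R • x) ⁻¹' Om) = ENNReal.ofReal Real.pi := by
  rw [Measure.addHaar_preimage_smul volume hR.ne' Om, hv, ← ENNReal.ofReal_mul (abs_nonneg _)]
  congr 1
  have h2 : Module.finrank ℝ (ℝ × ℝ) = 2 := by simp
  rw [h2, abs_of_pos (by positivity)]
  field_simp

end IGR

theorem pr_GR (h1 : StGE) (h2 : StVO) : StGR := by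
  intro B R κ ε W Om hB hR hκ hε hO hv hWd hSt hW hBk
  have hR2 : (0 : ℝ) < R ^ 2 := by positivity
  have hv' : volume Om = ENNReal.ofReal (Real.pi * R ^ 2) := by
    rw [hv, h2 (0, 0) R hR]
  set Om' : Set (ℝ × ℝ) := (fun x : ℝ × ℝ => R • x) ⁻¹' Om with hOm'
  have hO' : IsOpen Om' := hO.preimage (by fun_prop)
  have hvol : volume Om' = ENNReal.ofReal Real.pi := IGR.vol_pre hR Om hv'
  have hWd' : Wd κ (ε / R) Om' := by
    refine ⟨fun x hx => ?_, fun x hx t ht0 ht1 hte => ?_⟩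
    · obtain ⟨h3, h4⟩ := hWd.wedge _ (show R • x ∈ Om from hx)
      have h5 : 0 < R * x.1 := h3
      have h6 : |R * x.2| < κ * (R * x.1) := h4
      rw [abs_mul, abs_of_pos hR] at h6
      refine ⟨pos_of_mul_pos_right h5 hR.le, ?_⟩
      have h7 : R * |x.2| < R * (κ * x.1) := by
        calc R * |x.2| < κ * (R * x.1) := h6
          _ = R * (κ * x.1) := by ring
      exact lt_of_mul_lt_mul_left h7 hR.le
    · have h3 : ε < t * (R * x.1) := by
        rw [div_lt_iff₀ hR] at hte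
        calc ε < t * x.1 * R := hte
          _ = t * (R * x.1) := by ring
      have h4 := hWd.star _ (show R • x ∈ Om from hx) t ht0 ht1 h3
      have h5 : (t * (R • x).1, t * (R • x).2) = R • ((t * x.1, t * x.2) : ℝ × ℝ) := by
        ext
        · show t * (R * x.1) = R * (t * x.1)
          ring
        · show t * (R * x.2) = R * (t * x.2)
          ring
      show R • ((t * x.1, t * x.2) : ℝ × ℝ) ∈ Om
      rw [← h5]
      exact h4
  have hSt' : Strip (W / R) Om' := by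
    obtain ⟨a, d, c, had, h3⟩ := hSt
    refine ⟨a, d, c / R, had, fun x hx => ?_⟩
    have h4 := h3 _ (show R • x ∈ Om from hx)
    have h5 : |a * (R * x.1) + d * (R * x.2) - c| ≤ W := h4
    have h6 : a * x.1 + d * x.2 - c / R = (a * (R * x.1) + d * (R * x.2) - c) / R := by
      field_simp
    rw [h6, abs_div, abs_of_pos hR]
    exact div_le_div_of_nonneg_right h5 hR.le
  have hW' : (W / R) ^ 2 < 1 / 9 := by
    rw [div_pow, div_lt_iff₀ hR2, ← sq_abs W]
    have h3 : (3 * |W|) ^ 2 < R ^ 2 := by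
      apply pow_lt_pow_left₀ hW (by positivity) (by norm_num)
    have h4 : (3 * |W|) ^ 2 = 9 * |W| ^ 2 := by ring
    rw [h4] at h3
    linarith
  have hBk' : 2 * κ + 2 * κ ^ 2 * (ε / R) ^ 2 * (B * R ^ 2) ≤ 1 / 16 := by
    have e : 2 * κ + 2 * κ ^ 2 * (ε / R) ^ 2 * (B * R ^ 2) = 2 * κ + 2 * κ ^ 2 * ε ^ 2 * B := by
      field_simp
    rw [e]
    exact hBk
  have key := h1 (B * R ^ 2) κ (ε / R) (W / R) Om' (by positivity) hκ (by positivity) hO' hvol hWd'
    hSt' hW' hBk'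
  have hdo : IsOpen disc := by
    have : disc = {x : ℝ × ℝ | x.1 ^ 2 + x.2 ^ 2 < 1} := rfl
    rw [this]
    exact isOpen_lt (by fun_prop) continuous_const
  have e1 := sc B R (0, 0) Om' hR hO'
  have e2 := sc B R (0, 0) disc hR hdo
  rw [IGR.image_pre hR Om] at e1
  rw [IGR.image_disc hR] at e2
  rw [e1, e2]
  exact mul_lt_mul_of_pos_left key (by positivity)

end Pool.Agent.MFK.TC
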