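import Mathlib
import Pool.Agent.Work.MP_8826fd_mp.TC.Stmts

/-!
[8826fd TC MA] The one dimensional moment inequality.
-/

set_option autoImplicit false

namespace Pool.Agent.MFK.TC

open MeasureTheory Set Filter Topology Pool.Agent.MFK

namespace IMA

/-- The primitive. -/
noncomputable def G (b ε x : ℝ) : ℝ := -((x ^ 2 - ε ^ 2) * Real.exp (-(2 * b * x ^ 2)) / (4 * b))

/-- The integrand. -/
noncomputable def f (b ε x : ℝ) : ℝ :=
  (x ^ 2 - ε ^ 2 - 1 / (2 * b)) * Real.exp (-(2 * b * x ^ 2)) * x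

theorem hasDerivAt_G (b ε x : ℝ) (hb : 0 < b) : HasDerivAt (G b ε) (f b ε x) x := by
  unfold G f
  have h1 : HasDerivAt (fun y : ℝ => y ^ 2 - ε ^ 2) (2 * x) x := by
    have := (hasDerivAt_pow 2 x).sub_const (ε ^ 2)
    simpa using this
  have h2 : HasDerivAt (fun y : ℝ => -(2 * b * y ^ 2)) (-(4 * b * x)) x := by
    have := ((hasDerivAt_pow 2 x).const_mul (2 * b)).neg
    refine this.congr_deriv ?_
    simp
    ring
  have h3 := h2.exp
  have h4 := ((h1.mul h3).div_const (4 * b)).neg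
  refine h4.congr_deriv ?_
  field_simp
  ring

theorem cont_f (b ε : ℝ) : Continuous (f b ε) := by
  unfold f
  fun_prop

theorem G_self (b ε : ℝ) : G b ε ε = 0 := by
  unfold G
  simp

theorem G_nonpos (b ε x : ℝ) (hb : 0 < b) (he : 0 ≤ ε) (hx : ε ≤ x) : G b ε x ≤ 0 := by
  unfold G
  have h1 : 0 ≤ x ^ 2 - ε ^ 2 := by nlinarith
  have h2 : 0 ≤ (x ^ 2 - ε ^ 2) * Real.exp (-(2 * b * x ^ 2)) / (4 * b) := by positivity
  linarith

theorem G_tendsto (b ε : ℝ) (hb : 0 < b) : Tendsto (G b ε) atTop (𝓝 0) := by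
  have hy : Tendsto (fun x : ℝ => 2 * b * x ^ 2) atTop atTop :=
    (tendsto_pow_atTop (two_ne_zero)).const_mul_atTop (by positivity)
  have h1 : Tendsto (fun x : ℝ => (2 * b * x ^ 2) ^ 1 * Real.exp (-(2 * b * x ^ 2))) atTop (𝓝 0) :=
    (Real.tendsto_pow_mul_exp_neg_atTop_nhds_zero 1).comp hy
  have h2 : Tendsto (fun x : ℝ => (2 * b * x ^ 2) ^ 0 * Real.exp (-(2 * b * x ^ 2))) atTop (𝓝 0) :=
    (Real.tendsto_pow_mul_exp_neg_atTop_nhds_zero 0).comp hy
  have h3 := (h1.const_mul (-(1 / (8 * b ^ 2)))).add (h2.const_mul (ε ^ 2 / (4 * b)))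
  rw [mul_zero, mul_zero, add_zero] at h3
  refine h3.congr ?_
  intro x
  unfold G
  field_simp
  ring

end IMA

theorem pr_MA : StMA := by
  intro b ε S hb he hS hpos hdown
  change ∫ x in S, IMA.f b ε x ≤ 0
  by_cases hI : IntegrableOn (IMA.f b ε) S
  · rw [← integral_inter_add_sdiff (measurableSet_Iic (a := ε)) hI]
    have h1 : ∫ x in S ∩ Iic ε, IMA.f b ε x ≤ 0 := by
      apply setIntegral_nonpos (hS.inter measurableSet_Iic)
      rintro x ⟨hx, hx2⟩
      have hx0 : 0 < x := hpos hx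
      have hx3 : x ≤ ε := hx2
      unfold IMA.f
      have e1 : x ^ 2 - ε ^ 2 - 1 / (2 * b) ≤ 0 := by
        have : 0 < 1 / (2 * b) := by positivity
        nlinarith
      have e2 : 0 ≤ Real.exp (-(2 * b * x ^ 2)) * x := by positivity
      rw [mul_assoc]
      exact mul_nonpos_of_nonpos_of_nonneg e1 e2
    have h2 : ∫ x in S \ Iic ε, IMA.f b ε x ≤ 0 := by
      obtain ⟨T, hT⟩ : ∃ T : Set ℝ, T = S \ Iic ε := ⟨_, rfl⟩
      rw [← hT]
      have hTI : IntegrableOn (IMA.f b ε) T := by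
        rw [hT]
        exact hI.mono_set sdiff_subset
      have hTe : T ⊆ Ioi ε := by
        rw [hT]
        rintro x ⟨_, hx⟩
        simpa using hx
      have hTd : ∀ s ∈ T, ∀ t : ℝ, ε < t → t < s → t ∈ T := by
        rw [hT]
        rintro s ⟨hs, _⟩ t ht hts
        exact ⟨hdown s hs t ht hts, by simpa using ht⟩
      rcases T.eq_empty_or_nonempty with h0 | hne
      · rw [h0]
        simp
      by_cases hbd : BddAbove T
      · have hX : ε < sSup T := by
          obtain ⟨s, hs⟩ := hne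
          exact lt_of_lt_of_le (hTe hs) (le_csSup hbd hs)
        have hsub1 : T ⊆ Ioc ε (sSup T) := fun s hs => ⟨hTe hs, le_csSup hbd hs⟩
        have hsub2 : Ioo ε (sSup T) ⊆ T := by
          rintro t ⟨ht1, ht2⟩
          obtain ⟨s, hs, hts⟩ := exists_lt_of_lt_csSup hne ht2
          exact hTd s hs t ht1 hts
        have hae : T =ᵐ[volume] Ioc ε (sSup T) := by
          apply Filter.EventuallyLE.antisymm
          · exact hsub1.eventuallyLE
          · exact (Ioo_ae_eq_Ioc).symm.le.trans hsub2.eventuallyLE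
        rw [setIntegral_congr_set hae, ← intervalIntegral.integral_of_le hX.le,
          intervalIntegral.integral_eq_sub_of_hasDerivAt (fun x _ => IMA.hasDerivAt_G b ε x hb)
            ((IMA.cont_f b ε).intervalIntegrable _ _), IMA.G_self]
        have := IMA.G_nonpos b ε (sSup T) hb he hX.le
        linarith
      · have hTeq : T = Ioi ε := by
          apply Subset.antisymm hTe
          intro t ht
          obtain ⟨s, hs, hts⟩ := not_bddAbove_iff.1 hbd t
          exact hTd s hs t ht hts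
        rw [hTeq] at hTI ⊢
        have := integral_Ioi_of_hasDerivAt_of_tendsto' (f := IMA.G b ε) (f' := IMA.f b ε) (a := ε)
          (m := 0) (fun x _ => IMA.hasDerivAt_G b ε x hb) hTI (IMA.G_tendsto b ε hb)
        rw [this, IMA.G_self]
        simp
    linarith
  · rw [integral_undef hI]

end Pool.Agent.MFK.TC
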