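import Mathlib
import Pool.Agent.Work.MP_8826fd_mp.TC.Stmts

/-!
[8826fd TC] Item MB: the mean value inequality on a set which is star-shaped towards the tip (Fubini).
-/

set_option autoImplicit false

namespace Pool.Agent.MFK.TC

open MeasureTheory Set Filter Topology Pool.Agent.MFK

namespace IMB

/-- The one dimensional integrand. -/
noncomputable def f (b ε : ℝ) (x : ℝ) : ℝ :=
  (x ^ 2 - ε ^ 2 - 1 / (2 * b)) * Real.exp (-(2 * b * x ^ 2))

theorem cont_f (b ε : ℝ) : Continuous (f b ε) := by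
  unfold f
  fun_prop

theorem int_xf (b ε : ℝ) (hb : 0 < b) : Integrable (fun x : ℝ => f b ε x * x) := by
  have h1 : Integrable (fun x : ℝ => x ^ (3 : ℝ) * Real.exp (-(2 * b) * x ^ 2)) :=
    integrable_rpow_mul_exp_neg_mul_sq (by positivity) (by norm_num)
  have h2 : Integrable (fun x : ℝ => x * Real.exp (-(2 * b) * x ^ 2)) :=
    integrable_mul_exp_neg_mul_sq (by positivity)
  refine (h1.sub (h2.const_mul (ε ^ 2 + 1 / (2 * b)))).congr (Eventually.of_forall fun x => ?_)
  simp only [f, Pi.sub_apply]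
  rw [show (3 : ℝ) = ((3 : ℕ) : ℝ) by norm_num, Real.rpow_natCast,
    show -(2 * b * x ^ 2) = -(2 * b) * x ^ 2 by ring]
  ring

/-- The transformed integrand, `(x, s)` for the point `(x, s x)`. -/
noncomputable def h (b ε : ℝ) (Ω : Set (ℝ × ℝ)) (x s : ℝ) : ℝ :=
  {x : ℝ | 0 < x ∧ (x, s * x) ∈ Ω}.indicator (fun x => f b ε x * x) x

theorem inner (b ε κ : ℝ) (Ω : Set (ℝ × ℝ)) (hW : Wd κ ε Ω) (x : ℝ) :
    ∫ y, Ω.indicator (fun x : ℝ × ℝ => f b ε x.1) (x, y) = ∫ s, h b ε Ω x s := by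
  by_cases hx : 0 < x
  · have h1 := Measure.integral_comp_mul_right
      (fun y => Ω.indicator (fun x : ℝ × ℝ => f b ε x.1) (x, y)) x
    rw [abs_of_pos (inv_pos.2 hx), smul_eq_mul] at h1
    have h2 : ∫ y, Ω.indicator (fun x : ℝ × ℝ => f b ε x.1) (x, y) =
        (∫ s, Ω.indicator (fun x : ℝ × ℝ => f b ε x.1) (x, s * x)) * x := by
      rw [h1]
      field_simp
    rw [h2, ← integral_mul_const]
    refine integral_congr_ae (Eventually.of_forall fun s => ?_)
    simp only [h]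
    by_cases hs : (x, s * x) ∈ Ω
    · rw [indicator_of_mem hs, indicator_of_mem (show x ∈ {x : ℝ | 0 < x ∧ (x, s * x) ∈ Ω} from
        ⟨hx, hs⟩)]
    · rw [indicator_of_notMem hs, indicator_of_notMem
        (show x ∉ {x : ℝ | 0 < x ∧ (x, s * x) ∈ Ω} from fun h => hs h.2), zero_mul]
  · have h1 : ∀ y, Ω.indicator (fun x : ℝ × ℝ => f b ε x.1) (x, y) = 0 := fun y =>
      indicator_of_notMem (fun h => hx (hW.wedge _ h).1) _
    have h2 : ∀ s, h b ε Ω x s = 0 := fun s =>
      indicator_of_notMem (fun h => hx h.1) _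
    simp only [h1, h2]

theorem int_h (b ε κ : ℝ) (Ω : Set (ℝ × ℝ)) (hb : 0 < b) (hO : IsOpen Ω) (hW : Wd κ ε Ω) :
    Integrable (Function.uncurry (h b ε Ω)) ((volume : Measure ℝ).prod volume) := by
  have hs : MeasurableSet {p : ℝ × ℝ | 0 < p.1 ∧ (p.1, p.2 * p.1) ∈ Ω} := by
    apply IsOpen.measurableSet
    exact (isOpen_lt continuous_const continuous_fst).inter
      (hO.preimage (by fun_prop : Continuous fun p : ℝ × ℝ => (p.1, p.2 * p.1)))
  have hu : Function.uncurry (h b ε Ω) = {p : ℝ × ℝ | 0 < p.1 ∧ (p.1, p.2 * p.1) ∈ Ω}.indicator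
      (fun p : ℝ × ℝ => f b ε p.1 * p.1) := by
    funext p
    rcases p with ⟨x, s⟩
    rfl
  have hi : Integrable (fun s : ℝ => (Ioo (-κ) κ).indicator (fun _ => (1 : ℝ)) s) :=
    (integrable_indicator_iff measurableSet_Ioo).2 (integrableOn_const (by simp))
  have hp := (int_xf b ε hb).mul_prod hi
  refine hp.mono ?_ ?_
  · rw [hu]
    have hc : Continuous (fun p : ℝ × ℝ => f b ε p.1 * p.1) :=
      ((cont_f b ε).comp continuous_fst).mul continuous_fst
    exact (hc.stronglyMeasurable.indicator hs).aestronglyMeasurable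
  · refine Eventually.of_forall fun p => ?_
    rw [hu]
    by_cases hpm : p ∈ {p : ℝ × ℝ | 0 < p.1 ∧ (p.1, p.2 * p.1) ∈ Ω}
    · rw [indicator_of_mem hpm]
      have h1 := (hW.wedge _ hpm.2).2
      simp only [abs_mul, abs_of_pos hpm.1] at h1
      have h2 : |p.2| < κ := lt_of_mul_lt_mul_right h1 hpm.1.le
      rw [abs_lt] at h2
      rw [indicator_of_mem (show p.2 ∈ Ioo (-κ) κ from h2), mul_one]
    · rw [indicator_of_notMem hpm, norm_zero]
      exact norm_nonneg _

end IMB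

/-- Item MB. -/
theorem pr_MB (h1 : StMA) : StMB := by
  intro b κ ε Ω hb hκ hε hO hW
  have h0 : (∫ x in Ω, (x.1 ^ 2 - ε ^ 2 - 1 / (2 * b)) * Real.exp (-(2 * b * x.1 ^ 2))) =
      ∫ x, Ω.indicator (fun x : ℝ × ℝ => IMB.f b ε x.1) x := by
    rw [integral_indicator hO.measurableSet]
    rfl
  rw [h0]
  by_cases hg : Integrable (Ω.indicator fun x : ℝ × ℝ => IMB.f b ε x.1)
  swap
  · rw [integral_undef hg]
  rw [Measure.volume_eq_prod] at hg ⊢
  rw [integral_prod _ hg]
  simp only [IMB.inner b ε κ Ω hW]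
  rw [integral_integral_swap (IMB.int_h b ε κ Ω hb hO hW)]
  refine integral_nonpos fun s => ?_
  simp only [IMB.h]
  have hS : MeasurableSet {x : ℝ | 0 < x ∧ (x, s * x) ∈ Ω} := by
    apply IsOpen.measurableSet
    exact (isOpen_lt continuous_const continuous_id).inter
      (hO.preimage (by fun_prop : Continuous fun x : ℝ => (x, s * x)))
  rw [integral_indicator hS]
  refine h1 b ε _ hb hε hS (fun x hx => hx.1) ?_
  intro x hx t ht1 ht2
  have ht : 0 < t := lt_of_le_of_lt hε ht1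
  have hx0 : 0 < x := hx.1
  have e1 : t / x * x = t := div_mul_cancel₀ t hx0.ne'
  have h2 := hW.star _ hx.2 (t / x) (div_pos ht hx0) ((div_lt_one hx0).2 ht2)
    (by show ε < t / x * x; rw [e1]; exact ht1)
  refine ⟨ht, ?_⟩
  have e2 : t / x * (s * x) = s * t := by
    field_simp
  have h3 : (t / x * x, t / x * (s * x)) ∈ Ω := h2
  rw [e1, e2] at h3
  exact h3

end Pool.Agent.MFK.TC
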