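import Mathlib
import Pool.Agent.Work.MP_8826fd_mp.TC.StmtsP
import Pool.Agent.Work.MP_8826fd_mp.Sc

/-! [8826fd TC] Item PI: rigid motions preserve the lowest magnetic Neumann eigenvalue. -/

set_option autoImplicit false

namespace Pool.Agent.MFK.TC

open MeasureTheory Set Filter Topology Pool.Agent.MFK

namespace IPI

/-- The inverse map. -/
def iv (p : ℝ × ℝ) (a d : ℝ) (y : ℝ × ℝ) : ℝ × ℝ :=
  (p.1 + a * y.1 - d * y.2, p.2 + d * y.1 + a * y.2)

theorem iv_cont (p : ℝ × ℝ) (a d : ℝ) : Continuous (iv p a d) := by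
  unfold iv
  fun_prop

theorem mv_emb (h2 : StPV) (p : ℝ × ℝ) (a d : ℝ) (had : a ^ 2 + d ^ 2 = 1) :
    MeasurableEmbedding (mv p a d) := by
  obtain ⟨c1, c2, c3, -⟩ := h2 p a d had
  let e : (ℝ × ℝ) ≃ₜ (ℝ × ℝ) :=
    { toFun := mv p a d
      invFun := iv p a d
      left_inv := c3
      right_inv := c2
      continuous_toFun := c1
      continuous_invFun := iv_cont p a d }
  exact e.measurableEmbedding

theorem mv_smooth (p : ℝ × ℝ) (a d : ℝ) : ContDiff ℝ 1 (mv p a d) := by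
  unfold mv
  fun_prop

theorem step (h1 : StRI) (h2 : StPV) (B a d : ℝ) (Ω : Set (ℝ × ℝ)) (had : a ^ 2 + d ^ 2 = 1)
    (hO : IsOpen Ω) (q : ℝ) (hq : q ∈ Sc.S B Ω) : q ∈ Sc.S B (mv (0, 0) a d ⁻¹' Ω) := by
  obtain ⟨c1, -, -, c4⟩ := h2 (0, 0) a d had
  have hemb := mv_emb h2 (0, 0) a d had
  obtain ⟨u, hu1, hu2, hu3, hu4, rfl⟩ := hq
  have hO' : IsOpen (mv (0, 0) a d ⁻¹' Ω) := hO.preimage c1
  have hd : ∀ y ∈ Ω, DifferentiableAt ℝ u y := fun y hy =>
    (hu1.differentiableOn one_ne_zero).differentiableAt (hO.mem_nhds hy)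
  have he : EqOn (fun x => eden B (fun y => u (mv (0, 0) a d y)) x)
      (fun x => eden B u (mv (0, 0) a d x)) (mv (0, 0) a d ⁻¹' Ω) := by
    intro x hx
    exact h1 B a d u x had (hd _ hx)
  refine ⟨fun y => u (mv (0, 0) a d y), ?_, ?_, ?_, ?_, ?_⟩
  · exact hu1.comp (mv_smooth (0, 0) a d).contDiffOn (fun x hx => hx)
  · exact (c4.integrableOn_comp_preimage hemb).2 hu2
  · rw [integrableOn_congr_fun he hO'.measurableSet]
    exact (c4.integrableOn_comp_preimage hemb).2 hu3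
  · rw [← hu4]
    exact c4.setIntegral_preimage_emb hemb (fun y => ‖u y‖ ^ 2) Ω
  · rw [setIntegral_congr_fun hO'.measurableSet he]
    exact (c4.setIntegral_preimage_emb hemb (fun y => eden B u y) Ω).symm

theorem mv_neg (a d : ℝ) (had : a ^ 2 + d ^ 2 = 1) (x : ℝ × ℝ) :
    mv (0, 0) a d (mv (0, 0) a (-d) x) = x := by
  unfold mv
  refine Prod.ext ?_ ?_
  · simp only [sub_zero]
    linear_combination x.1 * had
  · simp only [sub_zero]
    linear_combination x.2 * had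

theorem rot (h1 : StRI) (h2 : StPV) (B a d : ℝ) (Ω : Set (ℝ × ℝ)) (had : a ^ 2 + d ^ 2 = 1)
    (hO : IsOpen Ω) : lamN B (mv (0, 0) a d ⁻¹' Ω) = lamN B Ω := by
  have had' : a ^ 2 + (-d) ^ 2 = 1 := by rw [neg_sq]; exact had
  have hO' : IsOpen (mv (0, 0) a d ⁻¹' Ω) := hO.preimage (h2 (0, 0) a d had).1
  have hpre : mv (0, 0) a (-d) ⁻¹' (mv (0, 0) a d ⁻¹' Ω) = Ω := by
    ext x
    rw [mem_preimage, mem_preimage, mv_neg a d had]
  have h : Sc.S B (mv (0, 0) a d ⁻¹' Ω) = Sc.S B Ω := by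
    ext q
    constructor
    · intro hq
      have h3 := step h1 h2 B a (-d) (mv (0, 0) a d ⁻¹' Ω) had' hO' q hq
      rw [hpre] at h3
      exact h3
    · exact step h1 h2 B a d Ω had hO q
  show sInf (Sc.S B (mv (0, 0) a d ⁻¹' Ω)) = sInf (Sc.S B Ω)
  rw [h]

end IPI

theorem pr_PI (h1 : StRI) (h2 : StPV) : StPI := by
  intro B p a d Ω had hO
  have hO' : IsOpen (mv (0, 0) a d ⁻¹' Ω) := hO.preimage (h2 (0, 0) a d had).1
  have him : mv p a d ⁻¹' Ω = (fun x : ℝ × ℝ => p + (1 : ℝ) • x) '' (mv (0, 0) a d ⁻¹' Ω) := by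
    have hkey : ∀ y : ℝ × ℝ, mv p a d (p + (1 : ℝ) • y) = mv (0, 0) a d y := by
      intro y
      unfold mv
      simp
    ext x
    constructor
    · intro hx
      refine ⟨x - p, ?_, ?_⟩
      · rw [mem_preimage, ← hkey, one_smul, add_sub_cancel]
        exact hx
      · show p + (1 : ℝ) • (x - p) = x
        rw [one_smul, add_sub_cancel]
    · rintro ⟨y, hy, rfl⟩
      rw [mem_preimage]
      show mv p a d (p + (1 : ℝ) • y) ∈ Ω
      rw [hkey]
      exact hy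
  rw [him, sc B 1 p _ one_pos hO', ← IPI.rot h1 h2 B a d Ω had hO]
  simp

end Pool.Agent.MFK.TC
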