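import Mathlib
import Pool.Agent.Work.MP_8826fd_mp.TC.StmtsP

/-! Item PV of the block [8826fd TC]: the rigid motion `mv p a d` is a homeomorphism and preserves the measure. -/

set_option autoImplicit false

namespace Pool.Agent.MFK.TC

open MeasureTheory Set Filter Topology Pool.Agent.MFK

namespace IPV

/-- The linear part of the motion. -/
noncomputable def lin (a d : ℝ) : (ℝ × ℝ) →ₗ[ℝ] (ℝ × ℝ) :=
  Matrix.toLin (Module.Basis.finTwoProd ℝ) (Module.Basis.finTwoProd ℝ) !![a, d; -d, a]

theorem lin_apply (a d : ℝ) (x : ℝ × ℝ) : lin a d x = (a * x.1 + d * x.2, -d * x.1 + a * x.2) := by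
  unfold lin
  rw [Matrix.toLin_finTwoProd_apply]

theorem det_lin (a d : ℝ) (h : a ^ 2 + d ^ 2 = 1) : LinearMap.det (lin a d) = 1 := by
  unfold lin
  rw [LinearMap.det_toLin, Matrix.det_fin_two_of]
  linarith

theorem mp_lin (a d : ℝ) (h : a ^ 2 + d ^ 2 = 1) :
    MeasurePreserving (lin a d) volume volume := by
  refine ⟨(lin a d).continuous_of_finiteDimensional.measurable, ?_⟩
  rw [Measure.map_linearMap_addHaar_eq_smul_addHaar volume (by rw [det_lin a d h]; exact one_ne_zero), det_lin a d h]
  simp

end IPV

theorem pr_PV : StPV := by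
  intro p a d h
  refine ⟨?_, ?_, ?_, ?_⟩
  · unfold mv
    fun_prop
  · intro y
    unfold mv
    ext
    · simp only
      linear_combination y.1 * h
    · simp only
      linear_combination y.2 * h
  · intro x
    unfold mv
    ext
    · simp only
      linear_combination (x.1 - p.1) * h
    · simp only
      linear_combination (x.2 - p.2) * h
  · have h1 : MeasurePreserving (fun x : ℝ × ℝ => x - p) volume volume :=
      measurePreserving_sub_right volume p
    have h2 := (IPV.mp_lin a d h).comp h1
    convert h2 using 1
    funext x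
    simp only [Function.comp_apply, IPV.lin_apply, mv, Prod.fst_sub, Prod.snd_sub]
    ext
    · rfl
    · simp only
      ring

end Pool.Agent.MFK.TC
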