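import Mathlib
import Pool.Agent.Work.MP_8826fd_mp.TC.StmtsP

/-!
[8826fd TC] Item RI: the energy density is invariant under rotations.
-/

set_option autoImplicit false

namespace Pool.Agent.MFK.TC

open MeasureTheory Set Filter Topology Pool.Agent.MFK

namespace IRI

/-- The linear part of `mv`. -/
noncomputable def lin (a d : ℝ) : ℝ × ℝ →L[ℝ] ℝ × ℝ :=
  (a • ContinuousLinearMap.fst ℝ ℝ ℝ + d • ContinuousLinearMap.snd ℝ ℝ ℝ).prod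
    (-(d • ContinuousLinearMap.fst ℝ ℝ ℝ) + a • ContinuousLinearMap.snd ℝ ℝ ℝ)

theorem lin_apply (a d : ℝ) (w : ℝ × ℝ) :
    lin a d w = (a * w.1 + d * w.2, -(d * w.1) + a * w.2) := rfl

theorem mv_eq (a d : ℝ) : mv (0, 0) a d = lin a d := by
  funext x
  rw [lin_apply]
  unfold mv
  simp only [sub_zero]

theorem rot (a d : ℝ) (had : a ^ 2 + d ^ 2 = 1) (P Q : ℂ) :
    ‖(a : ℂ) * P - (d : ℂ) * Q‖ ^ 2 + ‖(d : ℂ) * P + (a : ℂ) * Q‖ ^ 2 = ‖P‖ ^ 2 + ‖Q‖ ^ 2 := by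
  simp only [Complex.sq_norm, Complex.normSq_apply, Complex.sub_re, Complex.sub_im, Complex.add_re,
    Complex.add_im, Complex.mul_re, Complex.mul_im, Complex.ofReal_re, Complex.ofReal_im]
  linear_combination (P.re ^ 2 + P.im ^ 2 + Q.re ^ 2 + Q.im ^ 2) * had

end IRI

theorem pr_RI : StRI := by
  intro B a d u x had hu
  obtain ⟨y, hy⟩ : ∃ y, y = mv (0, 0) a d x := ⟨_, rfl⟩
  have hy1 : y.1 = a * x.1 + d * x.2 := by rw [hy, IRI.mv_eq, IRI.lin_apply]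
  have hy2 : y.2 = -(d * x.1) + a * x.2 := by rw [hy, IRI.mv_eq, IRI.lin_apply]
  have hx1 : x.1 = a * y.1 - d * y.2 := by
    rw [hy1, hy2]
    linear_combination (-x.1) * had
  have hx2 : x.2 = d * y.1 + a * y.2 := by
    rw [hy1, hy2]
    linear_combination (-x.2) * had
  have hd : HasFDerivAt (mv (0, 0) a d) (IRI.lin a d) x := by
    rw [IRI.mv_eq]
    exact (IRI.lin a d).hasFDerivAt
  have hcomp : HasFDerivAt (fun z => u (mv (0, 0) a d z))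
      ((fderiv ℝ u (mv (0, 0) a d x)).comp (IRI.lin a d)) x := hu.hasFDerivAt.comp x hd
  have e1 : fderiv ℝ (fun z => u (mv (0, 0) a d z)) x ((1 : ℝ), (0 : ℝ)) =
      (a : ℂ) * fderiv ℝ u y ((1 : ℝ), (0 : ℝ)) - (d : ℂ) * fderiv ℝ u y ((0 : ℝ), (1 : ℝ)) := by
    rw [hcomp.fderiv, ContinuousLinearMap.comp_apply, IRI.lin_apply, ← hy]
    have h1 : (a * (1 : ℝ) + d * (0 : ℝ), -(d * (1 : ℝ)) + a * (0 : ℝ)) =
        a • ((1 : ℝ), (0 : ℝ)) - d • ((0 : ℝ), (1 : ℝ)) := by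
      ext <;> simp
    change fderiv ℝ u y (a * (1 : ℝ) + d * (0 : ℝ), -(d * (1 : ℝ)) + a * (0 : ℝ)) = _
    rw [h1, map_sub, map_smul, map_smul, Complex.real_smul, Complex.real_smul]
  have e2 : fderiv ℝ (fun z => u (mv (0, 0) a d z)) x ((0 : ℝ), (1 : ℝ)) =
      (d : ℂ) * fderiv ℝ u y ((1 : ℝ), (0 : ℝ)) + (a : ℂ) * fderiv ℝ u y ((0 : ℝ), (1 : ℝ)) := by
    rw [hcomp.fderiv, ContinuousLinearMap.comp_apply, IRI.lin_apply, ← hy]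
    have h1 : (a * (0 : ℝ) + d * (1 : ℝ), -(d * (0 : ℝ)) + a * (1 : ℝ)) =
        d • ((1 : ℝ), (0 : ℝ)) + a • ((0 : ℝ), (1 : ℝ)) := by
      ext <;> simp
    change fderiv ℝ u y (a * (0 : ℝ) + d * (1 : ℝ), -(d * (0 : ℝ)) + a * (1 : ℝ)) = _
    rw [h1, map_add, map_smul, map_smul, Complex.real_smul, Complex.real_smul]
  unfold eden
  rw [e1, e2]
  change ‖(a : ℂ) * fderiv ℝ u y ((1 : ℝ), (0 : ℝ)) - (d : ℂ) * fderiv ℝ u y ((0 : ℝ), (1 : ℝ)) -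
      Complex.I * ((-(B * x.2 / 2) : ℝ) : ℂ) * u (mv (0, 0) a d x)‖ ^ 2 +
    ‖(d : ℂ) * fderiv ℝ u y ((1 : ℝ), (0 : ℝ)) + (a : ℂ) * fderiv ℝ u y ((0 : ℝ), (1 : ℝ)) -
      Complex.I * ((B * x.1 / 2 : ℝ) : ℂ) * u (mv (0, 0) a d x)‖ ^ 2 = _
  rw [← hy]
  generalize fderiv ℝ u y ((1 : ℝ), (0 : ℝ)) = v1
  generalize fderiv ℝ u y ((0 : ℝ), (1 : ℝ)) = v2
  generalize u y = c
  refine Eq.trans ?_ (IRI.rot a d had _ _)
  congr 3
  · rw [hx2]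
    push_cast
    ring
  · rw [hx1]
    push_cast
    ring

end Pool.Agent.MFK.TC
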