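import Mathlib
import Pool.Agent.Work.MP_8826fd_mp.TC.Stmts

set_option autoImplicit false

namespace Pool.Agent.MFK.TC

open MeasureTheory Set Filter Topology Pool.Agent.MFK

theorem pr_SU (h1 : StTR) (h2 : StEP) : StSU := by
  intro B W Ω hO hV hS
  obtain ⟨a, d, c, had, hst⟩ := hS
  obtain ⟨hC, hE⟩ := h2 B a d c had
  have hfin : volume Ω ≠ ⊤ := by
    rw [hV]
    exact ENNReal.ofReal_ne_top
  have hmeas : MeasurableSet Ω := hO.measurableSet
  have hreal : volume.real Ω = Real.pi := by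
    rw [Measure.real, hV, ENNReal.toReal_ofReal Real.pi_pos.le]
  have e1 : (fun x : ℝ × ℝ => ‖pf B a d c x‖ ^ 2) = fun _ => (1 : ℝ) := by
    funext x
    exact (hE x).1
  have e2 : (fun x : ℝ × ℝ => eden B (pf B a d c) x) =
      fun x => B ^ 2 * (a * x.1 + d * x.2 - c) ^ 2 := by
    funext x
    exact (hE x).2
  have hi1 : IntegrableOn (fun x : ℝ × ℝ => ‖pf B a d c x‖ ^ 2) Ω := by
    rw [e1]
    exact integrableOn_const hfin
  have hcont : Continuous fun x : ℝ × ℝ => B ^ 2 * (a * x.1 + d * x.2 - c) ^ 2 := by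
    fun_prop
  have hbd : ∀ x ∈ Ω, B ^ 2 * (a * x.1 + d * x.2 - c) ^ 2 ≤ B ^ 2 * W ^ 2 := by
    intro x hx
    apply mul_le_mul_of_nonneg_left _ (sq_nonneg B)
    have h := hst x hx
    rw [← sq_abs]
    exact pow_le_pow_left₀ (abs_nonneg _) h 2
  have hi2' : IntegrableOn (fun x : ℝ × ℝ => B ^ 2 * (a * x.1 + d * x.2 - c) ^ 2) Ω := by
    apply Measure.integrableOn_of_bounded (M := B ^ 2 * W ^ 2) hfin
      hcont.aestronglyMeasurable
    filter_upwards [ae_restrict_mem hmeas] with x hx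
    rw [Real.norm_of_nonneg (by positivity)]
    exact hbd x hx
  have hi2 : IntegrableOn (fun x : ℝ × ℝ => eden B (pf B a d c) x) Ω := by
    rw [e2]
    exact hi2'
  have hint1 : (∫ x in Ω, ‖pf B a d c x‖ ^ 2) = Real.pi := by
    rw [e1, setIntegral_const, hreal, smul_eq_mul, mul_one]
  have hint2 : (∫ x in Ω, eden B (pf B a d c) x) ≤ Real.pi * (B ^ 2 * W ^ 2) := by
    rw [e2]
    calc (∫ x in Ω, B ^ 2 * (a * x.1 + d * x.2 - c) ^ 2)
        ≤ ∫ _x in Ω, B ^ 2 * W ^ 2 :=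
          setIntegral_mono_on hi2' (integrableOn_const hfin) hmeas hbd
      _ = Real.pi * (B ^ 2 * W ^ 2) := by
          rw [setIntegral_const, hreal, smul_eq_mul]
  have h3 := h1 B Ω (pf B a d c) hO hC.contDiffOn hi1 hi2 (by rw [hint1]; exact Real.pi_pos)
  rw [hint1] at h3
  refine h3.trans ?_
  rw [div_le_iff₀ Real.pi_pos]
  linarith

end Pool.Agent.MFK.TC
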