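import Mathlib
import Pool.Agent.Work.MP_8826fd_mp.TC.Stmts

set_option autoImplicit false

namespace Pool.Agent.MFK.TC

open MeasureTheory Set Filter Topology Pool.Agent.MFK

namespace ITR

theorem eden_nonneg (B : ℝ) (u : ℝ × ℝ → ℂ) (x : ℝ × ℝ) : 0 ≤ eden B u x := by
  unfold eden; positivity

theorem eden_smul (B c : ℝ) (u : ℝ × ℝ → ℂ) (x : ℝ × ℝ) (h : DifferentiableAt ℝ u x) :
    eden B (fun y => (c : ℂ) * u y) x = c ^ 2 * eden B u x := by
  unfold eden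
  have h1 : fderiv ℝ (fun y => (c : ℂ) * u y) x = (c : ℂ) • fderiv ℝ u x :=
    fderiv_const_mul h (c : ℂ)
  rw [h1]
  simp only [_root_.smul_apply, smul_eq_mul]
  have e1 : (c : ℂ) * (fderiv ℝ u x) ((1 : ℝ), (0 : ℝ))
      - Complex.I * ((-(B * x.2 / 2) : ℝ) : ℂ) * ((c : ℂ) * u x)
      = (c : ℂ) * ((fderiv ℝ u x) ((1 : ℝ), (0 : ℝ))
        - Complex.I * ((-(B * x.2 / 2) : ℝ) : ℂ) * u x) := by ring
  have e2 : (c : ℂ) * (fderiv ℝ u x) ((0 : ℝ), (1 : ℝ))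
      - Complex.I * ((B * x.1 / 2 : ℝ) : ℂ) * ((c : ℂ) * u x)
      = (c : ℂ) * ((fderiv ℝ u x) ((0 : ℝ), (1 : ℝ))
        - Complex.I * ((B * x.1 / 2 : ℝ) : ℂ) * u x) := by ring
  rw [e1, e2, norm_mul, norm_mul, mul_pow, mul_pow]
  have h2 : ‖(c : ℂ)‖ ^ 2 = c ^ 2 := by
    rw [Complex.norm_real, Real.norm_eq_abs, sq_abs]
  rw [h2]; ring

end ITR

open ITR in
theorem pr_TR : StTR := by
  intro B Ω u hO hu h1 h2 hpos
  set N : ℝ := ∫ x in Ω, ‖u x‖ ^ 2 with hN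
  have hmeas : MeasurableSet Ω := hO.measurableSet
  set c : ℝ := (Real.sqrt N)⁻¹ with hc
  have hc2 : c ^ 2 = N⁻¹ := by
    rw [hc, inv_pow, Real.sq_sqrt hpos.le]
  have hdiff : ∀ x ∈ Ω, DifferentiableAt ℝ u x := fun x hx =>
    ((hu.differentiableOn (by norm_num)).differentiableAt (hO.mem_nhds hx))
  have hn : ∀ x, ‖(c : ℂ) * u x‖ ^ 2 = c ^ 2 * ‖u x‖ ^ 2 := by
    intro x
    rw [norm_mul, mul_pow, Complex.norm_real, Real.norm_eq_abs, sq_abs]
  have he : ∀ x ∈ Ω, eden B (fun y => (c : ℂ) * u y) x = c ^ 2 * eden B u x :=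
    fun x hx => eden_smul B c u x (hdiff x hx)
  unfold lamN
  apply csInf_le
  · refine ⟨0, ?_⟩
    rintro q ⟨w, _, _, _, _, rfl⟩
    exact integral_nonneg (fun x => eden_nonneg B w x)
  · refine ⟨fun y => (c : ℂ) * u y, contDiffOn_const.mul hu, ?_, ?_, ?_, ?_⟩
    · simp_rw [hn]
      exact h1.const_mul _
    · have h3 : IntegrableOn (fun x => c ^ 2 * eden B u x) Ω := h2.const_mul (c ^ 2)
      exact h3.congr_fun (fun x hx => (he x hx).symm) hmeas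
    · simp_rw [hn]
      rw [integral_const_mul, hc2]
      exact inv_mul_cancel₀ hpos.ne'
    · rw [setIntegral_congr_fun hmeas he, integral_const_mul, hc2, div_eq_inv_mul]

end Pool.Agent.MFK.TC
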