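import Mathlib
import Pool.Agent.Work.MP_8826fd_mp.TC.Stmts

/-!
[8826fd TC WE] The trial function `tu` in a wedge.
-/

set_option autoImplicit false

namespace Pool.Agent.MFK.TC

open MeasureTheory Set Filter Topology Pool.Agent.MFK

namespace IWE

/-- `t e^(-t) ≤ 1`. -/
theorem mul_exp_neg_le (t : ℝ) : t * Real.exp (-t) ≤ 1 := by
  have h1 : t ≤ Real.exp t := by linarith [Real.add_one_le_exp t]
  calc t * Real.exp (-t) ≤ Real.exp t * Real.exp (-t) :=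
        mul_le_mul_of_nonneg_right h1 (Real.exp_pos _).le
    _ = 1 := by rw [← Real.exp_add]; simp

theorem sq_exp_le (b x : ℝ) (hb : 0 < b) : x ^ 2 * Real.exp (-(2 * b * x ^ 2)) ≤ 1 / (2 * b) := by
  have h := mul_exp_neg_le (2 * b * x ^ 2)
  rw [le_div_iff₀ (by positivity)]
  calc x ^ 2 * Real.exp (-(2 * b * x ^ 2)) * (2 * b)
      = 2 * b * x ^ 2 * Real.exp (-(2 * b * x ^ 2)) := by ring
    _ ≤ 1 := h

end IWE

theorem pr_WE (h1 : StTR) (h2 : StED) (h3 : StMB) : StWE := by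
  intro B κ ε Ω hB hκ hε hΩ hvol hWd
  obtain ⟨b, hb⟩ : ∃ b : ℝ, b = κ * B / 2 := ⟨_, rfl⟩
  have hb0 : 0 < b := by rw [hb]; positivity
  obtain ⟨hu, hxx⟩ := h2 b B
  have hfin : volume Ω ≠ ⊤ := by rw [hvol]; exact ENNReal.ofReal_ne_top
  have hpos : 0 < volume Ω := by rw [hvol]; exact ENNReal.ofReal_pos.mpr Real.pi_pos
  have hw0 : ∀ x : ℝ × ℝ, 0 < Real.exp (-(2 * b * x.1 ^ 2)) := fun x => Real.exp_pos _
  have hcw : Continuous (fun x : ℝ × ℝ => Real.exp (-(2 * b * x.1 ^ 2))) := by fun_prop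
  have hcw2 : Continuous (fun x : ℝ × ℝ => x.1 ^ 2 * Real.exp (-(2 * b * x.1 ^ 2))) := by fun_prop
  have hce : Continuous (fun x : ℝ × ℝ =>
      (4 * b ^ 2 * x.1 ^ 2 + B ^ 2 * x.2 ^ 2) * Real.exp (-(2 * b * x.1 ^ 2))) := by fun_prop
  -- integrability
  have hiw : IntegrableOn (fun x : ℝ × ℝ => Real.exp (-(2 * b * x.1 ^ 2))) Ω := by
    refine Measure.integrableOn_of_bounded (M := 1) hfin hcw.aestronglyMeasurable ?_
    refine Filter.Eventually.of_forall fun x => ?_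
    rw [Real.norm_eq_abs, abs_of_pos (hw0 x)]
    exact Real.exp_le_one_iff.mpr (by have := sq_nonneg x.1; nlinarith)
  have hiw2 : IntegrableOn (fun x : ℝ × ℝ => x.1 ^ 2 * Real.exp (-(2 * b * x.1 ^ 2))) Ω := by
    refine Measure.integrableOn_of_bounded (M := 1 / (2 * b)) hfin hcw2.aestronglyMeasurable ?_
    refine Filter.Eventually.of_forall fun x => ?_
    rw [Real.norm_eq_abs, abs_of_nonneg (mul_nonneg (sq_nonneg _) (hw0 x).le)]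
    exact IWE.sq_exp_le b x.1 hb0
  have hle : ∀ x ∈ Ω, (4 * b ^ 2 * x.1 ^ 2 + B ^ 2 * x.2 ^ 2) * Real.exp (-(2 * b * x.1 ^ 2)) ≤
      2 * κ ^ 2 * B ^ 2 * (x.1 ^ 2 * Real.exp (-(2 * b * x.1 ^ 2))) := by
    intro x hx
    obtain ⟨hx1, hx2⟩ := hWd.wedge x hx
    have e1 : x.2 ^ 2 ≤ κ ^ 2 * x.1 ^ 2 := by
      have := sq_le_sq' (a := x.2) (b := κ * x.1) (by linarith [neg_abs_le x.2]) (by
        linarith [le_abs_self x.2])
      calc x.2 ^ 2 ≤ (κ * x.1) ^ 2 := this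
        _ = κ ^ 2 * x.1 ^ 2 := by ring
    have e2 : 4 * b ^ 2 * x.1 ^ 2 + B ^ 2 * x.2 ^ 2 ≤ 2 * κ ^ 2 * B ^ 2 * x.1 ^ 2 := by
      have e3 : B ^ 2 * x.2 ^ 2 ≤ B ^ 2 * (κ ^ 2 * x.1 ^ 2) :=
        mul_le_mul_of_nonneg_left e1 (sq_nonneg B)
      have e4 : 4 * b ^ 2 * x.1 ^ 2 = κ ^ 2 * B ^ 2 * x.1 ^ 2 := by rw [hb]; ring
      rw [e4]
      linarith
    calc (4 * b ^ 2 * x.1 ^ 2 + B ^ 2 * x.2 ^ 2) * Real.exp (-(2 * b * x.1 ^ 2))
        ≤ (2 * κ ^ 2 * B ^ 2 * x.1 ^ 2) * Real.exp (-(2 * b * x.1 ^ 2)) :=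
          mul_le_mul_of_nonneg_right e2 (hw0 x).le
      _ = 2 * κ ^ 2 * B ^ 2 * (x.1 ^ 2 * Real.exp (-(2 * b * x.1 ^ 2))) := by ring
  have hie : IntegrableOn (fun x : ℝ × ℝ =>
      (4 * b ^ 2 * x.1 ^ 2 + B ^ 2 * x.2 ^ 2) * Real.exp (-(2 * b * x.1 ^ 2))) Ω := by
    refine Measure.integrableOn_of_bounded (M := 2 * κ ^ 2 * B ^ 2 * (1 / (2 * b))) hfin
      hce.aestronglyMeasurable ?_
    rw [ae_restrict_iff' hΩ.measurableSet]
    refine Filter.Eventually.of_forall fun x hx => ?_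
    rw [Real.norm_eq_abs, abs_of_nonneg (mul_nonneg (by positivity) (hw0 x).le)]
    exact (hle x hx).trans (mul_le_mul_of_nonneg_left (IWE.sq_exp_le b x.1 hb0) (by positivity))
  have en : (fun x : ℝ × ℝ => ‖tu b B x‖ ^ 2) = fun x => Real.exp (-(2 * b * x.1 ^ 2)) :=
    funext fun x => (hxx x).1
  have ee : (fun x : ℝ × ℝ => eden B (tu b B) x) = fun x =>
      (4 * b ^ 2 * x.1 ^ 2 + B ^ 2 * x.2 ^ 2) * Real.exp (-(2 * b * x.1 ^ 2)) :=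
    funext fun x => (hxx x).2
  have hwpos : 0 < ∫ x in Ω, Real.exp (-(2 * b * x.1 ^ 2)) := by
    rw [setIntegral_pos_iff_support_of_nonneg_ae
      (Filter.Eventually.of_forall fun x => (hw0 x).le) hiw]
    have es : Function.support (fun x : ℝ × ℝ => Real.exp (-(2 * b * x.1 ^ 2))) = univ := by
      ext x; simp [Real.exp_ne_zero]
    rw [es, univ_inter]
    exact hpos
  have hTR := h1 B Ω (tu b B) hΩ hu.contDiffOn (by rw [en]; exact hiw) (by rw [ee]; exact hie)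
    (by rw [en]; exact hwpos)
  rw [en, ee] at hTR
  refine hTR.trans ?_
  rw [div_le_iff₀ hwpos]
  -- the moment inequality
  have hMB := h3 b κ ε Ω hb0 hκ hε hΩ hWd
  have eMB : (∫ x in Ω, (x.1 ^ 2 - ε ^ 2 - 1 / (2 * b)) * Real.exp (-(2 * b * x.1 ^ 2))) =
      (∫ x in Ω, x.1 ^ 2 * Real.exp (-(2 * b * x.1 ^ 2))) -
        (ε ^ 2 + 1 / (2 * b)) * ∫ x in Ω, Real.exp (-(2 * b * x.1 ^ 2)) := by
    rw [← integral_const_mul, ← integral_sub hiw2 (hiw.const_mul _)]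
    refine integral_congr_ae (Filter.Eventually.of_forall fun x => ?_)
    simp only
    ring
  rw [eMB] at hMB
  have hmono : (∫ x in Ω, (4 * b ^ 2 * x.1 ^ 2 + B ^ 2 * x.2 ^ 2) *
      Real.exp (-(2 * b * x.1 ^ 2))) ≤
      2 * κ ^ 2 * B ^ 2 * ∫ x in Ω, x.1 ^ 2 * Real.exp (-(2 * b * x.1 ^ 2)) := by
    rw [← integral_const_mul]
    exact setIntegral_mono_on hie (hiw2.const_mul _) hΩ.measurableSet hle
  have h2b : 1 / (2 * b) = 1 / (κ * B) := by rw [hb]; congr 1; ring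
  rw [h2b] at hMB
  calc (∫ x in Ω, (4 * b ^ 2 * x.1 ^ 2 + B ^ 2 * x.2 ^ 2) * Real.exp (-(2 * b * x.1 ^ 2)))
      ≤ 2 * κ ^ 2 * B ^ 2 * ∫ x in Ω, x.1 ^ 2 * Real.exp (-(2 * b * x.1 ^ 2)) := hmono
    _ ≤ 2 * κ ^ 2 * B ^ 2 * ((ε ^ 2 + 1 / (κ * B)) *
          ∫ x in Ω, Real.exp (-(2 * b * x.1 ^ 2))) :=
        mul_le_mul_of_nonneg_left (by linarith) (by positivity)
    _ = (2 * κ * B + 2 * κ ^ 2 * ε ^ 2 * B ^ 2) *
          ∫ x in Ω, Real.exp (-(2 * b * x.1 ^ 2)) := by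
        field_simp
        ring

end Pool.Agent.MFK.TC
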