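import Pool.Agent.Work.MP_8826fd_mp.TC.StmtsP
import Pool.Agent.Work.MP_8826fd_mp.TC.I_TR
import Pool.Agent.Work.MP_8826fd_mp.TC.I_ED
import Pool.Agent.Work.MP_8826fd_mp.TC.I_EPb
import Pool.Agent.Work.MP_8826fd_mp.TC.I_SU
import Pool.Agent.Work.MP_8826fd_mp.TC.I_MA
import Pool.Agent.Work.MP_8826fd_mp.TC.I_MB
import Pool.Agent.Work.MP_8826fd_mp.TC.I_WE
import Pool.Agent.Work.MP_8826fd_mp.TC.I_DA
import Pool.Agent.Work.MP_8826fd_mp.TC.I_DB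
import Pool.Agent.Work.MP_8826fd_mp.TC.I_DC
import Pool.Agent.Work.MP_8826fd_mp.TC.I_DD
import Pool.Agent.Work.MP_8826fd_mp.TC.I_DE
import Pool.Agent.Work.MP_8826fd_mp.TC.I_GE
import Pool.Agent.Work.MP_8826fd_mp.TC.I_CS
import Pool.Agent.Work.MP_8826fd_mp.TC.I_CQ
import Pool.Agent.Work.MP_8826fd_mp.TC.I_CT
import Pool.Agent.Work.MP_8826fd_mp.TC.I_CW
import Pool.Agent.Work.MP_8826fd_mp.TC.I_CF
import Pool.Agent.Work.MP_8826fd_mp.TC.I_VO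
import Pool.Agent.Work.MP_8826fd_mp.TC.I_GR
import Pool.Agent.Work.MP_8826fd_mp.TC.I_CO
import Pool.Agent.Work.MP_8826fd_mp.TC.I_EL
import Pool.Agent.Work.MP_8826fd_mp.TC.I_EV
import Pool.Agent.Work.MP_8826fd_mp.TC.I_EF
import Pool.Agent.Work.MP_8826fd_mp.TC.I_RI
import Pool.Agent.Work.MP_8826fd_mp.TC.I_PV
import Pool.Agent.Work.MP_8826fd_mp.TC.I_PI
import Pool.Agent.Work.MP_8826fd_mp.TC.I_CG
import Pool.Agent.Work.MP_8826fd_mp.TC.I_GG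
import Pool.Agent.Work.MP_8826fd_mp.TC.I_EG

/-!
[8826fd TC] Assembly: thin corners, all fields.
-/

set_option autoImplicit false

namespace Pool.Agent.MFK.TC

open MeasureTheory Set Filter Topology Pool.Agent.MFK

theorem hGE : StGE := pr_GE (pr_SU pr_TR pr_EPb) (pr_WE pr_TR pr_ED (pr_MB pr_MA))
  (pr_DE (pr_DB pr_DA) (pr_DC pr_DA) (pr_DD pr_DA))

theorem hGR : StGR := pr_GR hGE pr_VO

theorem hCO : StCO := pr_CO hGE pr_CS (pr_CF (pr_CW pr_CT) pr_CQ pr_CS) pr_VO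

theorem hEF : StEF := pr_EF hGE pr_EL (pr_EV pr_VO)

theorem hPI : StPI := pr_PI pr_RI pr_PV

theorem hCG : StCG := pr_CG hCO hPI pr_PV

theorem hGG : StGG := pr_GG hGR hPI pr_PV

theorem hEG : StEG := pr_EG hEF hPI

theorem wd_image (κ ε : ℝ) (Ω : Set (ℝ × ℝ)) (p : ℝ × ℝ) (a d : ℝ)
    (h1 : ∀ x ∈ Ω, 0 < (mv p a d x).1 ∧ |(mv p a d x).2| < κ * (mv p a d x).1)
    (h2 : ∀ x ∈ Ω, ∀ t : ℝ, 0 < t → t < 1 → ε < t * (mv p a d x).1 →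
      (p.1 + t * (x.1 - p.1), p.2 + t * (x.2 - p.2)) ∈ Ω) : Wd κ ε (mv p a d '' Ω) := by
  constructor
  · rintro _ ⟨x, hx, rfl⟩
    exact h1 x hx
  · rintro _ ⟨x, hx, rfl⟩ t ht0 ht1 ht
    refine ⟨_, h2 x hx t ht0 ht1 ht, ?_⟩
    simp only [mv]
    ext <;> simp only [] <;> ring

theorem hGGu (B R κ ε W a d a' d' c : ℝ) (Ω : Set (ℝ × ℝ)) (p : ℝ × ℝ) (hB : 0 < B) (hR : 0 < R)
    (hκ : 0 < κ) (hε : 0 ≤ ε) (hO : IsOpen Ω) (hv : volume Ω = volume (edisc (0, 0) R))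
    (had : a ^ 2 + d ^ 2 = 1) (had' : a' ^ 2 + d' ^ 2 = 1)
    (h1 : ∀ x ∈ Ω, 0 < (mv p a d x).1 ∧ |(mv p a d x).2| < κ * (mv p a d x).1)
    (h2 : ∀ x ∈ Ω, ∀ t : ℝ, 0 < t → t < 1 → ε < t * (mv p a d x).1 →
      (p.1 + t * (x.1 - p.1), p.2 + t * (x.2 - p.2)) ∈ Ω)
    (h3 : ∀ x ∈ Ω, |a' * x.1 + d' * x.2 - c| ≤ W) (hW : 3 * W < R)
    (h4 : 2 * κ + 2 * κ ^ 2 * ε ^ 2 * B ≤ 1 / 16) : lamN B Ω < lamN B (edisc (0, 0) R) := by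
  have hne : Ω.Nonempty := by
    by_contra h
    rw [Set.not_nonempty_iff_eq_empty] at h
    rw [h, measure_empty, pr_VO _ _ hR] at hv
    have h5 := ENNReal.ofReal_pos.2 (show 0 < Real.pi * R ^ 2 by positivity)
    rw [← hv] at h5
    exact lt_irrefl _ h5
  obtain ⟨x, hx⟩ := hne
  have hW0 : 0 ≤ W := (abs_nonneg _).trans (h3 x hx)
  refine hGG B R κ ε W Ω p a d hB hR hκ hε hO hv had (wd_image κ ε Ω p a d h1 h2)
    ⟨a', d', c, had', h3⟩ ?_ h4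
  rw [abs_of_nonneg hW0]
  exact hW

end Pool.Agent.MFK.TC
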