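import Pool.Agent.Work.MP_8826fd_mp.TC.StmtsP

/-!
[8826fd TC] Third part: NEEDLES. Any simply connected domain with a thin needle of length at least `C R`, for all fields:
small fields by the theorem `hFinD` of RT/All.lean (all simply connected domains, `B R² ≤ b`), large fields by a trial function in
the needle. Every docstring of an item is a complete proof.
-/

set_option autoImplicit false

namespace Pool.Agent.MFK.TC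

open MeasureTheory Set Filter Topology Pool.Agent.MFK

/-- The part of `Ω` in the wedge `|x₂| < κ x₁` with `x₁ < ρ`. -/
def Nd (κ ρ : ℝ) (Ω : Set (ℝ × ℝ)) : Set (ℝ × ℝ) := {x | x ∈ Ω ∧ 0 < x.1 ∧ x.1 < ρ ∧ |x.2| < κ * x.1}

/-- `Ω` has a needle of slope `κ` and length `r` with the tip `0`: the sides of the wedge are outside of `Ω` for `0 < x₁ < r`, and
the part of `Ω` in the wedge is nonempty and star-shaped towards the tip. -/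
structure Ndl (κ r : ℝ) (Ω : Set (ℝ × ℝ)) : Prop where
  zero : (0, 0) ∉ Ω
  side : ∀ x ∈ Ω, 0 < x.1 → x.1 < r → |x.2| ≠ κ * x.1
  ne : (Nd κ r Ω).Nonempty
  star : ∀ x ∈ Nd κ r Ω, ∀ t : ℝ, 0 < t → t < 1 → (t * x.1, t * x.2) ∈ Ω

/-- The trial function in the needle. -/
noncomputable def nu (κ ρ B : ℝ) (x : ℝ × ℝ) : ℂ :=
  open scoped Classical in
  if 0 < x.1 ∧ x.1 < ρ ∧ |x.2| < κ * x.1 then
    (((1 - x.1 ^ 2 / ρ ^ 2) ^ 2 : ℝ) : ℂ) * Complex.exp (Complex.I * ((B * x.1 * x.2 / 2 : ℝ) : ℂ)) else 0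

/-- The excess, as a function of `x₁`. -/
noncomputable def ex (ρ K x : ℝ) : ℝ :=
  16 * x ^ 2 / ρ ^ 4 * (1 - x ^ 2 / ρ ^ 2) ^ 2 + K * x ^ 2 * (1 - x ^ 2 / ρ ^ 2) ^ 4
    - (20 / (3 * ρ ^ 2) + K * ρ ^ 2 / 6) * (1 - x ^ 2 / ρ ^ 2) ^ 4

/-- Item NA (EASY-MEDIUM, one dimension). `S` is, up to one point, `(0, X)` with `X ≤ ρ` (or empty). With `v = 1 - x²/ρ²` the function
`G(x) = -v³ (8/3 - 2v - 2v²/3) - K ρ⁴ v⁵ (1 - v)/12` has `G' = ex ρ K x * x` (`dv/dx = -2x/ρ²`; check by `ring` after multiplying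
out), `G(0) = 0` (`v = 1`), and `G(X) ≤ 0` as `0 ≤ v ≤ 1`: `8/3 - 2v - 2v²/3 ≥ 0`. -/
def StNA : Prop := ∀ (ρ K : ℝ) (S : Set ℝ), 0 < ρ → 0 ≤ K → MeasurableSet S → S ⊆ Ioo 0 ρ →
  (∀ s ∈ S, ∀ t : ℝ, 0 < t → t < s → t ∈ S) → (∫ x in S, ex ρ K x * x) ≤ 0

/-- Item NB (MEDIUM, use StNA; Fubini, the same proof as StMB, see I_MB.lean). The integral of `ex ρ K x₁` over `Nd κ ρ Ω` is
`∫_s ∫_x 1_Nd(x, s x) x ex(x) dx ds` over `|s| < κ`, `0 < x < ρ`, and the inner integral is `≤ 0` by StNA for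
`S = {x | (x, s x) ∈ Nd κ ρ Ω}` (Ndl.star, `ρ < r`). -/
def StNB : Prop := ∀ (κ ρ r K : ℝ) (Ω : Set (ℝ × ℝ)), 0 < κ → 0 < ρ → ρ < r → 0 ≤ K → IsOpen Ω → Ndl κ r Ω →
  (∫ x in Nd κ ρ Ω, ex ρ K x.1) ≤ 0

/-- Item NT (MEDIUM). Let `x ∈ Ω`. (A) `0 < x₁ < r`, `|x₂| < κ x₁`: near `x` the wedge condition holds and
`nu = (max 0 (1 - x₁²/ρ²))² * phase`, which is `C¹` (`t ↦ (max 0 t)²` is `C¹` with derivative `2 max 0 t`). (B) `x₁ ≤ 0` or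
`|x₂| > κ x₁`: `x` is not in the closed wedge `{0 ≤ x₁, |x₂| ≤ κ x₁}` (`x ≠ 0`), so `nu = 0` near `x`. (C) `x₁ ≥ r > ρ`: `nu = 0`
near `x`. There is no other case by Ndl.side. In `Nd κ ρ Ω`: `∂₁ nu = (-(4 x₁/ρ²)(1 - x₁²/ρ²) + i B x₂/2 (..)²) phase`, so with `A` the first term
of eden is `‖(-(4 x₁/ρ²) v + i B x₂ v²)‖² = 16 x₁² v²/ρ⁴ + B² x₂² v⁴`, the second is `0`. At the other points of Ω `nu = 0` and the
derivative is `0`, so eden is `0`. -/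
def StNT : Prop := ∀ (B κ ρ r : ℝ) (Ω : Set (ℝ × ℝ)), 0 < κ → 0 < ρ → ρ < r → IsOpen Ω → Ndl κ r Ω →
  ContDiffOn ℝ 1 (nu κ ρ B) Ω ∧
  (∀ x ∈ Nd κ ρ Ω, ‖nu κ ρ B x‖ ^ 2 = (1 - x.1 ^ 2 / ρ ^ 2) ^ 4 ∧ eden B (nu κ ρ B) x =
    16 * x.1 ^ 2 / ρ ^ 4 * (1 - x.1 ^ 2 / ρ ^ 2) ^ 2 + B ^ 2 * x.2 ^ 2 * (1 - x.1 ^ 2 / ρ ^ 2) ^ 4) ∧
  (∀ x ∈ Ω, x ∉ Nd κ ρ Ω → ‖nu κ ρ B x‖ ^ 2 = 0 ∧ eden B (nu κ ρ B) x = 0)

/-- Item NW (EASY-MEDIUM, use StTR, StNB, StNT). `u = nu κ ρ B`, `K = B² κ²`. All integrals over Ω are integrals over `Nd κ ρ Ω`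
(open, of finite measure: contained in the triangle), the integrands are bounded there. `eden ≤ 16 x₁² v²/ρ⁴ + K x₁² v⁴` (`|x₂| < κ x₁`), so
StNB: `∫ eden ≤ (20/(3ρ²) + K ρ²/6) ∫ ‖u‖²`, and `∫ ‖u‖² > 0` (`Nd κ ρ Ω` is open and nonempty: `t x` for `x ∈ Nd κ r Ω` and small
`t`; `v > 0` on it). -/
def StNW : Prop := ∀ (B κ ρ r : ℝ) (Ω : Set (ℝ × ℝ)), 0 < κ → 0 < ρ → ρ < r → IsOpen Ω → Ndl κ r Ω →
  lamN B Ω ≤ 20 / (3 * ρ ^ 2) + B ^ 2 * κ ^ 2 * ρ ^ 2 / 6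

/-- Item NX (EASY, use StNW). For `ρ < r`: if `6/(κ B) < r²` take `ρ² = 6/(κ B)`: `20 κ B/18 + κ B ≤ 3 κ B`. Otherwise let `ρ → r`:
`20/(3 ρ²) + B κ (B κ ρ²)/6 ≤ 20/(3ρ²) + B κ` for all `ρ < r`, so `lamN ≤ 20/(3 r²) + B κ` (limit). -/
def StNX : Prop := ∀ (B κ r : ℝ) (Ω : Set (ℝ × ℝ)), 0 < B → 0 < κ → 0 < r → IsOpen Ω → Ndl κ r Ω →
  lamN B Ω ≤ 20 / (3 * r ^ 2) + 3 * κ * B

/-- Item ND (EASY-MEDIUM). Let Ω be the disc. Take `z ∈ Nd κ r Ω`; `t z ∈ Ω` for `0 < t < 1` and `0 ∉ Ω`, so (limit `t → 0`) `|q| = R`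
and `t² |z|² < 2 t ⟨z, q⟩`, so `⟨z, q⟩ > 0`. `z` is a combination with positive coefficients of `e = (1, κ)` and `e' = (1, -κ)`, so
`⟨e, q⟩ > 0` or `⟨e', q⟩ > 0`; then `t e` (or `t e'`) is in the disc for small `t > 0`, against Ndl.side. -/
def StND : Prop := ∀ (κ r R : ℝ) (q : ℝ × ℝ), 0 < κ → 0 < r → 0 < R → ¬ Ndl κ r (edisc q R)

/-- Item NE (EASY-MEDIUM, use StNX, StDE, StVO, and sc in Sc.lean with `x0 = 0` for the disc). `lamN B (edisc 0 R) = R⁻² lamN (B R²) disc`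
and for `β = B R² ≥ b`: `lamN β disc ≥ min(β/16, β²/9) ≥ β min(1/16, b/9)`. With `c = min(1/16, b/9)`, `κ₀ = c/12`, `C = √(40/(3 b c))`: for
`κ ≤ κ₀`, `r ≥ C R`: `20/(3 r²) ≤ b c/(2 R²) ≤ c B/2` and `3 κ B ≤ c B/4`, so `lamN B Ω ≤ 3 c B/4 < c B ≤ lamN B (edisc 0 R)`. -/
def StNE : Prop := ∀ b : ℝ, 0 < b → ∃ κ₀ > (0 : ℝ), ∃ C > (0 : ℝ), ∀ (B R κ r : ℝ) (Ω : Set (ℝ × ℝ)), 0 < R →
  b ≤ B * R ^ 2 → 0 < κ → κ ≤ κ₀ → C * R ≤ r → IsOpen Ω → Ndl κ r Ω → lamN B Ω < lamN B (edisc (0, 0) R)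

/-- Item NF (EASY-MEDIUM, use StNE, StND, StPI, StPV; import Pool.Agent.Work.MP_8826fd_mp.RT.All for hFinD, whose type is written out in
Pool/Agent/Results/MP_8826fd_mp/RangeOfFields.lean). `b` from hFinD, `κ₀, C` from StNE for this `b`. `Ω' = mv p a d '' Ω`,
`Ω = mv p a d ⁻¹' Ω'`. If `b ≤ B R²`: StNE for Ω', and StPI. If `B R² < b`: hFinD gives `lamN B Ω ≤ lamN B (edisc 0 R)` (the subtracted
integral is nonnegative), and equality would give `Ω = edisc q R`, so Ω' would be a disc `edisc q' R` (`q' = mv p a d q`), against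
StND. -/
def StNF : Prop := ∃ κ₀ > (0 : ℝ), ∃ C > (0 : ℝ), ∀ (B R κ r a d : ℝ) (Ω : Set (ℝ × ℝ)) (p : ℝ × ℝ), 0 < B → 0 < R →
  0 < κ → κ ≤ κ₀ → C * R ≤ r → IsOpen Ω → SimplyConnectedSpace Ω → volume Ω = volume (edisc (0, 0) R) →
  a ^ 2 + d ^ 2 = 1 → Ndl κ r (mv p a d '' Ω) → lamN B Ω < lamN B (edisc (0, 0) R)

end Pool.Agent.MFK.TC
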