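import Mathlib
import Pool.Agent.Work.MP_8826fd_mp.TC.StmtsN

/-!
[8826fd TC] Item ND: a disc has no needle.
-/

set_option autoImplicit false

namespace Pool.Agent.MFK.TC

open MeasureTheory Set Filter Topology Pool.Agent.MFK

namespace IND

/-- a ray which points into the disc -/
theorem ray (σ κ r R : ℝ) (q : ℝ × ℝ) (hσ : σ ^ 2 = 1) (hκ : 0 < κ) (hr : 0 < r)
    (hq : q.1 ^ 2 + q.2 ^ 2 = R ^ 2) (hs : 0 < q.1 + σ * κ * q.2)
    (h : ∀ x ∈ edisc q R, 0 < x.1 → x.1 < r → |x.2| ≠ κ * x.1) : False := by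
  set s : ℝ := q.1 + σ * κ * q.2 with hs'
  have hk : 0 < 1 + κ ^ 2 := by positivity
  set t : ℝ := min (r / 2) (s / (1 + κ ^ 2)) with ht
  have ht0 : 0 < t := lt_min (by linarith) (by positivity)
  have htr : t < r := lt_of_le_of_lt (min_le_left _ _) (by linarith)
  have hts : t * (1 + κ ^ 2) ≤ s := by
    have h1 : t ≤ s / (1 + κ ^ 2) := min_le_right _ _
    rwa [le_div_iff₀ hk] at h1
  refine h (t, σ * κ * t) ?_ ht0 htr ?_
  · show (t - q.1) ^ 2 + (σ * κ * t - q.2) ^ 2 < R ^ 2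
    have h2 : (t - q.1) ^ 2 + (σ * κ * t - q.2) ^ 2 =
        R ^ 2 + t * (t * (1 + κ ^ 2) - 2 * s) := by
      rw [hs', ← hq]
      linear_combination (κ ^ 2 * t ^ 2) * hσ
    rw [h2]
    nlinarith
  · show |σ * κ * t| = κ * t
    have h3 : |σ| = 1 := by
      have h4 : |σ| ^ 2 = 1 := by rw [sq_abs, hσ]
      nlinarith [abs_nonneg σ]
    rw [abs_mul, abs_mul, h3, abs_of_pos hκ, abs_of_pos ht0, one_mul]

end IND

/-- item ND -/
theorem pr_ND : StND := by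
  intro κ r R q hκ hr hR hN
  obtain ⟨z, hz⟩ := hN.ne
  have hzD : z ∈ edisc q R := hz.1
  have hz1 : 0 < z.1 := hz.2.1
  have hz2 : |z.2| < κ * z.1 := hz.2.2.2
  have h0 : R ^ 2 ≤ q.1 ^ 2 + q.2 ^ 2 := by
    have h1 := hN.zero
    by_contra hc
    push Not at hc
    apply h1
    show ((0 : ℝ) - q.1) ^ 2 + ((0 : ℝ) - q.2) ^ 2 < R ^ 2
    nlinarith
  have hst : ∀ t : ℝ, 0 < t → t < 1 → (t * z.1 - q.1) ^ 2 + (t * z.2 - q.2) ^ 2 < R ^ 2 :=
    fun t h1 h2 => hN.star z hz t h1 h2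
  set w : ℝ := z.1 * q.1 + z.2 * q.2 with hw
  have hexp : ∀ t : ℝ, (t * z.1 - q.1) ^ 2 + (t * z.2 - q.2) ^ 2 =
      t ^ 2 * (z.1 ^ 2 + z.2 ^ 2) - 2 * t * w + (q.1 ^ 2 + q.2 ^ 2) := by
    intro t
    rw [hw]
    ring
  have hzn : 0 < z.1 ^ 2 + z.2 ^ 2 := by positivity
  have hw0 : 0 < w := by
    have h1 := hst (1 / 2) (by norm_num) (by norm_num)
    rw [hexp] at h1
    nlinarith
  have hq : q.1 ^ 2 + q.2 ^ 2 = R ^ 2 := by
    apply le_antisymm _ h0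
    apply le_of_forall_pos_lt_add
    intro ε hε
    set t : ℝ := min (1 / 2) (ε / (2 * w)) with ht
    have ht0 : 0 < t := lt_min (by norm_num) (by positivity)
    have ht1 : t < 1 := lt_of_le_of_lt (min_le_left _ _) (by norm_num)
    have ht2 : t * (2 * w) ≤ ε := by
      have h1 : t ≤ ε / (2 * w) := min_le_right _ _
      rwa [le_div_iff₀ (by positivity)] at h1
    have h1 := hst t ht0 ht1
    rw [hexp] at h1
    have h2 : 0 < t ^ 2 * (z.1 ^ 2 + z.2 ^ 2) := by positivity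
    linarith
  have hz2' := abs_lt.mp hz2
  by_cases hp : 0 < q.1 + 1 * κ * q.2
  · exact IND.ray 1 κ r R q (by norm_num) hκ hr hq hp hN.side
  · by_cases hm : 0 < q.1 + (-1) * κ * q.2
    · exact IND.ray (-1) κ r R q (by norm_num) hκ hr hq hm hN.side
    · push Not at hp hm
      -- `2 κ w = (κ z₁ + z₂) (q₁ + κ q₂) + (κ z₁ - z₂) (q₁ - κ q₂)`
      have h1 : 2 * κ * w = (κ * z.1 + z.2) * (q.1 + 1 * κ * q.2) +
          (κ * z.1 - z.2) * (q.1 + (-1) * κ * q.2) := by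
        rw [hw]
        ring
      have h2 : (κ * z.1 + z.2) * (q.1 + 1 * κ * q.2) ≤ 0 :=
        mul_nonpos_of_nonneg_of_nonpos (by linarith) hp
      have h3 : (κ * z.1 - z.2) * (q.1 + (-1) * κ * q.2) ≤ 0 :=
        mul_nonpos_of_nonneg_of_nonpos (by linarith) hm
      have h4 : 0 < 2 * κ * w := by positivity
      linarith

end Pool.Agent.MFK.TC
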