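import Pool.Agent.Work.MP_8826fd_mp.TC.StmtsM
import Pool.Agent.Work.MP_8826fd_mp.TC.I_PV
import Pool.Agent.Work.MP_8826fd_mp.TC.I_ND

/-!
[8826fd TC] A disc has no needle with a sharp tip.
-/

set_option autoImplicit false

namespace Pool.Agent.MFK.TC

open MeasureTheory Set Filter Topology Pool.Agent.MFK

theorem mv_edisc (p : ℝ × ℝ) (a d : ℝ) (had : a ^ 2 + d ^ 2 = 1) (q : ℝ × ℝ) (R : ℝ) :
    mv p a d '' edisc q R = edisc (mv p a d q) R := by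
  have key : ∀ x : ℝ × ℝ, ((mv p a d x).1 - (mv p a d q).1) ^ 2 + ((mv p a d x).2 - (mv p a d q).2) ^ 2 =
      (x.1 - q.1) ^ 2 + (x.2 - q.2) ^ 2 := by
    intro x
    simp only [mv]
    linear_combination ((x.1 - q.1) ^ 2 + (x.2 - q.2) ^ 2) * had
  ext y
  constructor
  · rintro ⟨x, hx, rfl⟩
    show ((mv p a d x).1 - (mv p a d q).1) ^ 2 + ((mv p a d x).2 - (mv p a d q).2) ^ 2 < R ^ 2
    rw [key]
    exact hx
  · intro hy
    refine ⟨(p.1 + a * y.1 - d * y.2, p.2 + d * y.1 + a * y.2), ?_, (pr_PV p a d had).2.1 y⟩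
    have h := key (p.1 + a * y.1 - d * y.2, p.2 + d * y.1 + a * y.2)
    rw [(pr_PV p a d had).2.1 y] at h
    have hy' : (y.1 - (mv p a d q).1) ^ 2 + (y.2 - (mv p a d q).2) ^ 2 < R ^ 2 := hy
    rw [h] at hy'
    exact hy'

theorem ndl_of_ndm (κ r : ℝ) (Ω : Set (ℝ × ℝ)) (h : Ndm κ r 0 Ω) : Ndl κ r Ω := by
  refine ⟨h.zero, h.side, h.ne, ?_⟩
  intro x hx t ht0 ht1
  exact h.star x hx t ht0 ht1 (mul_pos ht0 hx.2.1)

theorem not_ndm_disc (κ r R : ℝ) (q p : ℝ × ℝ) (a d : ℝ) (hκ : 0 < κ) (hr : 0 < r) (hR : 0 < R)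
    (had : a ^ 2 + d ^ 2 = 1) : ¬ Ndm κ r 0 (mv p a d '' edisc q R) := by
  rw [mv_edisc p a d had]
  intro h
  exact pr_ND κ r R _ hκ hr hR (ndl_of_ndm κ r _ h)

end Pool.Agent.MFK.TC
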