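import Pool.Agent.Work.MP_8826fd_mp.TC.StmtsN

/-!
[8826fd TC] Fourth part: needles with a rounded tip (star-shaped only down to `x₁ > ε`), so that smooth domains are included. Every
docstring of an item is a complete proof; the items are variants of those of StmtsN.lean.
-/

set_option autoImplicit false

namespace Pool.Agent.MFK.TC

open MeasureTheory Set Filter Topology Pool.Agent.MFK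

/-- `Ω` has a needle of slope `κ` and length `r` with the tip `0`, rounded at scale `ε`. -/
structure Ndm (κ r ε : ℝ) (Ω : Set (ℝ × ℝ)) : Prop where
  zero : (0, 0) ∉ Ω
  side : ∀ x ∈ Ω, 0 < x.1 → x.1 < r → |x.2| ≠ κ * x.1
  ne : (Nd κ r Ω).Nonempty
  star : ∀ x ∈ Nd κ r Ω, ∀ t : ℝ, 0 < t → t < 1 → ε < t * x.1 → (t * x.1, t * x.2) ∈ Ω

/-- The excess with the larger constants. -/
noncomputable def exm (ρ K x : ℝ) : ℝ :=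
  16 * x ^ 2 / ρ ^ 4 * (1 - x ^ 2 / ρ ^ 2) ^ 2 + K * x ^ 2 * (1 - x ^ 2 / ρ ^ 2) ^ 4
    - (30 / ρ ^ 2 + K * ρ ^ 2) * (1 - x ^ 2 / ρ ^ 2) ^ 4

/-- Item M1 (MEDIUM, one dimension). `v = 1 - x²/ρ²`. (1) For `0 < x ≤ ε ≤ ρ/2`: `v ≥ 3/4` and `16 x²/(ρ⁴ v²) + K x² ≤ 64/(9 ρ²) + K ρ²/4`, so
`exm ≤ 0`. (2) `S ∩ (ε, ρ)` is, up to one point, `(ε, X)`, `X ≤ ρ`. `exm = v⁴ h`, `h(x) = 16 x²/(ρ⁴ v²) + K x² - (30/ρ² + K ρ²)` increasing on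
`(0, ρ)`. If `h(X) ≤ 0` (or `X ≤ ε`) the integral over `(ε, X)` is `≤ 0`. Otherwise `exm ≥ 0` on `(X, ρ)`, so the integral over `(ε, X)` is at most the
integral over `(ε, ρ)`, which is, with `w = 1 - ε²/ρ² ∈ [3/4, 1]`, equal to `w³ (8/3 - 2w - 3w²) - K ρ⁴ w⁶/12 ≤ 0`. (Antiderivative of `exm * x`:
`-v³ (8/3 - 2v - 3v²) + K ρ⁴ v⁶/12`, zero at `v = 0`.) -/
def StM1 : Prop := ∀ (ρ K ε : ℝ) (S : Set ℝ), 0 < ρ → 0 ≤ K → 0 ≤ ε → 2 * ε ≤ ρ → MeasurableSet S → S ⊆ Ioo 0 ρ →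
  (∀ s ∈ S, ∀ t : ℝ, ε < t → t < s → t ∈ S) → (∫ x in S, exm ρ K x * x) ≤ 0

/-- Item M2 (MEDIUM, use StM1; Fubini, the same proof as StMB and StNB, see I_MB.lean). -/
def StM2 : Prop := ∀ (κ ρ r ε K : ℝ) (Ω : Set (ℝ × ℝ)), 0 < κ → 0 < ρ → ρ < r → 0 ≤ ε → 2 * ε ≤ ρ → 0 ≤ K → IsOpen Ω →
  Ndm κ r ε Ω → (∫ x in Nd κ ρ Ω, exm ρ K x.1) ≤ 0

/-- Item MT (the same proof as StNT, which uses only Ndl.zero and Ndl.side). -/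
def StMT : Prop := ∀ (B κ ρ r : ℝ) (Ω : Set (ℝ × ℝ)), 0 < κ → 0 < ρ → ρ < r → IsOpen Ω → (0, 0) ∉ Ω →
  (∀ x ∈ Ω, 0 < x.1 → x.1 < r → |x.2| ≠ κ * x.1) →
  ContDiffOn ℝ 1 (nu κ ρ B) Ω ∧
  (∀ x ∈ Nd κ ρ Ω, ‖nu κ ρ B x‖ ^ 2 = (1 - x.1 ^ 2 / ρ ^ 2) ^ 4 ∧ eden B (nu κ ρ B) x =
    16 * x.1 ^ 2 / ρ ^ 4 * (1 - x.1 ^ 2 / ρ ^ 2) ^ 2 + B ^ 2 * x.2 ^ 2 * (1 - x.1 ^ 2 / ρ ^ 2) ^ 4) ∧
  (∀ x ∈ Ω, x ∉ Nd κ ρ Ω → ‖nu κ ρ B x‖ ^ 2 = 0 ∧ eden B (nu κ ρ B) x = 0)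

/-- Item MW (EASY-MEDIUM, use StTR, StM2, StMT; as StNW). `Nd κ ρ Ω` is nonempty: let `x ∈ Nd κ r Ω`; if `x₁ < ρ` it is `x`, otherwise
`t x` with `ε < t x₁ < ρ` (`ρ ≥ 2 ε` and `ρ > 0` give `ρ > ε`). -/
def StMW : Prop := ∀ (B κ ρ r ε : ℝ) (Ω : Set (ℝ × ℝ)), 0 < κ → 0 < ρ → ρ < r → 0 ≤ ε → 2 * ε ≤ ρ → IsOpen Ω →
  Ndm κ r ε Ω → lamN B Ω ≤ 30 / ρ ^ 2 + B ^ 2 * κ ^ 2 * ρ ^ 2

/-- Item MX (EASY-MEDIUM, use StMW). If `5/(κ B) < 4 ε²`: `ρ = 2 ε < r`, `30/(4 ε²) ≤ 6 κ B`, second term `4 κ² ε² B²`. If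
`4 ε² ≤ 5/(κ B) < r²`: `ρ² = 5/(κ B)`: `6 κ B + 5 κ B`. If `r² ≤ 5/(κ B)`: for all `ρ < r` close to `r`: second term `≤ 5 κ B`, and
`30/ρ² → 30/r²` (limit). -/
def StMX : Prop := ∀ (B κ r ε : ℝ) (Ω : Set (ℝ × ℝ)), 0 < B → 0 < κ → 0 < r → 0 ≤ ε → 2 * ε < r → IsOpen Ω →
  Ndm κ r ε Ω → lamN B Ω ≤ 30 / r ^ 2 + 11 * κ * B + 4 * κ ^ 2 * ε ^ 2 * B ^ 2

/-- Item ME (EASY-MEDIUM, use StMX, StDE, and sc in Sc.lean with `x0 = 0` for the disc: `edisc 0 R` is the image of `disc`).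
`lamN B (edisc 0 R) = R⁻² lamN (B R²) disc ≥ c B` with `c = min(1/16, b/9)` for `B R² ≥ b`. `κ₀ = c/44`, `c₁ = c/16`, `C = √(120/(b c))`, and `C ≥ 1`
if you like: `30/r² ≤ b c/(4 R²) ≤ c B/4`, `11 κ B ≤ c B/4`, `4 κ² ε² B² ≤ c B/4`. -/
def StME : Prop := ∀ b : ℝ, 0 < b → ∃ κ₀ > (0 : ℝ), ∃ C > (0 : ℝ), ∃ c₁ > (0 : ℝ), ∀ (B R κ r ε : ℝ) (Ω : Set (ℝ × ℝ)),
  0 < R → b ≤ B * R ^ 2 → 0 < κ → κ ≤ κ₀ → C * R ≤ r → 0 ≤ ε → 2 * ε < r → κ ^ 2 * ε ^ 2 * B ≤ c₁ → IsOpen Ω →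
  Ndm κ r ε Ω → lamN B Ω < lamN B (edisc (0, 0) R)

/-- Item MF (EASY-MEDIUM, use StME, StPI, StPV; import Pool.Agent.Work.MP_8826fd_mp.RT.All for hFinD, whose type is written out in
Pool/Agent/Results/MP_8826fd_mp/RangeOfFields.lean). `b` from hFinD, `κ₀, C, c₁` from StME for this `b`. `Ω' = mv p a d '' Ω`,
`Ω = mv p a d ⁻¹' Ω'`. If `b ≤ B R²`: StME for Ω', and StPI. If `B R² < b`: hFinD (the subtracted integral is nonnegative). -/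
def StMF : Prop := ∃ κ₀ > (0 : ℝ), ∃ C > (0 : ℝ), ∃ c₁ > (0 : ℝ), ∀ (B R κ r ε a d : ℝ) (Ω : Set (ℝ × ℝ)) (p : ℝ × ℝ),
  0 < B → 0 < R → 0 < κ → κ ≤ κ₀ → C * R ≤ r → 0 ≤ ε → 2 * ε < r → κ ^ 2 * ε ^ 2 * B ≤ c₁ → IsOpen Ω →
  SimplyConnectedSpace Ω → volume Ω = volume (edisc (0, 0) R) → a ^ 2 + d ^ 2 = 1 → Ndm κ r ε (mv p a d '' Ω) →
  lamN B Ω ≤ lamN B (edisc (0, 0) R) ∧ (lamN B Ω = lamN B (edisc (0, 0) R) → ∃ q : ℝ × ℝ, Ω = edisc q R)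

end Pool.Agent.MFK.TC
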