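import Mathlib
import Pool.Agent.Work.MP_8826fd_mp.TC.StmtsM

/-!
[8826fd TC M1] The excess with the larger constants in one dimension (rounded tip).
-/

set_option autoImplicit false

namespace Pool.Agent.MFK.TC

open MeasureTheory Set Filter Topology Pool.Agent.MFK

namespace IM1

/-- The antiderivative. -/
noncomputable def G (ρ K x : ℝ) : ℝ :=
  -(8 / 3) * (1 - x ^ 2 / ρ ^ 2) ^ 3 + 2 * (1 - x ^ 2 / ρ ^ 2) ^ 4
    + 3 * (1 - x ^ 2 / ρ ^ 2) ^ 5 + K * ρ ^ 4 / 12 * (1 - x ^ 2 / ρ ^ 2) ^ 6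

theorem hasDerivAt_G (ρ K x : ℝ) (hρ : 0 < ρ) : HasDerivAt (G ρ K) (exm ρ K x * x) x := by
  have hv : HasDerivAt (fun x : ℝ => 1 - x ^ 2 / ρ ^ 2) (-(2 * x / ρ ^ 2)) x := by
    have h := ((hasDerivAt_pow 2 x).div_const (ρ ^ 2)).const_sub 1
    refine h.congr_deriv ?_
    simp
  have h := ((((hv.pow 3).const_mul (-(8 / 3 : ℝ))).add ((hv.pow 4).const_mul (2 : ℝ))).add
    ((hv.pow 5).const_mul (3 : ℝ))).add ((hv.pow 6).const_mul (K * ρ ^ 4 / 12))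
  refine (h.congr_deriv ?_)
  have hρ0 : ρ ≠ 0 := hρ.ne'
  simp only [exm, show 3 - 1 = 2 from rfl, show 4 - 1 = 3 from rfl, show 5 - 1 = 4 from rfl,
    show 6 - 1 = 5 from rfl]
  push_cast
  field_simp
  ring

theorem cont (ρ K : ℝ) : Continuous (fun x => exm ρ K x * x) := by
  unfold exm
  fun_prop

theorem poly (v w : ℝ) (hv : 0 ≤ v) (hvw : v ≤ w) (hw : 3 / 4 ≤ w) :
    -(8 / 3) * v ^ 3 + 2 * v ^ 4 + 3 * v ^ 5 ≤ -(8 / 3) * w ^ 3 + 2 * w ^ 4 + 3 * w ^ 5 := by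
  have hw0 : 0 ≤ w := by linarith
  rcases le_total v (2 / 3) with h | h
  · have h1 : 0 ≤ v ^ 3 * (8 / 3 - 2 * v - 3 * v ^ 2) := by
      have : 0 ≤ 8 / 3 - 2 * v - 3 * v ^ 2 := by nlinarith
      positivity
    have h2 : 0 ≤ w ^ 3 * (3 * w ^ 2 + 2 * w - 8 / 3) := by
      have : 0 ≤ 3 * w ^ 2 + 2 * w - 8 / 3 := by nlinarith
      positivity
    nlinarith [h1, h2]
  · have hw2 : 2 / 3 ≤ w := by linarith
    have a1 : 0 ≤ (w + v - 4 / 3) * (w ^ 2 + v ^ 2) := by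
      have : 0 ≤ w + v - 4 / 3 := by linarith
      positivity
    have a2 : 0 ≤ w * v * (w ^ 2 + v ^ 2 - 8 / 9) := by
      have : 0 ≤ w ^ 2 + v ^ 2 - 8 / 9 := by nlinarith
      positivity
    have a3 : 0 ≤ w ^ 4 + w ^ 2 * v ^ 2 + v ^ 4 := by positivity
    have a4 : 0 ≤ 3 * (w ^ 4 + w ^ 3 * v + w ^ 2 * v ^ 2 + w * v ^ 3 + v ^ 4)
        + 2 * (w ^ 3 + w ^ 2 * v + w * v ^ 2 + v ^ 3) - 8 / 3 * (w ^ 2 + w * v + v ^ 2) := by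
      nlinarith [a1, a2, a3]
    have a5 := mul_nonneg (sub_nonneg.2 hvw) a4
    nlinarith [a5]

theorem G_le (ρ K ε X : ℝ) (hρ : 0 < ρ) (hK : 0 ≤ K) (he : 0 ≤ ε) (hερ : 2 * ε ≤ ρ)
    (h0 : ε ≤ X) (h1 : X ≤ ρ) : G ρ K X ≤ G ρ K ε := by
  have hv2 : X ^ 2 / ρ ^ 2 ≤ 1 := by
    rw [div_le_one (by positivity)]
    exact pow_le_pow_left₀ (he.trans h0) h1 2
  have hv3 : ε ^ 2 / ρ ^ 2 ≤ X ^ 2 / ρ ^ 2 := by
    have := pow_le_pow_left₀ he h0 2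
    gcongr
  have hv4 : ε ^ 2 / ρ ^ 2 ≤ 1 / 4 := by
    rw [div_le_iff₀ (by positivity)]
    nlinarith
  obtain ⟨v, hv⟩ : ∃ v : ℝ, v = 1 - X ^ 2 / ρ ^ 2 := ⟨_, rfl⟩
  obtain ⟨w, hw⟩ : ∃ w : ℝ, w = 1 - ε ^ 2 / ρ ^ 2 := ⟨_, rfl⟩
  have b0 : 0 ≤ v := by rw [hv]; linarith
  have b1 : v ≤ w := by rw [hv, hw]; linarith
  have b2 : 3 / 4 ≤ w := by rw [hw]; linarith
  have b3 := poly v w b0 b1 b2
  have b4 : K * ρ ^ 4 / 12 * v ^ 6 ≤ K * ρ ^ 4 / 12 * w ^ 6 := by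
    have := pow_le_pow_left₀ b0 b1 6
    gcongr
  unfold G
  rw [← hv, ← hw]
  linarith

theorem exm_nonpos (ρ K ε x : ℝ) (hρ : 0 < ρ) (hK : 0 ≤ K) (hx : 0 < x) (hxe : x ≤ ε)
    (hερ : 2 * ε ≤ ρ) : exm ρ K x ≤ 0 := by
  have hq : x ^ 2 / ρ ^ 2 ≤ 1 / 4 := by
    rw [div_le_iff₀ (by positivity)]
    nlinarith
  have hq0 : 0 ≤ x ^ 2 / ρ ^ 2 := by positivity
  have e : exm ρ K x = -(1 / ρ ^ 2 * ((1 - x ^ 2 / ρ ^ 2) ^ 2 *
      (30 * (1 - x ^ 2 / ρ ^ 2) ^ 2 - 16 * (x ^ 2 / ρ ^ 2)))) -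
      K * ρ ^ 2 * (1 - x ^ 2 / ρ ^ 2) ^ 4 * (1 - x ^ 2 / ρ ^ 2) := by
    have hρ0 : ρ ≠ 0 := hρ.ne'
    unfold exm
    field_simp
    ring
  rw [e]
  generalize x ^ 2 / ρ ^ 2 = q at hq hq0 ⊢
  have c1 : 0 ≤ 30 * (1 - q) ^ 2 - 16 * q := by nlinarith
  have c2 : 0 ≤ 1 - q := by linarith
  have c3 : 0 ≤ 1 / ρ ^ 2 * ((1 - q) ^ 2 * (30 * (1 - q) ^ 2 - 16 * q)) := by positivity
  have c4 : 0 ≤ K * ρ ^ 2 * (1 - q) ^ 4 * (1 - q) := by positivity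
  linarith

end IM1

theorem pr_M1 : StM1 := by
  intro ρ K ε S hρ hK he hερ hS hsub hstar
  have hI : IntegrableOn (fun x => exm ρ K x * x) S :=
    ((IM1.cont ρ K).integrableOn_Icc (a := 0) (b := ρ)).mono_set
      (hsub.trans Ioo_subset_Icc_self)
  rw [← integral_inter_add_sdiff (measurableSet_Iic (a := ε)) hI]
  have h1 : ∫ x in S ∩ Iic ε, exm ρ K x * x ≤ 0 := by
    apply setIntegral_nonpos (hS.inter measurableSet_Iic)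
    rintro x ⟨hx, hx2⟩
    exact mul_nonpos_of_nonpos_of_nonneg
      (IM1.exm_nonpos ρ K ε x hρ hK (hsub hx).1 hx2 hερ) (hsub hx).1.le
  have h2 : ∫ x in S \ Iic ε, exm ρ K x * x ≤ 0 := by
    obtain ⟨T, hT⟩ : ∃ T : Set ℝ, T = S \ Iic ε := ⟨_, rfl⟩
    rw [← hT]
    have hTe : T ⊆ Ioi ε := by
      rw [hT]
      rintro x ⟨_, hx⟩
      simpa using hx
    have hTρ : ∀ x ∈ T, x < ρ := by
      rw [hT]
      rintro x ⟨hx, _⟩
      exact (hsub hx).2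
    have hTd : ∀ s ∈ T, ∀ t : ℝ, ε < t → t < s → t ∈ T := by
      rw [hT]
      rintro s ⟨hs, _⟩ t ht hts
      exact ⟨hstar s hs t ht hts, by simpa using ht⟩
    rcases T.eq_empty_or_nonempty with h0 | hne
    · rw [h0]
      simp
    have hbd : BddAbove T := ⟨ρ, fun x hx => (hTρ x hx).le⟩
    have hX : ε < sSup T := by
      obtain ⟨s, hs⟩ := hne
      exact lt_of_lt_of_le (hTe hs) (le_csSup hbd hs)
    have hXρ : sSup T ≤ ρ := csSup_le hne fun x hx => (hTρ x hx).le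
    have hsub1 : T ⊆ Ioc ε (sSup T) := fun s hs => ⟨hTe hs, le_csSup hbd hs⟩
    have hsub2 : Ioo ε (sSup T) ⊆ T := by
      rintro t ⟨ht1, ht2⟩
      obtain ⟨s, hs, hts⟩ := exists_lt_of_lt_csSup hne ht2
      exact hTd s hs t ht1 hts
    have hae : T =ᵐ[volume] Ioc ε (sSup T) := by
      apply Filter.EventuallyLE.antisymm
      · exact hsub1.eventuallyLE
      · exact (Ioo_ae_eq_Ioc).symm.le.trans hsub2.eventuallyLE
    rw [setIntegral_congr_set hae, ← intervalIntegral.integral_of_le hX.le,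
      intervalIntegral.integral_eq_sub_of_hasDerivAt
        (fun x _ => IM1.hasDerivAt_G ρ K x hρ) ((IM1.cont ρ K).intervalIntegrable _ _)]
    have := IM1.G_le ρ K ε (sSup T) hρ hK he hερ hX.le hXρ
    linarith
  linarith

end Pool.Agent.MFK.TC
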