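import Mathlib
import Pool.Agent.Work.MP_8826fd_mp.TC.StmtsM

/-!
[8826fd TC] Item M2: the mean value inequality in the rounded needle (Fubini).
-/

set_option autoImplicit false

namespace Pool.Agent.MFK.TC

open MeasureTheory Set Filter Topology Pool.Agent.MFK

namespace IM2

theorem cont_exm (ρ K : ℝ) : Continuous (exm ρ K) := by
  unfold exm
  fun_prop

theorem int_xf (ρ K : ℝ) :
    Integrable (fun x : ℝ => (Ioo (0 : ℝ) ρ).indicator (fun x => exm ρ K x * x) x) := by
  rw [integrable_indicator_iff measurableSet_Ioo]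
  have hc : Continuous (fun x : ℝ => exm ρ K x * x) := (cont_exm ρ K).mul continuous_id
  exact (hc.continuousOn.integrableOn_compact isCompact_Icc).mono_set Ioo_subset_Icc_self

theorem open_Nd (κ ρ : ℝ) (Ω : Set (ℝ × ℝ)) (hO : IsOpen Ω) : IsOpen (Nd κ ρ Ω) := by
  have h1 : IsOpen {x : ℝ × ℝ | 0 < x.1} := isOpen_lt continuous_const continuous_fst
  have h2 : IsOpen {x : ℝ × ℝ | x.1 < ρ} := isOpen_lt continuous_fst continuous_const
  have h3 : IsOpen {x : ℝ × ℝ | |x.2| < κ * x.1} :=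
    isOpen_lt (continuous_abs.comp continuous_snd) (continuous_const.mul continuous_fst)
  exact hO.inter (h1.inter (h2.inter h3))

/-- The transformed integrand, `(x, s)` for the point `(x, s x)`. -/
noncomputable def h (ρ K : ℝ) (N : Set (ℝ × ℝ)) (x s : ℝ) : ℝ :=
  {x : ℝ | (x, s * x) ∈ N}.indicator (fun x => exm ρ K x * x) x

theorem inner (ρ K : ℝ) (N : Set (ℝ × ℝ)) (hN : ∀ p ∈ N, 0 < p.1) (x : ℝ) :
    ∫ y, N.indicator (fun x : ℝ × ℝ => exm ρ K x.1) (x, y) = ∫ s, h ρ K N x s := by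
  by_cases hx : 0 < x
  · have h1 := Measure.integral_comp_mul_right
      (fun y => N.indicator (fun x : ℝ × ℝ => exm ρ K x.1) (x, y)) x
    rw [abs_of_pos (inv_pos.2 hx), smul_eq_mul] at h1
    have h2 : ∫ y, N.indicator (fun x : ℝ × ℝ => exm ρ K x.1) (x, y) =
        (∫ s, N.indicator (fun x : ℝ × ℝ => exm ρ K x.1) (x, s * x)) * x := by
      rw [h1]
      field_simp
    rw [h2, ← integral_mul_const]
    refine integral_congr_ae (Eventually.of_forall fun s => ?_)
    simp only [h]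
    by_cases hs : (x, s * x) ∈ N
    · rw [indicator_of_mem hs, indicator_of_mem (show x ∈ {x : ℝ | (x, s * x) ∈ N} from hs)]
    · rw [indicator_of_notMem hs, indicator_of_notMem
        (show x ∉ {x : ℝ | (x, s * x) ∈ N} from fun h => hs h), zero_mul]
  · have h1 : ∀ y, N.indicator (fun x : ℝ × ℝ => exm ρ K x.1) (x, y) = 0 := fun y =>
      indicator_of_notMem (fun h => hx (hN _ h)) _
    have h2 : ∀ s, h ρ K N x s = 0 := by
      intro s
      unfold h
      exact indicator_of_notMem (fun hh : x ∈ {x : ℝ | (x, s * x) ∈ N} => hx (hN (x, s * x) hh)) _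
    simp only [h1, h2]

theorem int_h (κ ρ K : ℝ) (Ω : Set (ℝ × ℝ)) (hO : IsOpen Ω) :
    Integrable (Function.uncurry (h ρ K (Nd κ ρ Ω))) ((volume : Measure ℝ).prod volume) := by
  have hs : MeasurableSet {p : ℝ × ℝ | (p.1, p.2 * p.1) ∈ Nd κ ρ Ω} := by
    apply IsOpen.measurableSet
    exact (open_Nd κ ρ Ω hO).preimage (by fun_prop : Continuous fun p : ℝ × ℝ => (p.1, p.2 * p.1))
  have hu : Function.uncurry (h ρ K (Nd κ ρ Ω)) =
      {p : ℝ × ℝ | (p.1, p.2 * p.1) ∈ Nd κ ρ Ω}.indicator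
      (fun p : ℝ × ℝ => exm ρ K p.1 * p.1) := by
    funext p
    rcases p with ⟨x, s⟩
    rfl
  have hi : Integrable (fun s : ℝ => (Ioo (-κ) κ).indicator (fun _ => (1 : ℝ)) s) :=
    (integrable_indicator_iff measurableSet_Ioo).2 (integrableOn_const (by simp))
  have hp := (int_xf ρ K).mul_prod hi
  refine hp.mono ?_ ?_
  · rw [hu]
    have hc : Continuous (fun p : ℝ × ℝ => exm ρ K p.1 * p.1) :=
      ((cont_exm ρ K).comp continuous_fst).mul continuous_fst
    exact (hc.stronglyMeasurable.indicator hs).aestronglyMeasurable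
  · refine Eventually.of_forall fun p => ?_
    rw [hu]
    by_cases hpm : p ∈ {p : ℝ × ℝ | (p.1, p.2 * p.1) ∈ Nd κ ρ Ω}
    · rw [indicator_of_mem hpm]
      have hp0 : 0 < p.1 := hpm.2.1
      have hp1 : p.1 < ρ := hpm.2.2.1
      have h1 : |p.2 * p.1| < κ * p.1 := hpm.2.2.2
      simp only [abs_mul, abs_of_pos hp0] at h1
      have h2 : |p.2| < κ := lt_of_mul_lt_mul_right h1 hp0.le
      rw [abs_lt] at h2
      rw [indicator_of_mem (show p.2 ∈ Ioo (-κ) κ from h2), mul_one,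
        indicator_of_mem (show p.1 ∈ Ioo (0 : ℝ) ρ from ⟨hp0, hp1⟩)]
    · rw [indicator_of_notMem hpm, norm_zero]
      exact norm_nonneg _

end IM2

/-- Item M2. -/
theorem pr_M2 (h1 : StM1) : StM2 := by
  intro κ ρ r ε K Ω hκ hρ hρr hε hερ hK hO hW
  have hON := IM2.open_Nd κ ρ Ω hO
  have h0 : (∫ x in Nd κ ρ Ω, exm ρ K x.1) =
      ∫ x, (Nd κ ρ Ω).indicator (fun x : ℝ × ℝ => exm ρ K x.1) x := by
    rw [integral_indicator hON.measurableSet]
  rw [h0]
  by_cases hg : Integrable ((Nd κ ρ Ω).indicator fun x : ℝ × ℝ => exm ρ K x.1)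
  swap
  · rw [integral_undef hg]
  rw [Measure.volume_eq_prod] at hg ⊢
  rw [integral_prod _ hg]
  simp only [IM2.inner ρ K (Nd κ ρ Ω) (fun p hp => hp.2.1)]
  rw [integral_integral_swap (IM2.int_h κ ρ K Ω hO)]
  refine integral_nonpos fun s => ?_
  simp only [IM2.h]
  have hS : MeasurableSet {x : ℝ | (x, s * x) ∈ Nd κ ρ Ω} := by
    apply IsOpen.measurableSet
    exact hON.preimage (by fun_prop : Continuous fun x : ℝ => (x, s * x))
  rw [integral_indicator hS]
  refine h1 ρ K ε _ hρ hK hε hερ hS (fun x hx => ⟨hx.2.1, hx.2.2.1⟩) ?_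
  intro x hx t ht1 ht2
  have ht : 0 < t := lt_of_le_of_lt hε ht1
  have hx0 : 0 < x := hx.2.1
  have hx1 : x < ρ := hx.2.2.1
  have hx2 : |s * x| < κ * x := hx.2.2.2
  have hs : |s| < κ := by
    rw [abs_mul, abs_of_pos hx0] at hx2
    exact lt_of_mul_lt_mul_right hx2 hx0.le
  have e1 : t / x * x = t := div_mul_cancel₀ t hx0.ne'
  have hmem : (x, s * x) ∈ Nd κ r Ω := ⟨hx.1, hx0, hx1.trans hρr, hx2⟩
  have h2 := hW.star _ hmem (t / x) (div_pos ht hx0) ((div_lt_one hx0).2 ht2)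
    (by show ε < t / x * x; rw [e1]; exact ht1)
  have e2 : t / x * (s * x) = s * t := by
    field_simp
  have h3 : (t / x * x, t / x * (s * x)) ∈ Ω := h2
  rw [e1, e2] at h3
  refine ⟨h3, ht, ht2.trans hx1, ?_⟩
  show |s * t| < κ * t
  rw [abs_mul, abs_of_pos ht]
  exact mul_lt_mul_of_pos_right hs ht

end Pool.Agent.MFK.TC
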