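import Mathlib
import Pool.Agent.Work.MP_8826fd_mp.TC.StmtsM
import Pool.Agent.Work.MP_8826fd_mp.Sc

/-! [8826fd TC] Item ME: rounded needles beat the disc. -/

set_option autoImplicit false

namespace Pool.Agent.MFK.TC

open MeasureTheory Set Filter Topology Pool.Agent.MFK

namespace IME

theorem image_disc {R : ℝ} (hR : 0 < R) :
    (fun x : ℝ × ℝ => ((0 : ℝ), (0 : ℝ)) + R • x) '' disc = edisc (0, 0) R := by
  have key : ∀ x : ℝ × ℝ, R • x ∈ edisc (0, 0) R ↔ x ∈ disc := by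
    intro x
    show (R * x.1 - 0) ^ 2 + (R * x.2 - 0) ^ 2 < R ^ 2 ↔ x.1 ^ 2 + x.2 ^ 2 < 1
    have e : (R * x.1 - 0) ^ 2 + (R * x.2 - 0) ^ 2 = R ^ 2 * (x.1 ^ 2 + x.2 ^ 2) := by ring
    rw [e]
    constructor
    · intro h1
      have h2 : R ^ 2 * (x.1 ^ 2 + x.2 ^ 2) < R ^ 2 * 1 := by linarith
      exact lt_of_mul_lt_mul_left h2 (by positivity)
    · intro h1
      have h2 := mul_lt_mul_of_pos_left h1 (by positivity : (0 : ℝ) < R ^ 2)
      linarith
  have h0 : ∀ y : ℝ × ℝ, ((0 : ℝ), (0 : ℝ)) + R • y = R • y := by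
    intro y
    ext <;> simp
  ext x
  constructor
  · rintro ⟨y, hy, rfl⟩
    show ((0 : ℝ), (0 : ℝ)) + R • y ∈ edisc (0, 0) R
    rw [h0]
    exact (key y).2 hy
  · intro hx
    refine ⟨R⁻¹ • x, ?_, ?_⟩
    · rw [← key, smul_inv_smul₀ hR.ne']
      exact hx
    · show ((0 : ℝ), (0 : ℝ)) + R • R⁻¹ • x = x
      rw [h0, smul_inv_smul₀ hR.ne']

theorem disc_open : IsOpen disc := by
  unfold disc
  exact isOpen_lt (by fun_prop) continuous_const

end IME

theorem pr_ME (h1 : StMX) (h2 : StDE) : StME := by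
  intro b hb
  obtain ⟨c, hc⟩ : ∃ c : ℝ, c = min (1 / 16) (b / 9) := ⟨_, rfl⟩
  have hc0 : 0 < c := by
    rw [hc]
    exact lt_min (by norm_num) (by positivity)
  have hc1 : c ≤ 1 / 16 := hc ▸ min_le_left _ _
  have hc2 : c ≤ b / 9 := hc ▸ min_le_right _ _
  have hq : 0 < 120 / (b * c) := by positivity
  refine ⟨c / 44, by positivity, Real.sqrt (120 / (b * c)), Real.sqrt_pos.2 hq, c / 16,
    by positivity, ?_⟩
  intro B R κ r ε Ω hR hbB hκ hκ0 hCr hε hεr hκε hO hN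
  have hR2 : 0 < R ^ 2 := by positivity
  have hBR : 0 < B * R ^ 2 := lt_of_lt_of_le hb hbB
  have hB : 0 < B := pos_of_mul_pos_left hBR hR2.le
  have hr : 0 < r := lt_of_lt_of_le (mul_pos (Real.sqrt_pos.2 hq) hR) hCr
  have hup := h1 B κ r ε Ω hB hκ hr hε hεr hO hN
  -- the disc
  have hdisc : c * (B * R ^ 2) ≤ lamN (B * R ^ 2) disc := by
    obtain ⟨d1, d2⟩ := h2 (B * R ^ 2) hBR
    rcases le_total 1 (B * R ^ 2) with h | h
    · have e1 := d1 h
      have e2 : c * (B * R ^ 2) ≤ 1 / 16 * (B * R ^ 2) := mul_le_mul_of_nonneg_right hc1 hBR.le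
      linarith
    · have e1 := d2 h
      have e2 : c * (B * R ^ 2) ≤ b / 9 * (B * R ^ 2) := mul_le_mul_of_nonneg_right hc2 hBR.le
      have e3 : b / 9 * (B * R ^ 2) ≤ (B * R ^ 2) / 9 * (B * R ^ 2) :=
        mul_le_mul_of_nonneg_right (by linarith) hBR.le
      have e4 : (B * R ^ 2) / 9 * (B * R ^ 2) = (B * R ^ 2) ^ 2 / 9 := by ring
      linarith
  have hlow : c * B ≤ lamN B (edisc (0, 0) R) := by
    rw [← IME.image_disc hR, sc B R ((0 : ℝ), (0 : ℝ)) disc hR IME.disc_open]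
    have e1 : c * B = (R ^ 2)⁻¹ * (c * (B * R ^ 2)) := by
      field_simp
    rw [e1]
    exact mul_le_mul_of_nonneg_left hdisc (by positivity)
  -- the three terms
  have t1 : 30 / r ^ 2 ≤ c * B / 4 := by
    have e1 : 120 / (b * c) * R ^ 2 ≤ r ^ 2 := by
      have e2 : (Real.sqrt (120 / (b * c)) * R) ^ 2 ≤ r ^ 2 :=
        pow_le_pow_left₀ (by positivity) hCr 2
      rw [mul_pow, Real.sq_sqrt hq.le] at e2
      exact e2
    rw [div_le_iff₀ (by positivity)]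
    have e3 : c * B / 4 * (120 / (b * c) * R ^ 2) ≤ c * B / 4 * r ^ 2 :=
      mul_le_mul_of_nonneg_left e1 (by positivity)
    have e4 : c * B / 4 * (120 / (b * c) * R ^ 2) = 30 * (B * R ^ 2 / b) := by
      field_simp
      ring
    have e5 : 1 ≤ B * R ^ 2 / b := by
      rw [le_div_iff₀ hb]
      linarith
    linarith
  have t2 : 11 * κ * B ≤ c * B / 4 := by
    have e1 : κ * B ≤ c / 44 * B := mul_le_mul_of_nonneg_right hκ0 hB.le
    linarith
  have t3 : 4 * κ ^ 2 * ε ^ 2 * B ^ 2 ≤ c * B / 4 := by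
    have e1 : κ ^ 2 * ε ^ 2 * B * B ≤ c / 16 * B := mul_le_mul_of_nonneg_right hκε hB.le
    have e2 : 4 * κ ^ 2 * ε ^ 2 * B ^ 2 = 4 * (κ ^ 2 * ε ^ 2 * B * B) := by ring
    linarith
  have hcB : 0 < c * B := mul_pos hc0 hB
  linarith

end Pool.Agent.MFK.TC
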