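import Mathlib
import Pool.Agent.Work.MP_8826fd_mp.TC.StmtsM

set_option autoImplicit false

namespace Pool.Agent.MFK.TC

open MeasureTheory Set Filter Topology Pool.Agent.MFK

namespace IMT

/-- the derivative of the square of the positive part -/
theorem hasDerivAt_q (t : ℝ) : HasDerivAt (fun s : ℝ => (max 0 s) ^ 2) (2 * max 0 t) t := by
  rcases lt_trichotomy t 0 with h | h | h
  · have h1 : (fun s : ℝ => (max 0 s) ^ 2) =ᶠ[𝓝 t] fun _ => 0 := by
      filter_upwards [Iio_mem_nhds h] with s hs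
      rw [max_eq_left (le_of_lt hs)]
      norm_num
    rw [max_eq_left h.le, mul_zero]
    exact (hasDerivAt_const t (0 : ℝ)).congr_of_eventuallyEq h1
  · subst h
    rw [max_self, mul_zero]
    have h1 : (fun s : ℝ => (max 0 s) ^ 2) = fun s : ℝ => s * max 0 s := by
      funext s
      rcases le_total 0 s with h | h
      · rw [max_eq_right h, sq]
      · rw [max_eq_left h]
        ring
    rw [h1]
    have h2 : Tendsto (fun s : ℝ => max 0 s) (𝓝 0) (𝓝 0) := by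
      have h3 : Continuous fun s : ℝ => max 0 s := by fun_prop
      have h4 := h3.tendsto 0
      rwa [max_self] at h4
    rw [hasDerivAt_iff_tendsto_slope]
    have h3 : Tendsto (fun s : ℝ => max 0 s) (𝓝[≠] 0) (𝓝 0) := h2.mono_left nhdsWithin_le_nhds
    refine h3.congr' ?_
    filter_upwards [self_mem_nhdsWithin] with s hs
    have hs' : s ≠ 0 := hs
    rw [slope_def_field]
    field_simp
    simp
  · have h1 : (fun s : ℝ => (max 0 s) ^ 2) =ᶠ[𝓝 t] fun s => s ^ 2 := by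
      filter_upwards [Ioi_mem_nhds h] with s hs
      rw [max_eq_right (le_of_lt hs)]
    rw [max_eq_right h.le]
    have h2 := (hasDerivAt_pow 2 t).congr_of_eventuallyEq h1
    simpa using h2

theorem contDiff_q : ContDiff ℝ 1 (fun s : ℝ => (max 0 s) ^ 2) := by
  rw [contDiff_one_iff_deriv]
  refine ⟨fun t => (hasDerivAt_q t).differentiableAt, ?_⟩
  have h : deriv (fun s : ℝ => (max 0 s) ^ 2) = fun t => 2 * max 0 t := by
    funext t
    exact (hasDerivAt_q t).deriv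
  rw [h]
  fun_prop

/-- the phase -/
noncomputable def ph (B : ℝ) (x : ℝ × ℝ) : ℂ :=
  Complex.exp (Complex.I * ((B * x.1 * x.2 / 2 : ℝ) : ℂ))

/-- the trial function without the conditions -/
noncomputable def G (ρ B : ℝ) (x : ℝ × ℝ) : ℂ :=
  (((max 0 (1 - x.1 ^ 2 / ρ ^ 2)) ^ 2 : ℝ) : ℂ) * ph B x

theorem norm_ph (B : ℝ) (x : ℝ × ℝ) : ‖ph B x‖ = 1 := by
  unfold ph
  rw [mul_comm, Complex.norm_exp_ofReal_mul_I]

theorem contDiff_G (ρ B : ℝ) : ContDiff ℝ 1 (G ρ B) := by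
  unfold G ph
  have h1 : ContDiff ℝ 1 (fun x : ℝ × ℝ => (max 0 (1 - x.1 ^ 2 / ρ ^ 2)) ^ 2) := by
    have h2 : ContDiff ℝ 1 (fun x : ℝ × ℝ => 1 - x.1 ^ 2 / ρ ^ 2) := by fun_prop
    exact contDiff_q.comp h2
  have h3 : ContDiff ℝ 1 (fun x : ℝ × ℝ => (((max 0 (1 - x.1 ^ 2 / ρ ^ 2)) ^ 2 : ℝ) : ℂ)) :=
    Complex.ofRealCLM.contDiff.comp h1
  have h4 : ContDiff ℝ 1 (fun x : ℝ × ℝ => ((B * x.1 * x.2 / 2 : ℝ) : ℂ)) := by
    have h5 : ContDiff ℝ 1 (fun x : ℝ × ℝ => B * x.1 * x.2 / 2) := by fun_prop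
    exact Complex.ofRealCLM.contDiff.comp h5
  exact h3.mul ((contDiff_const.mul h4).cexp)

theorem hasFDerivAt_G (ρ B : ℝ) (x : ℝ × ℝ) :
    HasFDerivAt (G ρ B)
      ((((max 0 (1 - x.1 ^ 2 / ρ ^ 2)) ^ 2 : ℝ) : ℂ) •
          (ph B x • (Complex.I • (Complex.ofRealCLM.comp
            ((B * x.1 / 2) • ContinuousLinearMap.snd ℝ ℝ ℝ +
              (B * x.2 / 2) • ContinuousLinearMap.fst ℝ ℝ ℝ)))) +
        ph B x • (Complex.ofRealCLM.comp
          ((2 * max 0 (1 - x.1 ^ 2 / ρ ^ 2) * (-(2 * x.1 / ρ ^ 2))) •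
            ContinuousLinearMap.fst ℝ ℝ ℝ))) x := by
  have h1 : HasDerivAt (fun t : ℝ => 1 - t ^ 2 / ρ ^ 2) (-(2 * x.1 / ρ ^ 2)) x.1 := by
    have h2 := ((hasDerivAt_pow 2 x.1).div_const (ρ ^ 2)).const_sub 1
    simpa using h2
  have h2 : HasDerivAt (fun t : ℝ => (max 0 (1 - t ^ 2 / ρ ^ 2)) ^ 2)
      (2 * max 0 (1 - x.1 ^ 2 / ρ ^ 2) * (-(2 * x.1 / ρ ^ 2))) x.1 :=
    HasDerivAt.comp x.1 (h := fun t : ℝ => 1 - t ^ 2 / ρ ^ 2)
      (h₂ := fun s : ℝ => (max 0 s) ^ 2) (hasDerivAt_q (1 - x.1 ^ 2 / ρ ^ 2)) h1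
  have h3 : HasFDerivAt (fun y : ℝ × ℝ => (max 0 (1 - y.1 ^ 2 / ρ ^ 2)) ^ 2)
      ((2 * max 0 (1 - x.1 ^ 2 / ρ ^ 2) * (-(2 * x.1 / ρ ^ 2))) •
        ContinuousLinearMap.fst ℝ ℝ ℝ) x :=
    h2.comp_hasFDerivAt x hasFDerivAt_fst
  have h4 : HasFDerivAt (fun y : ℝ × ℝ => (((max 0 (1 - y.1 ^ 2 / ρ ^ 2)) ^ 2 : ℝ) : ℂ))
      (Complex.ofRealCLM.comp
          ((2 * max 0 (1 - x.1 ^ 2 / ρ ^ 2) * (-(2 * x.1 / ρ ^ 2))) •
            ContinuousLinearMap.fst ℝ ℝ ℝ)) x :=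
    Complex.ofRealCLM.hasFDerivAt.comp x h3
  have h5 : HasFDerivAt (fun y : ℝ × ℝ => B * y.1 * y.2 / 2)
      ((B * x.1 / 2) • ContinuousLinearMap.snd ℝ ℝ ℝ +
              (B * x.2 / 2) • ContinuousLinearMap.fst ℝ ℝ ℝ) x := by
    have h6 : HasFDerivAt (fun y : ℝ × ℝ => y.1) (ContinuousLinearMap.fst ℝ ℝ ℝ) x :=
      hasFDerivAt_fst
    have h7 : HasFDerivAt (fun y : ℝ × ℝ => y.2) (ContinuousLinearMap.snd ℝ ℝ ℝ) x :=
      hasFDerivAt_snd
    have h8 := (h6.mul h7).const_mul (B / 2)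
    have e1 : (fun y : ℝ × ℝ => B * y.1 * y.2 / 2) = fun y : ℝ × ℝ => B / 2 * (y.1 * y.2) := by
      funext y
      ring
    rw [e1]
    refine h8.congr_fderiv ?_
    rw [smul_add, smul_smul, smul_smul]
    congr 2 <;> ring
  have h6 : HasFDerivAt (fun y : ℝ × ℝ => ((B * y.1 * y.2 / 2 : ℝ) : ℂ))
      (Complex.ofRealCLM.comp ((B * x.1 / 2) • ContinuousLinearMap.snd ℝ ℝ ℝ +
              (B * x.2 / 2) • ContinuousLinearMap.fst ℝ ℝ ℝ)) x :=
    Complex.ofRealCLM.hasFDerivAt.comp x h5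
  have h7 := (h6.const_mul Complex.I).cexp
  have h8 := h4.mul h7
  exact h8

theorem fderiv_G (ρ B : ℝ) (x : ℝ × ℝ) :
    fderiv ℝ (G ρ B) x ((1 : ℝ), (0 : ℝ)) =
      (((2 * max 0 (1 - x.1 ^ 2 / ρ ^ 2) * (-(2 * x.1 / ρ ^ 2)) : ℝ) : ℂ) +
        (((max 0 (1 - x.1 ^ 2 / ρ ^ 2)) ^ 2 : ℝ) : ℂ) * (Complex.I * ((B * x.2 / 2 : ℝ) : ℂ))) *
        ph B x ∧
    fderiv ℝ (G ρ B) x ((0 : ℝ), (1 : ℝ)) =
      (((max 0 (1 - x.1 ^ 2 / ρ ^ 2)) ^ 2 : ℝ) : ℂ) * (Complex.I * ((B * x.1 / 2 : ℝ) : ℂ)) *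
        ph B x := by
  rw [(hasFDerivAt_G ρ B x).fderiv]
  constructor
  · simp only [_root_.add_apply, _root_.smul_apply, ContinuousLinearMap.comp_apply,
      Complex.ofRealCLM_apply, ContinuousLinearMap.coe_fst', ContinuousLinearMap.coe_snd',
      smul_eq_mul, mul_one, mul_zero, zero_add]
    ring
  · simp only [_root_.add_apply, _root_.smul_apply, ContinuousLinearMap.comp_apply,
      Complex.ofRealCLM_apply, ContinuousLinearMap.coe_fst', ContinuousLinearMap.coe_snd',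
      smul_eq_mul, mul_one, mul_zero, add_zero, Complex.ofReal_zero]
    ring

theorem normSq_G (ρ B : ℝ) (x : ℝ × ℝ) :
    ‖G ρ B x‖ ^ 2 = (max 0 (1 - x.1 ^ 2 / ρ ^ 2)) ^ 4 := by
  unfold G
  rw [norm_mul, norm_ph, mul_one, Complex.norm_real, Real.norm_eq_abs, sq_abs]
  ring

theorem eden_G (ρ B : ℝ) (x : ℝ × ℝ) : eden B (G ρ B) x =
    16 * x.1 ^ 2 / ρ ^ 4 * (max 0 (1 - x.1 ^ 2 / ρ ^ 2)) ^ 2 +
      B ^ 2 * x.2 ^ 2 * (max 0 (1 - x.1 ^ 2 / ρ ^ 2)) ^ 4 := by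
  obtain ⟨h1, h2⟩ := fderiv_G ρ B x
  unfold eden
  rw [h1, h2]
  set m : ℝ := max 0 (1 - x.1 ^ 2 / ρ ^ 2) with hm
  have e1 : (((2 * m * (-(2 * x.1 / ρ ^ 2)) : ℝ) : ℂ) +
        ((m ^ 2 : ℝ) : ℂ) * (Complex.I * ((B * x.2 / 2 : ℝ) : ℂ))) * ph B x -
        Complex.I * ((-(B * x.2 / 2) : ℝ) : ℂ) * G ρ B x =
      (((2 * m * (-(2 * x.1 / ρ ^ 2)) : ℝ) : ℂ) + ((m ^ 2 * (B * x.2) : ℝ) : ℂ) * Complex.I) *
        ph B x := by
    unfold G
    rw [← hm]
    push_cast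
    ring
  have e2 : ((m ^ 2 : ℝ) : ℂ) * (Complex.I * ((B * x.1 / 2 : ℝ) : ℂ)) * ph B x -
      Complex.I * ((B * x.1 / 2 : ℝ) : ℂ) * G ρ B x = 0 := by
    unfold G
    rw [← hm]
    ring
  rw [e1, e2, norm_mul, norm_ph, mul_one, norm_zero, Complex.sq_norm, Complex.normSq_add_mul_I]
  ring

end IMT

open IMT in
theorem pr_MT : StMT := by
  intro B κ ρ r Ω hκ hρ hρr hO h0 hside
  -- the local form of the trial function
  have hloc : ∀ x ∈ Ω, (0 < x.1 ∧ |x.2| < κ * x.1 ∧ nu κ ρ B =ᶠ[𝓝 x] G ρ B) ∨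
      (¬ (0 < x.1 ∧ x.1 < ρ ∧ |x.2| < κ * x.1) ∧ nu κ ρ B =ᶠ[𝓝 x] fun _ => 0) := by
    intro x hx
    by_cases hw : 0 < x.1 ∧ |x.2| < κ * x.1
    · left
      refine ⟨hw.1, hw.2, ?_⟩
      have ho : IsOpen {y : ℝ × ℝ | 0 < y.1 ∧ |y.2| < κ * y.1} :=
        (isOpen_lt continuous_const continuous_fst).inter
          (isOpen_lt (continuous_abs.comp continuous_snd) (continuous_const.mul continuous_fst))
      filter_upwards [ho.mem_nhds hw] with y hy
      unfold nu G ph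
      by_cases hy1 : y.1 < ρ
      · rw [if_pos ⟨hy.1, hy1, hy.2⟩]
        have h1 : 0 ≤ 1 - y.1 ^ 2 / ρ ^ 2 := by
          rw [sub_nonneg, div_le_one (by positivity)]
          exact pow_le_pow_left₀ hy.1.le hy1.le 2
        rw [max_eq_right h1]
      · rw [if_neg (fun h => hy1 h.2.1)]
        have h1 : 1 - y.1 ^ 2 / ρ ^ 2 ≤ 0 := by
          rw [sub_nonpos, le_div_iff₀ (by positivity), one_mul]
          exact pow_le_pow_left₀ hρ.le (not_lt.mp hy1) 2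
        rw [max_eq_left h1]
        simp
    · right
      refine ⟨fun h => hw ⟨h.1, h.2.2⟩, ?_⟩
      -- either `x₁ < 0`, or `κ x₁ < |x₂|`, or `ρ < x₁`
      have hcase : x.1 < 0 ∨ κ * x.1 < |x.2| ∨ ρ < x.1 := by
        rcases lt_trichotomy x.1 0 with h | h | h
        · exact Or.inl h
        · right; left
          rw [h, mul_zero, abs_pos]
          intro h2
          exact h0 (by
            have e : x = (0, 0) := Prod.ext h h2
            rwa [e] at hx)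
        · right
          by_cases hr : x.1 < r
          · left
            have h1 := hside x hx h hr
            have h2 : ¬ |x.2| < κ * x.1 := fun h3 => hw ⟨h, h3⟩
            exact lt_of_le_of_ne (not_lt.mp h2) (Ne.symm h1)
          · right
            exact lt_of_lt_of_le hρr (not_lt.mp hr)
      rcases hcase with h | h | h
      · have ho : IsOpen {y : ℝ × ℝ | y.1 < 0} := isOpen_lt continuous_fst continuous_const
        filter_upwards [ho.mem_nhds h] with y hy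
        unfold nu
        rw [if_neg (fun h => lt_asymm h.1 hy)]
      · have ho : IsOpen {y : ℝ × ℝ | κ * y.1 < |y.2|} :=
          isOpen_lt (continuous_const.mul continuous_fst) (continuous_abs.comp continuous_snd)
        filter_upwards [ho.mem_nhds h] with y hy
        unfold nu
        rw [if_neg (fun h => lt_asymm h.2.2 hy)]
      · have ho : IsOpen {y : ℝ × ℝ | ρ < y.1} := isOpen_lt continuous_const continuous_fst
        filter_upwards [ho.mem_nhds h] with y hy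
        unfold nu
        rw [if_neg (fun h => lt_asymm h.2.1 hy)]
  have hedc : ∀ (u w : ℝ × ℝ → ℂ) (x : ℝ × ℝ), u =ᶠ[𝓝 x] w → eden B u x = eden B w x := by
    intro u w x h
    unfold eden
    rw [h.fderiv_eq, h.eq_of_nhds]
  refine ⟨?_, ?_, ?_⟩
  · intro x hx
    rcases hloc x hx with h | h
    · exact ((contDiff_G ρ B).contDiffAt.congr_of_eventuallyEq h.2.2).contDiffWithinAt
    · exact (contDiff_const.contDiffAt.congr_of_eventuallyEq h.2).contDiffWithinAt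
  · intro x hx
    obtain ⟨hxO, hx1, hx2, hx3⟩ := hx
    have h1 : 0 ≤ 1 - x.1 ^ 2 / ρ ^ 2 := by
      rw [sub_nonneg, div_le_one (by positivity)]
      exact pow_le_pow_left₀ hx1.le hx2.le 2
    rcases hloc x hxO with h | h
    · rw [hedc _ _ x h.2.2, h.2.2.eq_of_nhds, normSq_G, eden_G, max_eq_right h1]
      exact ⟨rfl, rfl⟩
    · exact absurd ⟨hx1, hx2, hx3⟩ h.1
  · intro x hxO hx
    rcases hloc x hxO with h | h
    · have h2 : ρ ≤ x.1 := by
        by_contra hcon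
        exact hx ⟨hxO, h.1, not_le.mp hcon, h.2.1⟩
      have h1 : 1 - x.1 ^ 2 / ρ ^ 2 ≤ 0 := by
        rw [sub_nonpos, le_div_iff₀ (by positivity), one_mul]
        exact pow_le_pow_left₀ hρ.le h2 2
      rw [hedc _ _ x h.2.2, h.2.2.eq_of_nhds, normSq_G, eden_G, max_eq_left h1]
      constructor <;> ring
    · rw [hedc _ _ x h.2, h.2.eq_of_nhds]
      unfold eden
      simp

end Pool.Agent.MFK.TC
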