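import Mathlib
import Pool.Agent.Work.MP_8826fd_mp.TC.StmtsM

/-!
[8826fd TC] Item MW: the upper bound by the trial function in the needle.
-/

set_option autoImplicit false

namespace Pool.Agent.MFK.TC

open MeasureTheory Set Filter Topology Pool.Agent.MFK

namespace IMWb

theorem isOpen_Nd (κ ρ : ℝ) (Ω : Set (ℝ × ℝ)) (hO : IsOpen Ω) : IsOpen (Nd κ ρ Ω) := by
  have h1 : IsOpen {x : ℝ × ℝ | 0 < x.1} := isOpen_lt continuous_const continuous_fst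
  have h2 : IsOpen {x : ℝ × ℝ | x.1 < ρ} := isOpen_lt continuous_fst continuous_const
  have h3 : IsOpen {x : ℝ × ℝ | |x.2| < κ * x.1} :=
    isOpen_lt (continuous_snd.abs) (continuous_const.mul continuous_fst)
  have h4 : Nd κ ρ Ω = Ω ∩ ({x : ℝ × ℝ | 0 < x.1} ∩ ({x : ℝ × ℝ | x.1 < ρ} ∩ {x : ℝ × ℝ | |x.2| < κ * x.1})) := by
    ext x
    simp only [Nd, mem_setOf_eq, mem_inter_iff]
  rw [h4]
  exact hO.inter (h1.inter (h2.inter h3))

theorem Nd_sub (κ ρ : ℝ) (hκ : 0 < κ) (Ω : Set (ℝ × ℝ)) :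
    Nd κ ρ Ω ⊆ Icc ((0 : ℝ), -(κ * ρ)) (ρ, κ * ρ) := by
  rintro x ⟨-, h1, h2, h3⟩
  have h4 : κ * x.1 ≤ κ * ρ := mul_le_mul_of_nonneg_left h2.le hκ.le
  rw [abs_lt] at h3
  constructor
  · exact ⟨h1.le, by show -(κ * ρ) ≤ x.2; linarith⟩
  · exact ⟨h2.le, by show x.2 ≤ κ * ρ; linarith⟩

end IMWb

theorem pr_MWb (h1 : StTR) (h2 : StM2) (h3 : StMT) : StMW := by
  intro B κ ρ r ε Ω hκ hρ hρr hε hερ hO hN
  obtain ⟨hC, hin, hout⟩ := h3 B κ ρ r Ω hκ hρ hρr hO hN.zero hN.side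
  have hNo := IMWb.isOpen_Nd κ ρ Ω hO
  have hNs : Nd κ ρ Ω ⊆ Ω := fun x hx => hx.1
  have hNI := IMWb.Nd_sub κ ρ hκ Ω
  obtain ⟨f, hf⟩ : ∃ f : ℝ × ℝ → ℝ, f = fun x => (1 - x.1 ^ 2 / ρ ^ 2) ^ 4 := ⟨_, rfl⟩
  obtain ⟨g, hg⟩ : ∃ g : ℝ × ℝ → ℝ, g = fun x => 16 * x.1 ^ 2 / ρ ^ 4 * (1 - x.1 ^ 2 / ρ ^ 2) ^ 2 +
    B ^ 2 * x.2 ^ 2 * (1 - x.1 ^ 2 / ρ ^ 2) ^ 4 := ⟨_, rfl⟩
  obtain ⟨e, he⟩ : ∃ e : ℝ × ℝ → ℝ, e = fun x => exm ρ (B ^ 2 * κ ^ 2) x.1 := ⟨_, rfl⟩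
  have hfc : Continuous f := by
    rw [hf]
    fun_prop
  have hgc : Continuous g := by
    rw [hg]
    fun_prop
  have hec : Continuous e := by
    rw [he]
    unfold exm
    fun_prop
  have hfi : IntegrableOn f (Nd κ ρ Ω) :=
    (hfc.continuousOn.integrableOn_compact isCompact_Icc).mono_set hNI
  have hgi : IntegrableOn g (Nd κ ρ Ω) :=
    (hgc.continuousOn.integrableOn_compact isCompact_Icc).mono_set hNI
  have hei : IntegrableOn e (Nd κ ρ Ω) :=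
    (hec.continuousOn.integrableOn_compact isCompact_Icc).mono_set hNI
  have hu1 : ∀ x ∈ Nd κ ρ Ω, ‖nu κ ρ B x‖ ^ 2 = f x := by
    intro x hx
    rw [hf]
    exact (hin x hx).1
  have hu2 : ∀ x ∈ Nd κ ρ Ω, eden B (nu κ ρ B) x = g x := by
    intro x hx
    rw [hg]
    exact (hin x hx).2
  have hI1 : IntegrableOn (fun x => ‖nu κ ρ B x‖ ^ 2) Ω := by
    refine IntegrableOn.of_forall_diff_eq_zero (s := Nd κ ρ Ω) ?_ hO.measurableSet
      (fun x hx => (hout x hx.1 hx.2).1)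
    exact hfi.congr_fun (fun x hx => (hu1 x hx).symm) hNo.measurableSet
  have hI2 : IntegrableOn (fun x => eden B (nu κ ρ B) x) Ω := by
    refine IntegrableOn.of_forall_diff_eq_zero (s := Nd κ ρ Ω) ?_ hO.measurableSet
      (fun x hx => (hout x hx.1 hx.2).2)
    exact hgi.congr_fun (fun x hx => (hu2 x hx).symm) hNo.measurableSet
  have hE1 : (∫ x in Ω, ‖nu κ ρ B x‖ ^ 2) = ∫ x in Nd κ ρ Ω, f x := by
    rw [setIntegral_eq_of_subset_of_forall_diff_eq_zero hO.measurableSet hNs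
      (fun x hx => (hout x hx.1 hx.2).1)]
    exact setIntegral_congr_fun hNo.measurableSet hu1
  have hE2 : (∫ x in Ω, eden B (nu κ ρ B) x) = ∫ x in Nd κ ρ Ω, g x := by
    rw [setIntegral_eq_of_subset_of_forall_diff_eq_zero hO.measurableSet hNs
      (fun x hx => (hout x hx.1 hx.2).2)]
    exact setIntegral_congr_fun hNo.measurableSet hu2
  have hv : ∀ x ∈ Nd κ ρ Ω, 0 < 1 - x.1 ^ 2 / ρ ^ 2 := by
    rintro x ⟨-, ha, hb, -⟩
    have h4 : x.1 ^ 2 < ρ ^ 2 := by nlinarith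
    have h5 : x.1 ^ 2 / ρ ^ 2 < 1 := by
      rw [div_lt_one (by positivity)]
      exact h4
    linarith
  have hNne : (Nd κ ρ Ω).Nonempty := by
    obtain ⟨x, hx⟩ := hN.ne
    rcases lt_or_ge x.1 ρ with h4 | h4
    · exact ⟨x, hx.1, hx.2.1, h4, hx.2.2.2⟩
    · have hερ' : ε < ρ := by linarith
      have hx1 : 0 < x.1 := hx.2.1
      obtain ⟨m, hm1, hm2⟩ := exists_between hερ'
      have hm0 : 0 < m := lt_of_le_of_lt hε hm1
      have ht0 : 0 < m / x.1 := div_pos hm0 hx1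
      have ht1 : m / x.1 < 1 := by
        rw [div_lt_one hx1]
        linarith
      have ht2 : m / x.1 * x.1 = m := div_mul_cancel₀ m hx1.ne'
      refine ⟨(m / x.1 * x.1, m / x.1 * x.2), hN.star x hx _ ht0 ht1 (by rw [ht2]; exact hm1), ?_, ?_, ?_⟩
      · show 0 < m / x.1 * x.1
        rw [ht2]
        exact hm0
      · show m / x.1 * x.1 < ρ
        rw [ht2]
        exact hm2
      · show |m / x.1 * x.2| < κ * (m / x.1 * x.1)
        rw [abs_mul, abs_of_pos ht0]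
        have := mul_lt_mul_of_pos_left hx.2.2.2 ht0
        linarith
  have hpos : 0 < ∫ x in Nd κ ρ Ω, f x := by
    rw [setIntegral_pos_iff_support_of_nonneg_ae]
    · have h4 : Nd κ ρ Ω ⊆ Function.support f ∩ Nd κ ρ Ω := by
        intro x hx
        refine ⟨?_, hx⟩
        rw [Function.mem_support, hf]
        exact (pow_pos (hv x hx) 4).ne'
      exact lt_of_lt_of_le (hNo.measure_pos volume hNne) (measure_mono h4)
    · refine (ae_restrict_iff' hNo.measurableSet).2 (Filter.Eventually.of_forall fun x hx => ?_)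
      rw [hf]
      exact (pow_pos (hv x hx) 4).le
    · exact hfi
  have hM := h2 κ ρ r ε (B ^ 2 * κ ^ 2) Ω hκ hρ hρr hε hερ (by positivity) hO hN
  have hM' : (∫ x in Nd κ ρ Ω, e x) ≤ 0 := by
    rw [he]
    exact hM
  have hle : (∫ x in Nd κ ρ Ω, g x) ≤
      ∫ x in Nd κ ρ Ω, (e x + (30 / ρ ^ 2 + B ^ 2 * κ ^ 2 * ρ ^ 2) * f x) := by
    refine setIntegral_mono_on hgi (hei.add (hfi.const_mul _)) hNo.measurableSet ?_
    rintro x ⟨-, ha, -, hc⟩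
    have h5 : x.2 ^ 2 ≤ κ ^ 2 * x.1 ^ 2 := by
      have h6 := abs_lt.1 hc
      nlinarith [h6.1, h6.2]
    have h7 : 0 ≤ B ^ 2 * (1 - x.1 ^ 2 / ρ ^ 2) ^ 4 := by positivity
    have h8 := mul_le_mul_of_nonneg_left h5 h7
    rw [hg, he, hf]
    simp only [exm]
    nlinarith [h8]
  rw [integral_add hei (hfi.const_mul _), integral_const_mul] at hle
  have hfin := h1 B Ω (nu κ ρ B) hO hC hI1 hI2 (by rw [hE1]; exact hpos)
  refine hfin.trans ?_
  rw [hE1, hE2, div_le_iff₀ hpos]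
  linarith

end Pool.Agent.MFK.TC
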