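import Mathlib
import Pool.Agent.Work.MP_8826fd_mp.TC.StmtsM

set_option autoImplicit false

namespace Pool.Agent.MFK.TC

open MeasureTheory Set Filter Topology Pool.Agent.MFK

/-- Item MX: the bound of the ground state of a domain with a rounded needle. -/
theorem pr_MX (h1 : StMW) : StMX := by
  intro B κ r ε Ω hB hκ hr hε hεr hΩ hN
  have hκB : 0 < κ * B := mul_pos hκ hB
  have hbd : ∀ ρ : ℝ, 0 < ρ → ρ < r → 2 * ε ≤ ρ → lamN B Ω ≤ 30 / ρ ^ 2 + B ^ 2 * κ ^ 2 * ρ ^ 2 :=
    fun ρ h0 h2 h3 => h1 B κ ρ r ε Ω hκ h0 h2 hε h3 hΩ hN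
  have hr2 : 0 ≤ 30 / r ^ 2 := by positivity
  by_cases hA : 5 / (κ * B) < 4 * ε ^ 2
  · have hε0 : 0 < ε := by
      rcases hε.lt_or_eq with h | h
      · exact h
      · exfalso
        rw [← h] at hA
        have : 0 < 5 / (κ * B) := by positivity
        nlinarith
    have h := hbd (2 * ε) (by linarith) hεr le_rfl
    have h2 : 30 / (2 * ε) ^ 2 ≤ 6 * (κ * B) := by
      rw [div_lt_iff₀ hκB] at hA
      rw [div_le_iff₀ (by positivity)]
      nlinarith
    have h3 : B ^ 2 * κ ^ 2 * (2 * ε) ^ 2 = 4 * κ ^ 2 * ε ^ 2 * B ^ 2 := by ring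
    have h4 : 11 * κ * B = 11 * (κ * B) := by ring
    rw [h3] at h
    rw [h4]
    linarith
  · have hA' : 4 * ε ^ 2 ≤ 5 / (κ * B) := not_lt.1 hA
    have h5 : 0 ≤ 4 * κ ^ 2 * ε ^ 2 * B ^ 2 := by positivity
    by_cases hC : 5 / (κ * B) < r ^ 2
    · have h0 : 0 < 5 / (κ * B) := by positivity
      have hs : Real.sqrt (5 / (κ * B)) ^ 2 = 5 / (κ * B) := Real.sq_sqrt h0.le
      have hs0 : 0 < Real.sqrt (5 / (κ * B)) := Real.sqrt_pos.2 h0
      have hlt : Real.sqrt (5 / (κ * B)) < r := by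
        rw [Real.sqrt_lt' hr]
        exact hC
      have hle : 2 * ε ≤ Real.sqrt (5 / (κ * B)) := by
        apply Real.le_sqrt_of_sq_le
        nlinarith
      have h := hbd _ hs0 hlt hle
      rw [hs] at h
      have h6 : 30 / (5 / (κ * B)) = 6 * (κ * B) := by
        field_simp
        norm_num
      have h7 : B ^ 2 * κ ^ 2 * (5 / (κ * B)) = 5 * (κ * B) := by
        field_simp
      rw [h6, h7] at h
      have h4 : 11 * κ * B = 11 * (κ * B) := by ring
      rw [h4]
      linarith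
    · have hC' : r ^ 2 ≤ 5 / (κ * B) := not_lt.1 hC
      have hkey : lamN B Ω ≤ 30 / r ^ 2 + 5 * (κ * B) := by
        have ht : Tendsto (fun ρ : ℝ => 30 / ρ ^ 2 + 5 * (κ * B)) (𝓝[<] r)
            (𝓝 (30 / r ^ 2 + 5 * (κ * B))) := by
          refine Tendsto.mono_left ?_ nhdsWithin_le_nhds
          have hc : ContinuousAt (fun ρ : ℝ => 30 / ρ ^ 2 + 5 * (κ * B)) r := by
            refine ContinuousAt.add ?_ continuousAt_const
            exact ContinuousAt.div continuousAt_const (continuousAt_id.pow 2) (pow_ne_zero 2 hr.ne')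
          exact hc
        refine ge_of_tendsto ht ?_
        have hmx : max (2 * ε) 0 < r := max_lt hεr hr
        filter_upwards [Ioo_mem_nhdsLT hmx] with ρ hρ
        have hρ0 : 0 < ρ := lt_of_le_of_lt (le_max_right _ _) hρ.1
        have hρε : 2 * ε ≤ ρ := (le_max_left (2 * ε) 0).trans hρ.1.le
        have h := hbd ρ hρ0 hρ.2 hρε
        have h8 : ρ ^ 2 ≤ 5 / (κ * B) := by
          have : ρ ^ 2 ≤ r ^ 2 := pow_le_pow_left₀ hρ0.le hρ.2.le 2
          linarith
        have h9 : B ^ 2 * κ ^ 2 * ρ ^ 2 ≤ 5 * (κ * B) := by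
          rw [le_div_iff₀ hκB] at h8
          have : B ^ 2 * κ ^ 2 * ρ ^ 2 = (ρ ^ 2 * (κ * B)) * (κ * B) := by ring
          rw [this]
          exact mul_le_mul_of_nonneg_right h8 hκB.le
        linarith
      have h4 : 11 * κ * B = 11 * (κ * B) := by ring
      rw [h4]
      linarith

end Pool.Agent.MFK.TC
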