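import Pool.Agent.Work.MP_8826fd_mp.TC.All
import Pool.Agent.Work.MP_8826fd_mp.TC.StmtsM
import Pool.Agent.Work.MP_8826fd_mp.TC.Disc
import Pool.Agent.Work.MP_8826fd_mp.TC.I_M1
import Pool.Agent.Work.MP_8826fd_mp.TC.I_M2
import Pool.Agent.Work.MP_8826fd_mp.TC.I_MT
import Pool.Agent.Work.MP_8826fd_mp.TC.I_MWb
import Pool.Agent.Work.MP_8826fd_mp.TC.I_MX
import Pool.Agent.Work.MP_8826fd_mp.TC.I_ME
import Pool.Agent.Work.MP_8826fd_mp.TC.I_MFb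

/-!
[8826fd TC] Assembly: needles.
-/

set_option autoImplicit false

namespace Pool.Agent.MFK.TC

open MeasureTheory Set Filter Topology Pool.Agent.MFK

/-- `Ω` has a needle of slope `κ` and length `r` at the point `p ∉ Ω` in the direction `(a, d)`: for `0 < x < r` no point of `Ω` lies
on the sides `|y| = κ x` of the wedge, and the part of `Ω` in the wedge `|y| < κ x`, `0 < x < r` is nonempty and star-shaped
towards `p` down to `x > ε`. Here `(x, y) = mv p a d z` are the coordinates of `z`. -/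
structure Needle (κ r ε : ℝ) (p : ℝ × ℝ) (a d : ℝ) (Ω : Set (ℝ × ℝ)) : Prop where
  tip : p ∉ Ω
  sides : ∀ z ∈ Ω, 0 < (mv p a d z).1 → (mv p a d z).1 < r → |(mv p a d z).2| ≠ κ * (mv p a d z).1
  nonempty : ∃ z ∈ Ω, 0 < (mv p a d z).1 ∧ (mv p a d z).1 < r ∧ |(mv p a d z).2| < κ * (mv p a d z).1
  star : ∀ z ∈ Ω, 0 < (mv p a d z).1 → (mv p a d z).1 < r → |(mv p a d z).2| < κ * (mv p a d z).1 →
    ∀ t : ℝ, 0 < t → t < 1 → ε < t * (mv p a d z).1 → (p.1 + t * (z.1 - p.1), p.2 + t * (z.2 - p.2)) ∈ Ω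

theorem ndm_of (κ r ε : ℝ) (p : ℝ × ℝ) (a d : ℝ) (Ω : Set (ℝ × ℝ)) (had : a ^ 2 + d ^ 2 = 1)
    (h : Needle κ r ε p a d Ω) : Ndm κ r ε (mv p a d '' Ω) := by
  constructor
  · rintro ⟨x, hx, hx0⟩
    apply h.tip
    have h1 := (pr_PV p a d had).2.2.1 x
    rw [hx0] at h1
    have h2 : x = p := by
      rw [← h1]
      ext <;> simp
    rw [← h2]
    exact hx
  · rintro _ ⟨x, hx, rfl⟩ h1 h2
    exact h.sides x hx h1 h2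
  · obtain ⟨z, hz, h1, h2, h3⟩ := h.nonempty
    exact ⟨mv p a d z, ⟨z, hz, rfl⟩, h1, h2, h3⟩
  · rintro _ ⟨⟨x, hx, rfl⟩, h1, h2, h3⟩ t ht0 ht1 ht
    refine ⟨_, h.star x hx h1 h2 h3 t ht0 ht1 ht, ?_⟩
    simp only [mv]
    ext <;> simp only [] <;> ring

theorem hMF : StMF := pr_MFb (pr_ME (pr_MX (pr_MWb pr_TR (pr_M2 pr_M1) pr_MT))
  (pr_DE (pr_DB pr_DA) (pr_DC pr_DA) (pr_DD pr_DA))) hPI pr_PV

theorem hNeedle : ∃ κ₀ > (0 : ℝ), ∃ C > (0 : ℝ), ∃ c₁ > (0 : ℝ), ∀ (B R κ r ε a d : ℝ) (Ω : Set (ℝ × ℝ))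
    (p : ℝ × ℝ), 0 < B → 0 < R → 0 < κ → κ ≤ κ₀ → C * R ≤ r → 0 ≤ ε → 2 * ε < r → κ ^ 2 * ε ^ 2 * B ≤ c₁ →
    IsOpen Ω → SimplyConnectedSpace Ω → volume Ω = volume (edisc (0, 0) R) → a ^ 2 + d ^ 2 = 1 →
    Needle κ r ε p a d Ω →
    lamN B Ω ≤ lamN B (edisc (0, 0) R) ∧
      (lamN B Ω = lamN B (edisc (0, 0) R) → 0 < ε ∧ ∃ q : ℝ × ℝ, Ω = edisc q R) := by
  obtain ⟨κ₀, h1, C, h2, c₁, h3, h⟩ := hMF
  refine ⟨κ₀, h1, C, h2, c₁, h3, ?_⟩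
  intro B R κ r ε a d Ω p hB hR hκ hκ0 hr hε hεr hc hO hS hv had hN
  have hNm := ndm_of κ r ε p a d Ω had hN
  obtain ⟨h4, h5⟩ := h B R κ r ε a d Ω p hB hR hκ hκ0 hr hε hεr hc hO hS hv had hNm
  refine ⟨h4, fun heq => ?_⟩
  obtain ⟨q, hq⟩ := h5 heq
  refine ⟨lt_of_le_of_ne hε ?_, q, hq⟩
  intro h0
  rw [← h0, hq] at hNm
  exact not_ndm_disc κ r R q p a d hκ ((mul_pos h2 hR).trans_le hr) hR had hNm

end Pool.Agent.MFK.TC
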