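import Mathlib
import Pool.Agent.Work.MP_8826fd_mp.TC.Stmts

/-!
Item DB of block [8826fd TC]: the lower bound `(M + p) / 16 < lam` for `16 < M + p`.
-/

set_option autoImplicit false

namespace Pool.Agent.MFK.TC

open MeasureTheory Set Filter Topology Pool.Agent.MFK

namespace IDB

/-- The induction `be k ≤ k / 4` for `k ≤ s`, `s ^ 2 = M + p`. -/
theorem be_le {p M lam : ℝ} {m : ℕ} {al be : ℕ → ℝ} (F : Facts p M lam m al be) {s : ℝ}
    (hs : 4 < s) (hs2 : s ^ 2 = M + p) (hp : p ≤ s / 4 + 1) (hlam : lam ≤ s ^ 2 / 16) :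
    ∀ k : ℕ, (k : ℝ) ≤ s → be k ≤ (k : ℝ) / 4 := by
  intro k
  induction k with
  | zero =>
    intro _
    rw [F.be0]
    simp
  | succ k ih =>
    intro hk
    have hk1 : (k : ℝ) + 1 ≤ s := by
      have h := hk
      push_cast at h
      exact h
    have hk0 : (0 : ℝ) ≤ (k : ℝ) := Nat.cast_nonneg k
    have hbk : be k ≤ (k : ℝ) / 4 := ih (by linarith)
    have hb0 : 0 ≤ be k := F.be_nonneg k
    have hD : 0 < M + k - be k := F.be_den k
    have hrec := F.be_rec k
    have hDM : s ^ 2 - s / 4 - 1 ≤ M + k - be k := by linarith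
    have hsq : (be k) ^ 2 ≤ s ^ 2 / 16 := by
      have h1 : be k ≤ s / 4 := by linarith
      nlinarith
    have hq : -(1 / 4 : ℝ) ≤ ((k : ℝ) - p) * ((k : ℝ) - p + 1) := by
      nlinarith [sq_nonneg ((k : ℝ) - p + 1 / 2)]
    have hnum : (be (k + 1) - be k) * (M + k - be k) ≤ (1 / 4) * (M + k - be k) := by
      have h2 : (be (k + 1) - be k) * (M + k - be k)
          = be k + (be k) ^ 2 - ((k : ℝ) - p) * ((k : ℝ) - p + 1) + lam := by
        linear_combination hrec
      rw [h2]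
      nlinarith
    have h3 : be (k + 1) - be k ≤ 1 / 4 := le_of_mul_le_mul_right hnum hD
    push_cast
    linarith

end IDB

theorem pr_DB (h1 : StDA) : StDB := by
  intro p M lam m al be F hB
  by_contra hcon
  have hlam : lam ≤ (M + p) / 16 := not_lt.mp hcon
  obtain ⟨hda, _⟩ := h1 p M lam m al be F
  have hB0 : (0 : ℝ) ≤ M + p := by linarith
  set s : ℝ := Real.sqrt (M + p) with hsdef
  have hs2 : s ^ 2 = M + p := Real.sq_sqrt hB0
  have hs0 : 0 ≤ s := Real.sqrt_nonneg _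
  have hs : 4 < s := by nlinarith
  have hlam2 : lam ≤ s ^ 2 / 16 := by rw [hs2]; exact hlam
  have hp : p ≤ s / 4 + 1 := by
    by_contra hp
    have hp2 : s / 4 + 1 < p := not_le.mp hp
    nlinarith
  have hk : ((⌊s⌋₊ : ℕ) : ℝ) ≤ s := Nat.floor_le hs0
  have hk2 : s < ((⌊s⌋₊ : ℕ) : ℝ) + 1 := Nat.lt_floor_add_one s
  have hb := IDB.be_le F hs hs2 hp hlam2 _ hk
  have hg := F.be_ge ⌊s⌋₊
  linarith

end Pool.Agent.MFK.TC
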