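import Mathlib
import Pool.Agent.Work.MP_8826fd_mp.TC.StmtsP

/-!
[8826fd TC] Item GG: the general theorem in general position.
-/

set_option autoImplicit false

namespace Pool.Agent.MFK.TC

open MeasureTheory Set Filter Topology Pool.Agent.MFK

namespace IGG

/-- The inverse of `mv p a d`. -/
def inv (p : ℝ × ℝ) (a d : ℝ) (y : ℝ × ℝ) : ℝ × ℝ :=
  (p.1 + a * y.1 - d * y.2, p.2 + d * y.1 + a * y.2)

theorem inv_cont (p : ℝ × ℝ) (a d : ℝ) : Continuous (inv p a d) := by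
  unfold inv
  fun_prop

theorem image_eq (p : ℝ × ℝ) (a d : ℝ) (h1 : ∀ y, mv p a d (inv p a d y) = y)
    (h2 : ∀ x, inv p a d (mv p a d x) = x) (Ω : Set (ℝ × ℝ)) :
    mv p a d '' Ω = inv p a d ⁻¹' Ω := by
  ext y
  constructor
  · rintro ⟨x, hx, rfl⟩
    show inv p a d (mv p a d x) ∈ Ω
    rw [h2]
    exact hx
  · intro hy
    exact ⟨inv p a d y, hy, h1 y⟩

theorem preimage_image (p : ℝ × ℝ) (a d : ℝ) (h2 : ∀ x, inv p a d (mv p a d x) = x)
    (Ω : Set (ℝ × ℝ)) : mv p a d ⁻¹' (mv p a d '' Ω) = Ω := by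
  apply Set.preimage_image_eq
  intro x y hxy
  have := congrArg (inv p a d) hxy
  rwa [h2, h2] at this

theorem strip (p : ℝ × ℝ) (a d W : ℝ) (h0 : a ^ 2 + d ^ 2 = 1)
    (h2 : ∀ x, inv p a d (mv p a d x) = x) (Ω : Set (ℝ × ℝ)) (h : Strip W Ω) :
    Strip W (mv p a d '' Ω) := by
  obtain ⟨a', d', c, h3, h4⟩ := h
  refine ⟨a' * a + d' * d, -(a' * d) + d' * a, c - a' * p.1 - d' * p.2, ?_, ?_⟩
  · have : (a' * a + d' * d) ^ 2 + (-(a' * d) + d' * a) ^ 2 =
        (a' ^ 2 + d' ^ 2) * (a ^ 2 + d ^ 2) := by ring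
    rw [this, h3, h0]
    norm_num
  · rintro y ⟨x, hx, rfl⟩
    have h5 := h4 x hx
    have h6 : x = inv p a d (mv p a d x) := (h2 x).symm
    have h7 : x.1 = p.1 + a * (mv p a d x).1 - d * (mv p a d x).2 := congrArg Prod.fst h6
    have h8 : x.2 = p.2 + d * (mv p a d x).1 + a * (mv p a d x).2 := congrArg Prod.snd h6
    have h9 : (a' * a + d' * d) * (mv p a d x).1 + (-(a' * d) + d' * a) * (mv p a d x).2 -
        (c - a' * p.1 - d' * p.2) = a' * x.1 + d' * x.2 - c := by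
      rw [h7, h8]
      ring
    rw [h9]
    exact h5

end IGG

theorem pr_GG (h1 : StGR) (h2 : StPI) (h3 : StPV) : StGG := by
  intro B R κ ε W Ω p a d hB hR hκ hε hO hvol had hWd hSt hW hsm
  obtain ⟨c1, c2, c3, c4⟩ := h3 p a d had
  have i1 : ∀ y, mv p a d (IGG.inv p a d y) = y := c2
  have i2 : ∀ x, IGG.inv p a d (mv p a d x) = x := c3
  have hpre := IGG.preimage_image p a d i2 Ω
  have hopen : IsOpen (mv p a d '' Ω) := by
    rw [IGG.image_eq p a d i1 i2 Ω]
    exact hO.preimage (IGG.inv_cont p a d)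
  have hv : volume (mv p a d '' Ω) = volume Ω := by
    have := c4.measure_preimage hopen.measurableSet.nullMeasurableSet
    rw [hpre] at this
    exact this.symm
  have hmain := h1 B R κ ε W (mv p a d '' Ω) hB hR hκ hε hopen (hv.trans hvol) hWd
    (IGG.strip p a d W had i2 Ω hSt) hW hsm
  have hl := h2 B p a d (mv p a d '' Ω) had hopen
  rw [hpre] at hl
  rw [hl]
  exact hmain

end Pool.Agent.MFK.TC
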