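import Mathlib
import Pool.Agent.Work.MP_8826fd_mp.TC.StmtsM
import Pool.Agent.Work.MP_8826fd_mp.RT.All

/-! [8826fd TC] Item MF: needles with a rounded tip, all fields. -/

set_option autoImplicit false

namespace Pool.Agent.MFK.TC

open MeasureTheory Set Filter Topology Pool.Agent.MFK

namespace IMF

/-- The inverse map. -/
def iv (p : ℝ × ℝ) (a d : ℝ) (y : ℝ × ℝ) : ℝ × ℝ :=
  (p.1 + a * y.1 - d * y.2, p.2 + d * y.1 + a * y.2)

theorem iv_cont (p : ℝ × ℝ) (a d : ℝ) : Continuous (iv p a d) := by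
  unfold iv
  fun_prop

end IMF

theorem pr_MF (h1 : StME) (h2 : StPI) (h3 : StPV) : StMF := by
  obtain ⟨b, hb, -, hF⟩ := RT.hFinD
  obtain ⟨κ₀, hκ₀, C, hC, c₁, hc₁, hE⟩ := h1 b hb
  refine ⟨κ₀, hκ₀, C, hC, c₁, hc₁, ?_⟩
  intro B R κ r ε a d Ω p hB hR hκ hκκ hCr hε hεr hc hO hS hV had hN
  obtain ⟨c1', c2, c3, c4⟩ := h3 p a d had
  have c2' : ∀ y, mv p a d (IMF.iv p a d y) = y := c2
  have c3' : ∀ x, IMF.iv p a d (mv p a d x) = x := c3
  have himg : mv p a d '' Ω = IMF.iv p a d ⁻¹' Ω := by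
    ext y
    constructor
    · rintro ⟨x, hx, rfl⟩
      rw [mem_preimage, c3']
      exact hx
    · intro hy
      exact ⟨IMF.iv p a d y, hy, c2' y⟩
  rw [himg] at hN
  have hO' : IsOpen (IMF.iv p a d ⁻¹' Ω) := hO.preimage (IMF.iv_cont p a d)
  have hpre : mv p a d ⁻¹' (IMF.iv p a d ⁻¹' Ω) = Ω := by
    ext x
    simp only [mem_preimage, c3']
  have e4 := h2 B p a d (IMF.iv p a d ⁻¹' Ω) had hO'
  rw [hpre] at e4
  rcases le_or_gt b (B * R ^ 2) with hbR | hbR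
  · have key := hE B R κ r ε (IMF.iv p a d ⁻¹' Ω) hR hbR hκ hκκ hCr hε hεr hc hO' hN
    rw [← e4] at key
    exact ⟨key.le, fun h => absurd h key.ne⟩
  · obtain ⟨c, hc0, hc2⟩ := hF B R hB hR hbR.le
    obtain ⟨q, hq1, hq2⟩ := hc2 Ω hO hS hV
    refine ⟨?_, fun h => ⟨q, hq2 h⟩⟩
    have hnn : 0 ≤ c * ∫ x in symmDiff Ω (edisc q R),
        min |Real.sqrt ((x.1 - q.1) ^ 2 + (x.2 - q.2) ^ 2) - R| R := by
      refine mul_nonneg hc0.le (integral_nonneg fun x => ?_)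
      exact le_min (abs_nonneg _) hR.le
    exact hq1.trans (sub_le_self _ hnn)

end Pool.Agent.MFK.TC
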