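import Mathlib
import Pool.Agent.Work.MP_8826fd_mp.TC.StmtsN

/-!
[8826fd TC] Item NF, first part: needles for all fields, from the theorem for small fields.
-/

set_option autoImplicit false

namespace Pool.Agent.MFK.TC

open MeasureTheory Set Filter Topology Pool.Agent.MFK

namespace INF

/-- The theorem for small fields, without the deficit. -/
def Small : Prop := ∃ b : ℝ, 0 < b ∧ ∀ B R : ℝ, 0 < B → 0 < R → B * R ^ 2 ≤ b →
  ∀ Ω : Set (ℝ × ℝ), IsOpen Ω → SimplyConnectedSpace Ω → volume Ω = volume (edisc (0, 0) R) →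
    lamN B Ω < lamN B (edisc (0, 0) R) ∨ ∃ q : ℝ × ℝ, Ω = edisc q R

theorem image_eq (hPV : StPV) (p : ℝ × ℝ) (a d : ℝ) (had : a ^ 2 + d ^ 2 = 1)
    (Ω : Set (ℝ × ℝ)) : mv p a d '' Ω =
      (fun y : ℝ × ℝ => (p.1 + a * y.1 - d * y.2, p.2 + d * y.1 + a * y.2)) ⁻¹' Ω := by
  obtain ⟨-, h2, h3, -⟩ := hPV p a d had
  ext y
  constructor
  · rintro ⟨x, hx, rfl⟩
    show (p.1 + a * (mv p a d x).1 - d * (mv p a d x).2,
      p.2 + d * (mv p a d x).1 + a * (mv p a d x).2) ∈ Ω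
    rw [h3 x]
    exact hx
  · intro hy
    exact ⟨_, hy, h2 y⟩

theorem preimage_image (hPV : StPV) (p : ℝ × ℝ) (a d : ℝ) (had : a ^ 2 + d ^ 2 = 1)
    (Ω : Set (ℝ × ℝ)) : mv p a d ⁻¹' (mv p a d '' Ω) = Ω := by
  obtain ⟨-, -, h3, -⟩ := hPV p a d had
  apply Set.preimage_image_eq
  intro x y hxy
  rw [← h3 x, ← h3 y, hxy]

theorem image_disc (hPV : StPV) (p : ℝ × ℝ) (a d : ℝ) (had : a ^ 2 + d ^ 2 = 1)
    (q : ℝ × ℝ) (R : ℝ) : mv p a d '' edisc q R = edisc (mv p a d q) R := by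
  rw [image_eq hPV p a d had]
  ext y
  show (p.1 + a * y.1 - d * y.2 - q.1) ^ 2 + (p.2 + d * y.1 + a * y.2 - q.2) ^ 2 < R ^ 2 ↔
    (y.1 - (a * (q.1 - p.1) + d * (q.2 - p.2))) ^ 2 +
      (y.2 - (-(d * (q.1 - p.1)) + a * (q.2 - p.2))) ^ 2 < R ^ 2
  have e : (p.1 + a * y.1 - d * y.2 - q.1) ^ 2 + (p.2 + d * y.1 + a * y.2 - q.2) ^ 2 =
      (y.1 - (a * (q.1 - p.1) + d * (q.2 - p.2))) ^ 2 +
        (y.2 - (-(d * (q.1 - p.1)) + a * (q.2 - p.2))) ^ 2 := by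
    linear_combination (y.1 ^ 2 + y.2 ^ 2 - (q.1 - p.1) ^ 2 - (q.2 - p.2) ^ 2) * had
  rw [e]

theorem nf_of (hS : Small) (h1 : StNE) (h2 : StND) (h3 : StPI) (h4 : StPV) : StNF := by
  obtain ⟨b, hb, hsm⟩ := hS
  obtain ⟨κ₀, hκ₀, C, hC, hne⟩ := h1 b hb
  refine ⟨κ₀, hκ₀, C, hC, ?_⟩
  intro B R κ r a d Ω p hB hR hκ hκ' hr hO hsc hvol had hN
  rcases le_or_gt b (B * R ^ 2) with hbig | hsmall
  · have hO' : IsOpen (mv p a d '' Ω) := by
      rw [image_eq h4 p a d had]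
      exact hO.preimage (by fun_prop)
    have hlt := hne B R κ r (mv p a d '' Ω) hR hbig hκ hκ' hr hO' hN
    have e := h3 B p a d (mv p a d '' Ω) had hO'
    rw [preimage_image h4 p a d had] at e
    rw [e]
    exact hlt
  · rcases hsm B R hB hR hsmall.le Ω hO hsc hvol with h | ⟨q, hq⟩
    · exact h
    · exfalso
      rw [hq, image_disc h4 p a d had] at hN
      have hr0 : 0 < r := lt_of_lt_of_le (by positivity) hr
      exact h2 κ r R _ hκ hr0 hR hN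

end INF

end Pool.Agent.MFK.TC
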