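import Mathlib
import Pool.Agent.Work.MP_8826fd_mp.TC.StmtsM
import Pool.Agent.Work.MP_8826fd_mp.TC.I_NFa
import Pool.Agent.Work.MP_8826fd_mp.RT.All

/-!
[8826fd TC] Item MF: needles with a rounded tip (the proof of NF by helper95, adapted).
-/

set_option autoImplicit false

namespace Pool.Agent.MFK.TC

open MeasureTheory Set Filter Topology Pool.Agent.MFK

theorem pr_MFb (h1 : StME) (h3 : StPI) (h4 : StPV) : StMF := by
  obtain ⟨b, hb, -, hF⟩ := RT.hFinD
  obtain ⟨κ₀, hκ₀, C, hC, c₁, hc₁, hne⟩ := h1 b hb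
  refine ⟨κ₀, hκ₀, C, hC, c₁, hc₁, ?_⟩
  intro B R κ r ε a d Ω p hB hR hκ hκ' hr hε hεr hcε hO hsc hvol had hN
  rcases le_or_gt b (B * R ^ 2) with hbig | hsmall
  · have hO' : IsOpen (mv p a d '' Ω) := by
      rw [INF.image_eq h4 p a d had]
      exact hO.preimage (by fun_prop)
    have hlt := hne B R κ r ε (mv p a d '' Ω) hR hbig hκ hκ' hr hε hεr hcε hO' hN
    have e := h3 B p a d (mv p a d '' Ω) had hO'
    rw [INF.preimage_image h4 p a d had] at e
    rw [e]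
    exact ⟨hlt.le, fun h => absurd h hlt.ne⟩
  · obtain ⟨c, hc, hq⟩ := hF B R hB hR hsmall.le
    have hvol' : volume Ω = volume (edisc 0 R) := hvol
    obtain ⟨q, hle, heq⟩ := hq Ω hO hsc hvol'
    have h0 : 0 ≤ ∫ x in symmDiff Ω (edisc q R),
        min |Real.sqrt ((x.1 - q.1) ^ 2 + (x.2 - q.2) ^ 2) - R| R :=
      integral_nonneg fun x => le_min (abs_nonneg _) hR.le
    have h1 : lamN B Ω ≤ lamN B (edisc 0 R) := by
      have := mul_nonneg hc.le h0
      linarith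
    exact ⟨h1, fun h2 => ⟨q, heq h2⟩⟩

end Pool.Agent.MFK.TC
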