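import Mathlib
import Pool.Agent.Work.MP_8826fd_mp.TC.StmtsM

/-!
[8826fd TC] Item MW: the trial function in a needle with a rounded tip.
-/

set_option autoImplicit false

namespace Pool.Agent.MFK.TC

open MeasureTheory Set Filter Topology Pool.Agent.MFK

namespace IMW

theorem nd_open {κ ρ : ℝ} {Ω : Set (ℝ × ℝ)} (hΩ : IsOpen Ω) : IsOpen (Nd κ ρ Ω) := by
  have h1 : IsOpen {x : ℝ × ℝ | 0 < x.1} := isOpen_lt continuous_const continuous_fst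
  have h2 : IsOpen {x : ℝ × ℝ | x.1 < ρ} := isOpen_lt continuous_fst continuous_const
  have h3 : IsOpen {x : ℝ × ℝ | |x.2| < κ * x.1} :=
    isOpen_lt (continuous_abs.comp continuous_snd) (continuous_const.mul continuous_fst)
  have : Nd κ ρ Ω = Ω ∩ ({x : ℝ × ℝ | 0 < x.1} ∩ ({x : ℝ × ℝ | x.1 < ρ} ∩ {x : ℝ × ℝ | |x.2| < κ * x.1})) := by
    ext x; rfl
  rw [this]
  exact hΩ.inter (h1.inter (h2.inter h3))

theorem nd_sub {κ ρ : ℝ} {Ω : Set (ℝ × ℝ)} (hκ : 0 < κ) :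
    Nd κ ρ Ω ⊆ Icc (0 : ℝ) ρ ×ˢ Icc (-(κ * ρ)) (κ * ρ) := by
  rintro ⟨a, b⟩ ⟨_, h1, h2, h3⟩
  simp only at h1 h2 h3
  have h4 : κ * a ≤ κ * ρ := mul_le_mul_of_nonneg_left h2.le hκ.le
  obtain ⟨h5, h6⟩ := abs_lt.1 h3
  exact ⟨⟨h1.le, h2.le⟩, ⟨by simp only; linarith, by simp only; linarith⟩⟩

theorem nd_int {κ ρ : ℝ} {Ω : Set (ℝ × ℝ)} (hκ : 0 < κ) {f : ℝ × ℝ → ℝ} (hf : Continuous f) :
    IntegrableOn f (Nd κ ρ Ω) :=
  (hf.continuousOn.integrableOn_compact (isCompact_Icc.prod isCompact_Icc)).mono_set (nd_sub hκ)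

theorem nd_ne {κ ρ r ε : ℝ} {Ω : Set (ℝ × ℝ)} (hρ : 0 < ρ) (hε : 2 * ε ≤ ρ) (h : Ndm κ r ε Ω) :
    (Nd κ ρ Ω).Nonempty := by
  obtain ⟨x, hx⟩ := h.ne
  by_cases hxρ : x.1 < ρ
  · exact ⟨x, hx.1, hx.2.1, hxρ, hx.2.2.2⟩
  · push Not at hxρ
    have hx0 : 0 < x.1 := hx.2.1
    set t : ℝ := 3 * ρ / 4 / x.1 with ht
    have ht0 : 0 < t := by positivity
    have htx : t * x.1 = 3 * ρ / 4 := by rw [ht]; field_simp
    have ht1 : t < 1 := by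
      rw [ht, div_lt_one hx0]
      linarith
    have h1 : (t * x.1, t * x.2) ∈ Ω := h.star x hx t ht0 ht1 (by rw [htx]; linarith)
    refine ⟨(t * x.1, t * x.2), h1, ?_, ?_, ?_⟩
    · simp only; rw [htx]; linarith
    · simp only; rw [htx]; linarith
    · simp only
      rw [abs_mul, abs_of_pos ht0]
      have := mul_lt_mul_of_pos_left hx.2.2.2 ht0
      calc t * |x.2| < t * (κ * x.1) := this
        _ = κ * (t * x.1) := by ring

end IMW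

open IMW in
theorem pr_MW (h1 : StTR) (h2 : StM2) (h3 : StMT) : StMW := by
  intro B κ ρ r ε Ω hκ hρ hρr hε hερ hΩ hN
  obtain ⟨hC, hin, hout⟩ := h3 B κ ρ r Ω hκ hρ hρr hΩ hN.zero hN.side
  set N := Nd κ ρ Ω with hNdef
  have hNo : IsOpen N := nd_open hΩ
  have hNm : MeasurableSet N := hNo.measurableSet
  have hNsub : N ⊆ Ω := fun x hx => hx.1
  set P : ℝ × ℝ → ℝ := fun x => (1 - x.1 ^ 2 / ρ ^ 2) ^ 4 with hP
  set E : ℝ × ℝ → ℝ := fun x => 16 * x.1 ^ 2 / ρ ^ 4 * (1 - x.1 ^ 2 / ρ ^ 2) ^ 2 +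
    B ^ 2 * x.2 ^ 2 * (1 - x.1 ^ 2 / ρ ^ 2) ^ 4 with hE
  have hPc : Continuous P := by rw [hP]; fun_prop
  have hEc : Continuous E := by rw [hE]; fun_prop
  have hPN : IntegrableOn P N := nd_int hκ hPc
  have hEN : IntegrableOn E N := nd_int hκ hEc
  have hu1 : EqOn (fun x => ‖nu κ ρ B x‖ ^ 2) P N := fun x hx => (hin x hx).1
  have hu2 : EqOn (fun x => eden B (nu κ ρ B) x) E N := fun x hx => (hin x hx).2
  have hi1 : IntegrableOn (fun x => ‖nu κ ρ B x‖ ^ 2) Ω :=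
    ((integrableOn_congr_fun hu1 hNm).2 hPN).of_forall_diff_eq_zero hΩ.measurableSet
      (fun x hx => (hout x hx.1 hx.2).1)
  have hi2 : IntegrableOn (fun x => eden B (nu κ ρ B) x) Ω :=
    ((integrableOn_congr_fun hu2 hNm).2 hEN).of_forall_diff_eq_zero hΩ.measurableSet
      (fun x hx => (hout x hx.1 hx.2).2)
  have he1 : (∫ x in Ω, ‖nu κ ρ B x‖ ^ 2) = ∫ x in N, P x := by
    rw [setIntegral_eq_of_subset_of_forall_diff_eq_zero hΩ.measurableSet hNsub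
      (fun x hx => (hout x hx.1 hx.2).1)]
    exact setIntegral_congr_fun hNm hu1
  have he2 : (∫ x in Ω, eden B (nu κ ρ B) x) = ∫ x in N, E x := by
    rw [setIntegral_eq_of_subset_of_forall_diff_eq_zero hΩ.measurableSet hNsub
      (fun x hx => (hout x hx.1 hx.2).2)]
    exact setIntegral_congr_fun hNm hu2
  have hPpos : ∀ x ∈ N, 0 < P x := by
    intro x hx
    have hx1 : 0 < x.1 := hx.2.1
    have hx2 : x.1 < ρ := hx.2.2.1
    have h4 : x.1 ^ 2 / ρ ^ 2 < 1 := by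
      rw [div_lt_one (by positivity)]
      exact pow_lt_pow_left₀ hx2 hx1.le (by norm_num)
    have h5 : 0 < 1 - x.1 ^ 2 / ρ ^ 2 := by linarith
    exact pow_pos h5 4
  have hpos : 0 < ∫ x in N, P x := by
    rw [setIntegral_pos_iff_support_of_nonneg_ae
      (ae_restrict_of_forall_mem hNm (fun x hx => (hPpos x hx).le)) hPN]
    have hsub : N ⊆ Function.support P ∩ N := fun x hx => ⟨(hPpos x hx).ne', hx⟩
    exact lt_of_lt_of_le (hNo.measure_pos volume (nd_ne hρ hερ hN)) (measure_mono hsub)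
  have hTR := h1 B Ω (nu κ ρ B) hΩ hC hi1 hi2 (by rw [he1]; exact hpos)
  refine hTR.trans ?_
  rw [he1, he2, div_le_iff₀ hpos]
  set K : ℝ := B ^ 2 * κ ^ 2 with hK
  have hK0 : 0 ≤ K := by positivity
  have hM := h2 κ ρ r ε K Ω hκ hρ hρr hε hερ hK0 hΩ hN
  have hexc : Continuous (fun x : ℝ × ℝ => exm ρ K x.1) := by unfold exm; fun_prop
  have hexN : IntegrableOn (fun x : ℝ × ℝ => exm ρ K x.1) N := nd_int hκ hexc
  have hle : (∫ x in N, E x) ≤ ∫ x in N, (exm ρ K x.1 + (30 / ρ ^ 2 + K * ρ ^ 2) * P x) := by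
    refine setIntegral_mono_on hEN (hexN.add (hPN.const_mul _)) hNm ?_
    intro x hx
    have hx1 : 0 < x.1 := hx.2.1
    have hx3 : |x.2| < κ * x.1 := hx.2.2.2
    have h6 : x.2 ^ 2 ≤ κ ^ 2 * x.1 ^ 2 := by
      rw [← mul_pow, ← sq_abs x.2]
      exact pow_le_pow_left₀ (abs_nonneg _) hx3.le 2
    have h7 : B ^ 2 * x.2 ^ 2 * (1 - x.1 ^ 2 / ρ ^ 2) ^ 4 ≤ K * x.1 ^ 2 * (1 - x.1 ^ 2 / ρ ^ 2) ^ 4 := by
      apply mul_le_mul_of_nonneg_right _ (by positivity)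
      rw [hK]
      calc B ^ 2 * x.2 ^ 2 ≤ B ^ 2 * (κ ^ 2 * x.1 ^ 2) := mul_le_mul_of_nonneg_left h6 (sq_nonneg B)
        _ = B ^ 2 * κ ^ 2 * x.1 ^ 2 := by ring
    simp only [hE, hP, exm]
    linarith
  have hint : (∫ x in N, (exm ρ K x.1 + (30 / ρ ^ 2 + K * ρ ^ 2) * P x)) =
      (∫ x in N, exm ρ K x.1) + (30 / ρ ^ 2 + K * ρ ^ 2) * ∫ x in N, P x := by
    rw [integral_add hexN (hPN.const_mul _), integral_const_mul]
  rw [hint] at hle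
  have hfin : (30 / ρ ^ 2 + K * ρ ^ 2) = 30 / ρ ^ 2 + B ^ 2 * κ ^ 2 * ρ ^ 2 := by rw [hK]
  rw [← hfin]
  linarith

end Pool.Agent.MFK.TC
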