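import Mathlib
import Pool.Agent.Work.MP_8826fd_mp.TC.StmtsN

/-!
[8826fd TC NA] the excess in one dimension
-/

set_option autoImplicit false

namespace Pool.Agent.MFK.TC

open MeasureTheory Set Filter Topology Pool.Agent.MFK

/-- The antiderivative. -/
noncomputable def INA.G (ρ K x : ℝ) : ℝ :=
  -(8 / 3) * (1 - x ^ 2 / ρ ^ 2) ^ 3 + 2 * (1 - x ^ 2 / ρ ^ 2) ^ 4
    + 2 / 3 * (1 - x ^ 2 / ρ ^ 2) ^ 5
    - K * ρ ^ 4 / 12 * ((1 - x ^ 2 / ρ ^ 2) ^ 5 - (1 - x ^ 2 / ρ ^ 2) ^ 6)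

theorem INA.hasDerivAt (ρ K x : ℝ) (hρ : 0 < ρ) : HasDerivAt (INA.G ρ K) (ex ρ K x * x) x := by
  have hv : HasDerivAt (fun x : ℝ => 1 - x ^ 2 / ρ ^ 2) (-(2 * x / ρ ^ 2)) x := by
    have h := ((hasDerivAt_pow 2 x).div_const (ρ ^ 2)).const_sub 1
    refine h.congr_deriv ?_
    simp
  have h := ((((hv.pow 3).const_mul (-(8 / 3 : ℝ))).add ((hv.pow 4).const_mul (2 : ℝ))).add
    ((hv.pow 5).const_mul (2 / 3 : ℝ))).sub (((hv.pow 5).sub (hv.pow 6)).const_mul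
      (K * ρ ^ 4 / 12))
  refine (h.congr_deriv ?_)
  have hρ0 : ρ ≠ 0 := hρ.ne'
  simp only [ex, show 3 - 1 = 2 from rfl, show 4 - 1 = 3 from rfl, show 5 - 1 = 4 from rfl,
    show 6 - 1 = 5 from rfl]
  push_cast
  field_simp
  ring

theorem INA.G_zero (ρ K : ℝ) : INA.G ρ K 0 = 0 := by
  simp only [INA.G]
  norm_num

theorem INA.G_nonpos (ρ K X : ℝ) (hρ : 0 < ρ) (hK : 0 ≤ K) (h0 : 0 ≤ X) (h1 : X ≤ ρ) :
    INA.G ρ K X ≤ 0 := by
  have hv1 : 0 ≤ X ^ 2 / ρ ^ 2 := by positivity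
  have hv2 : X ^ 2 / ρ ^ 2 ≤ 1 := by
    rw [div_le_one (by positivity)]
    exact pow_le_pow_left₀ h0 h1 2
  obtain ⟨v, hv⟩ : ∃ v : ℝ, v = 1 - X ^ 2 / ρ ^ 2 := ⟨_, rfl⟩
  have hv0 : 0 ≤ v := by rw [hv]; linarith
  have hvl : v ≤ 1 := by rw [hv]; linarith
  simp only [INA.G]
  rw [← hv]
  have h2 : 0 ≤ v ^ 3 * ((1 - v) * (8 / 3 + 2 / 3 * v)) := by
    have : 0 ≤ 1 - v := by linarith
    positivity
  have h3 : 0 ≤ K * ρ ^ 4 / 12 * (v ^ 5 * (1 - v)) := by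
    have : 0 ≤ 1 - v := by linarith
    positivity
  nlinarith [h2, h3]

theorem pr_NA : StNA := by
  intro ρ K S hρ hK hS hsub hstar
  by_cases hne : S.Nonempty
  · have hbd : BddAbove S := ⟨ρ, fun x hx => (hsub hx).2.le⟩
    obtain ⟨X, hX⟩ : ∃ X : ℝ, X = sSup S := ⟨_, rfl⟩
    have hXρ : X ≤ ρ := by
      rw [hX]
      exact csSup_le hne fun x hx => (hsub hx).2.le
    have hX0 : 0 ≤ X := by
      obtain ⟨x, hx⟩ := hne
      have := le_csSup hbd hx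
      rw [← hX] at this
      exact (hsub hx).1.le.trans this
    have h1 : S ⊆ Ioc 0 X := by
      intro x hx
      refine ⟨(hsub hx).1, ?_⟩
      rw [hX]
      exact le_csSup hbd hx
    have h2 : Ioo 0 X ⊆ S := by
      intro t ht
      have : t < sSup S := by
        rw [← hX]
        exact ht.2
      obtain ⟨s, hs, hts⟩ := exists_lt_of_lt_csSup hne this
      exact hstar s hs t ht.1 hts
    have h3 : S =ᵐ[volume] Ioc 0 X :=
      h1.eventuallyLE.antisymm ((Ioo_ae_eq_Ioc (a := (0 : ℝ)) (b := X)).symm.le.trans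
        h2.eventuallyLE)
    rw [setIntegral_congr_set h3, ← intervalIntegral.integral_of_le hX0]
    have h4 : ∫ x in (0 : ℝ)..X, ex ρ K x * x = INA.G ρ K X - INA.G ρ K 0 := by
      apply intervalIntegral.integral_eq_sub_of_hasDerivAt
      · intro x _
        exact INA.hasDerivAt ρ K x hρ
      · apply Continuous.intervalIntegrable
        unfold ex
        fun_prop
    rw [h4, INA.G_zero, sub_zero]
    exact INA.G_nonpos ρ K X hρ hK hX0 hXρ
  · rw [Set.not_nonempty_iff_eq_empty.1 hne]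
    simp

end Pool.Agent.MFK.TC
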