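import Mathlib
import Pool.Agent.Work.MP_8826fd_mp.TC.StmtsN
import Pool.Agent.Work.MP_8826fd_mp.Sc

/-!
[8826fd TC NE] needles, large fields.
-/

set_option autoImplicit false

namespace Pool.Agent.MFK.TC

open MeasureTheory Set Filter Topology Pool.Agent.MFK

namespace INE

theorem image_disc {R : ℝ} (hR : 0 < R) :
    (fun x : ℝ × ℝ => ((0 : ℝ), (0 : ℝ)) + R • x) '' disc = edisc (0, 0) R := by
  have h : (fun x : ℝ × ℝ => R • x) ⁻¹' edisc (0, 0) R = disc := by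
    ext x
    show (R * x.1 - 0) ^ 2 + (R * x.2 - 0) ^ 2 < R ^ 2 ↔ x.1 ^ 2 + x.2 ^ 2 < 1
    have e : (R * x.1 - 0) ^ 2 + (R * x.2 - 0) ^ 2 = R ^ 2 * (x.1 ^ 2 + x.2 ^ 2) := by ring
    rw [e]
    constructor
    · intro h1
      have h2 : R ^ 2 * (x.1 ^ 2 + x.2 ^ 2) < R ^ 2 * 1 := by linarith
      exact lt_of_mul_lt_mul_left h2 (by positivity)
    · intro h1
      have h2 := mul_lt_mul_of_pos_left h1 (by positivity : (0 : ℝ) < R ^ 2)
      linarith
  rw [← h]
  ext x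
  constructor
  · rintro ⟨y, hy, rfl⟩
    have h : ((0 : ℝ), (0 : ℝ)) + R • y = R • y := by
      ext <;> simp
    show ((0 : ℝ), (0 : ℝ)) + R • y ∈ edisc (0, 0) R
    rw [h]
    exact hy
  · intro hx
    refine ⟨R⁻¹ • x, ?_, ?_⟩
    · show R • R⁻¹ • x ∈ edisc (0, 0) R
      rw [smul_inv_smul₀ hR.ne']
      exact hx
    · show ((0 : ℝ), (0 : ℝ)) + R • R⁻¹ • x = x
      rw [smul_inv_smul₀ hR.ne']
      ext <;> simp

theorem low (h2 : StDE) {b β : ℝ} (hb : 0 < b) (hβ : b ≤ β) : min (1 / 16) (b / 9) * β ≤ lamN β disc := by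
  have hβ0 : 0 < β := hb.trans_le hβ
  rcases le_total 1 β with h | h
  · have h1 := (h2 β hβ0).1 h
    have h3 : min (1 / 16) (b / 9) * β ≤ 1 / 16 * β := mul_le_mul_of_nonneg_right (min_le_left _ _) hβ0.le
    linarith
  · have h1 := (h2 β hβ0).2 h
    have h3 : min (1 / 16) (b / 9) * β ≤ b / 9 * β := mul_le_mul_of_nonneg_right (min_le_right _ _) hβ0.le
    have h4 : b / 9 * β ≤ β / 9 * β := mul_le_mul_of_nonneg_right (by linarith) hβ0.le
    have h5 : β / 9 * β = β ^ 2 / 9 := by ring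
    linarith

end INE

theorem pr_NE (h1 : StNX) (h2 : StDE) : StNE := by
  intro b hb
  have hc : 0 < min (1 / 16) (b / 9) := lt_min (by norm_num) (by positivity)
  have hlow : ∀ β : ℝ, b ≤ β → min (1 / 16) (b / 9) * β ≤ lamN β disc := fun β hβ => INE.low h2 hb hβ
  generalize min (1 / 16) (b / 9) = c at hc hlow
  refine ⟨c / 12, by positivity, Real.sqrt (40 / (3 * b * c)), by positivity, ?_⟩
  intro B R κ r Om hR hBR hκ hκ0 hr hO hN
  have hR2 : 0 < R ^ 2 := by positivity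
  have hB : 0 < B := by
    by_contra h
    have h3 : B * R ^ 2 ≤ 0 := mul_nonpos_of_nonpos_of_nonneg (not_lt.mp h) hR2.le
    linarith
  have hC : 0 < Real.sqrt (40 / (3 * b * c)) := by positivity
  have hr0 : 0 < r := lt_of_lt_of_le (by positivity) hr
  have hr2 : 40 / (3 * b * c) * R ^ 2 ≤ r ^ 2 := by
    have h3 : (Real.sqrt (40 / (3 * b * c)) * R) ^ 2 ≤ r ^ 2 := pow_le_pow_left₀ (by positivity) hr 2
    rw [mul_pow, Real.sq_sqrt (by positivity)] at h3
    exact h3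
  have h4 := h1 B κ r Om hB hκ hr0 hO hN
  have h5 : 20 / (3 * r ^ 2) ≤ c * B / 2 := by
    rw [div_le_iff₀ (by positivity)]
    have h6 : c * B / 2 * (3 * (40 / (3 * b * c) * R ^ 2)) ≤ c * B / 2 * (3 * r ^ 2) :=
      mul_le_mul_of_nonneg_left (by linarith) (by positivity)
    have h7 : c * B / 2 * (3 * (40 / (3 * b * c) * R ^ 2)) = 20 * (B * R ^ 2 / b) := by
      field_simp
      ring
    have h8 : 1 ≤ B * R ^ 2 / b := by
      rw [le_div_iff₀ hb]
      linarith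
    linarith
  have h6 : 3 * κ * B ≤ c * B / 4 := by
    have h7 : κ * B ≤ c / 12 * B := mul_le_mul_of_nonneg_right hκ0 hB.le
    linarith
  have hdo : IsOpen disc := by
    have : disc = {x : ℝ × ℝ | x.1 ^ 2 + x.2 ^ 2 < 1} := rfl
    rw [this]
    exact isOpen_lt (by fun_prop) continuous_const
  have e2 := sc B R (0, 0) disc hR hdo
  rw [INE.image_disc hR] at e2
  rw [e2]
  have h7 := hlow (B * R ^ 2) hBR
  have h8 : (R ^ 2)⁻¹ * (c * (B * R ^ 2)) ≤ (R ^ 2)⁻¹ * lamN (B * R ^ 2) disc :=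
    mul_le_mul_of_nonneg_left h7 (by positivity)
  have h9 : (R ^ 2)⁻¹ * (c * (B * R ^ 2)) = c * B := by
    field_simp
  have h10 : 0 < c * B := by positivity
  linarith

end Pool.Agent.MFK.TC
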