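import Mathlib
import Pool.Agent.Work.MP_8826fd_mp.TC.StmtsN
import Pool.Agent.Work.MP_8826fd_mp.TC.I_NFa
import Pool.Agent.Work.MP_8826fd_mp.RT.All

/-!
[8826fd TC] Item NF: needles for all fields.
-/

set_option autoImplicit false

namespace Pool.Agent.MFK.TC

open MeasureTheory Set Filter Topology Pool.Agent.MFK

namespace INF

theorem small : Small := by
  obtain ⟨b, hb, -, h⟩ := RT.hFinD
  refine ⟨b, hb, ?_⟩
  intro B R hB hR hBR Ω hO hsc hvol
  obtain ⟨c, hc, hq⟩ := h B R hB hR hBR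
  have hvol' : volume Ω = volume (edisc 0 R) := hvol
  obtain ⟨q, hle, heq⟩ := hq Ω hO hsc hvol'
  have h0 : 0 ≤ ∫ x in symmDiff Ω (edisc q R),
      min |Real.sqrt ((x.1 - q.1) ^ 2 + (x.2 - q.2) ^ 2) - R| R :=
    integral_nonneg fun x => le_min (abs_nonneg _) hR.le
  have h1 : lamN B Ω ≤ lamN B (edisc 0 R) := by
    have := mul_nonneg hc.le h0
    linarith
  rcases lt_or_eq_of_le h1 with h2 | h2
  · exact Or.inl h2
  · exact Or.inr ⟨q, heq h2⟩

end INF

theorem pr_NF (h1 : StNE) (h2 : StND) (h3 : StPI) (h4 : StPV) : StNF :=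
  INF.nf_of INF.small h1 h2 h3 h4

end Pool.Agent.MFK.TC
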