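import Mathlib
import Pool.Agent.Work.MP_8826fd_mp.TC.StmtsN

/-!
[8826fd TC] Item NT: the trial function in the needle.
-/

set_option autoImplicit false

namespace Pool.Agent.MFK.TC

open MeasureTheory Set Filter Topology Pool.Agent.MFK

namespace INT

/-- the square of the positive part -/
noncomputable def mx (t : ℝ) : ℝ := (max 0 t) ^ 2

theorem mx_deriv (t : ℝ) : HasDerivAt mx (2 * max 0 t) t := by
  rcases lt_trichotomy t 0 with h | h | h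
  · have e : mx =ᶠ[𝓝 t] fun _ => 0 := by
      filter_upwards [gt_mem_nhds h] with y hy
      simp [mx, max_eq_left (le_of_lt hy)]
    rw [max_eq_left h.le, mul_zero]
    exact (hasDerivAt_const t (0 : ℝ)).congr_of_eventuallyEq e
  · subst h
    rw [max_self, mul_zero, hasDerivAt_iff_isLittleO]
    have e : (fun x' : ℝ => mx x' - mx 0 - (x' - 0) • (0 : ℝ)) = mx := by
      funext y
      simp [mx]
    rw [e]
    have h1 : mx =O[𝓝 0] fun x : ℝ => x ^ 2 := by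
      apply Asymptotics.IsBigO.of_bound 1
      filter_upwards with y
      rw [one_mul, mx, Real.norm_eq_abs, Real.norm_eq_abs, abs_of_nonneg (sq_nonneg _),
        abs_of_nonneg (sq_nonneg _)]
      rcases le_total 0 y with hy | hy
      · rw [max_eq_right hy]
      · rw [max_eq_left hy]
        nlinarith [sq_nonneg y]
    have h2 : (fun x : ℝ => x ^ 2) =o[𝓝 0] fun x : ℝ => x ^ 1 :=
      Asymptotics.isLittleO_pow_pow (by norm_num)
    have h3 : (fun x : ℝ => x ^ 1) = fun x' : ℝ => x' - 0 := by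
      funext y
      simp
    rw [h3] at h2
    exact h1.trans_isLittleO h2
  · have e : mx =ᶠ[𝓝 t] fun y => y ^ 2 := by
      filter_upwards [lt_mem_nhds h] with y hy
      simp [mx, max_eq_right (le_of_lt hy)]
    rw [max_eq_right h.le]
    have h1 : HasDerivAt (fun y : ℝ => y ^ 2) (2 * t) t := by
      simpa using hasDerivAt_pow 2 t
    exact h1.congr_of_eventuallyEq e

theorem mx_contDiff : ContDiff ℝ 1 mx := by
  rw [contDiff_one_iff_deriv]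
  refine ⟨fun t => (mx_deriv t).differentiableAt, ?_⟩
  have : deriv mx = fun t => 2 * max 0 t := by
    funext t
    exact (mx_deriv t).deriv
  rw [this]
  fun_prop

/-- the phase -/
noncomputable def ph (B : ℝ) (x : ℝ × ℝ) : ℂ :=
  Complex.exp (Complex.I * ((B * x.1 * x.2 / 2 : ℝ) : ℂ))

/-- the extension of the trial function -/
noncomputable def gg (ρ B : ℝ) (x : ℝ × ℝ) : ℂ := ((mx (1 - x.1 ^ 2 / ρ ^ 2) : ℝ) : ℂ) * ph B x

theorem ph_contDiff (B : ℝ) : ContDiff ℝ 1 (ph B) := by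
  unfold ph
  have h2 : ContDiff ℝ 1 (fun x : ℝ × ℝ => (B * x.1 * x.2 / 2 : ℝ)) := by fun_prop
  have h4 : ContDiff ℝ 1 (fun x : ℝ × ℝ => (((B * x.1 * x.2 / 2 : ℝ)) : ℂ)) :=
    Complex.ofRealCLM.contDiff.comp h2
  exact (contDiff_const.mul h4).cexp

theorem gg_contDiff (ρ B : ℝ) : ContDiff ℝ 1 (gg ρ B) := by
  unfold gg
  have h2 : ContDiff ℝ 1 (fun x : ℝ × ℝ => (1 - x.1 ^ 2 / ρ ^ 2 : ℝ)) := by fun_prop
  have h3 : ContDiff ℝ 1 (fun x : ℝ × ℝ => mx (1 - x.1 ^ 2 / ρ ^ 2)) := mx_contDiff.comp h2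
  have h4 : ContDiff ℝ 1 (fun x : ℝ × ℝ => ((mx (1 - x.1 ^ 2 / ρ ^ 2) : ℝ) : ℂ)) :=
    Complex.ofRealCLM.contDiff.comp h3
  exact h4.mul (ph_contDiff B)

theorem ph_norm (B : ℝ) (x : ℝ × ℝ) : ‖ph B x‖ = 1 := by
  unfold ph
  rw [mul_comm, Complex.norm_exp_ofReal_mul_I]

theorem fd (ρ B : ℝ) (x : ℝ × ℝ) (v : ℝ × ℝ) :
    fderiv ℝ (gg ρ B) x v =
      (((2 * max 0 (1 - x.1 ^ 2 / ρ ^ 2) * (-(2 * x.1 * v.1 / ρ ^ 2)) : ℝ) : ℂ) +
        ((mx (1 - x.1 ^ 2 / ρ ^ 2) : ℝ) : ℂ) *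
          (Complex.I * (((B * (x.2 * v.1 + x.1 * v.2) / 2) : ℝ) : ℂ))) * ph B x := by
  have hf : HasFDerivAt (fun z : ℝ × ℝ => z.1) (ContinuousLinearMap.fst ℝ ℝ ℝ) x :=
    hasFDerivAt_fst
  have hs : HasFDerivAt (fun z : ℝ × ℝ => z.2) (ContinuousLinearMap.snd ℝ ℝ ℝ) x :=
    hasFDerivAt_snd
  have h1 : HasFDerivAt (fun z : ℝ × ℝ => (1 - z.1 ^ 2 / ρ ^ 2 : ℝ))
      ((-(2 * x.1 / ρ ^ 2)) • ContinuousLinearMap.fst ℝ ℝ ℝ) x := by
    have h := (((hf.pow 2).const_mul ((ρ ^ 2)⁻¹)).neg).const_add 1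
    have e : (fun z : ℝ × ℝ => (1 - z.1 ^ 2 / ρ ^ 2 : ℝ)) =
        fun z => 1 + -((ρ ^ 2)⁻¹ * z.1 ^ 2) := by
      funext z
      ring
    rw [e]
    refine h.congr_fderiv ?_
    ext <;> simp <;> ring
  have h1m : HasFDerivAt (fun z : ℝ × ℝ => mx (1 - z.1 ^ 2 / ρ ^ 2))
      ((2 * max 0 (1 - x.1 ^ 2 / ρ ^ 2)) • ((-(2 * x.1 / ρ ^ 2)) •
        ContinuousLinearMap.fst ℝ ℝ ℝ)) x := by
    have hm : HasDerivAt mx (2 * max 0 (1 - x.1 ^ 2 / ρ ^ 2))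
        ((fun z : ℝ × ℝ => (1 - z.1 ^ 2 / ρ ^ 2 : ℝ)) x) := mx_deriv (1 - x.1 ^ 2 / ρ ^ 2)
    exact hm.comp_hasFDerivAt x h1
  have h2 : HasFDerivAt (fun z : ℝ × ℝ => (B * z.1 * z.2 / 2 : ℝ))
      ((B * x.2 / 2) • ContinuousLinearMap.fst ℝ ℝ ℝ +
        (B * x.1 / 2) • ContinuousLinearMap.snd ℝ ℝ ℝ) x := by
    have h := ((hf.mul hs).const_mul (B / 2))
    have e : (fun z : ℝ × ℝ => (B * z.1 * z.2 / 2 : ℝ)) = fun z => B / 2 * (z.1 * z.2) := by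
      funext z
      ring
    rw [e]
    refine h.congr_fderiv ?_
    ext <;> simp <;> ring
  have h3 := (Complex.ofRealCLM.hasFDerivAt (x := mx (1 - x.1 ^ 2 / ρ ^ 2))).comp x h1m
  have h4 := (Complex.ofRealCLM.hasFDerivAt (x := (B * x.1 * x.2 / 2 : ℝ))).comp x h2
  have h5 := (h4.const_mul Complex.I).cexp
  have h6 : HasFDerivAt (gg ρ B) _ x := h3.mul h5
  rw [h6.fderiv]
  simp [ph]
  ring

theorem nearA (κ ρ B : ℝ) (hρ : 0 < ρ) (x : ℝ × ℝ) (h1 : 0 < x.1) (h2 : |x.2| < κ * x.1) :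
    nu κ ρ B =ᶠ[𝓝 x] gg ρ B := by
  have hU : {y : ℝ × ℝ | 0 < y.1 ∧ |y.2| < κ * y.1} ∈ 𝓝 x := by
    apply IsOpen.mem_nhds
    · exact (isOpen_lt continuous_const continuous_fst).inter
        (isOpen_lt (continuous_abs.comp continuous_snd) (continuous_const.mul continuous_fst))
    · exact ⟨h1, h2⟩
  filter_upwards [hU] with y hy
  unfold nu gg ph mx
  by_cases hr : y.1 < ρ
  · rw [if_pos ⟨hy.1, hr, hy.2⟩, max_eq_right]
    have : y.1 ^ 2 / ρ ^ 2 ≤ 1 := by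
      rw [div_le_one (by positivity)]
      exact pow_le_pow_left₀ hy.1.le hr.le 2
    linarith
  · rw [if_neg (fun h => hr h.2.1), max_eq_left]
    · simp
    · have : 1 ≤ y.1 ^ 2 / ρ ^ 2 := by
        rw [le_div_iff₀ (by positivity), one_mul]
        exact pow_le_pow_left₀ hρ.le (not_lt.mp hr) 2
      linarith

theorem cases (κ ρ r B : ℝ) (Ω : Set (ℝ × ℝ)) (hκ : 0 < κ) (hρ : 0 < ρ) (hr : ρ < r)
    (hN : Ndl κ r Ω) (x : ℝ × ℝ) (hx : x ∈ Ω) :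
    (nu κ ρ B =ᶠ[𝓝 x] fun _ => 0) ∨ (0 < x.1 ∧ |x.2| < κ * x.1) := by
  by_cases h1 : ρ < x.1
  · left
    have hU : {y : ℝ × ℝ | ρ < y.1} ∈ 𝓝 x :=
      (isOpen_lt continuous_const continuous_fst).mem_nhds h1
    filter_upwards [hU] with y hy
    unfold nu
    rw [if_neg]
    intro h
    exact absurd h.2.1 (not_lt.mpr (le_of_lt hy))
  · by_cases h2 : 0 < x.1 ∧ |x.2| < κ * x.1
    · exact Or.inr h2
    · left
      have hC : IsClosed {y : ℝ × ℝ | 0 ≤ y.1 ∧ |y.2| ≤ κ * y.1} :=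
        (isClosed_le continuous_const continuous_fst).inter
          (isClosed_le (continuous_abs.comp continuous_snd) (continuous_const.mul continuous_fst))
      have hxC : x ∉ {y : ℝ × ℝ | 0 ≤ y.1 ∧ |y.2| ≤ κ * y.1} := by
        rintro ⟨h3, h4⟩
        rcases h3.eq_or_lt with h5 | h5
        · rw [← h5, mul_zero] at h4
          have h6 : x.2 = 0 := abs_eq_zero.mp (le_antisymm h4 (abs_nonneg _))
          apply hN.zero
          have : x = (0, 0) := Prod.ext h5.symm h6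
          rwa [← this]
        · have h6 := hN.side x hx h5 (lt_of_le_of_lt (not_lt.mp h1) hr)
          exact h2 ⟨h5, lt_of_le_of_ne h4 h6⟩
      filter_upwards [hC.isOpen_compl.mem_nhds hxC] with y hy
      unfold nu
      rw [if_neg]
      intro h
      exact hy ⟨h.1.le, h.2.2.le⟩

end INT

open INT in
/-- item NT -/
theorem pr_NT : StNT := by
  intro B κ ρ r Ω hκ hρ hr hΩ hN
  refine ⟨?_, ?_, ?_⟩
  · intro x hx
    rcases cases κ ρ r B Ω hκ hρ hr hN x hx with h | ⟨h1, h2⟩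
    · exact (contDiffAt_const.congr_of_eventuallyEq h).contDiffWithinAt
    · exact ((gg_contDiff ρ B).contDiffAt.congr_of_eventuallyEq
        (nearA κ ρ B hρ x h1 h2)).contDiffWithinAt
  · intro x hx
    have h1 : 0 < x.1 := hx.2.1
    have h2 : x.1 < ρ := hx.2.2.1
    have hA := nearA κ ρ B hρ x h1 hx.2.2.2
    have hv : 0 < 1 - x.1 ^ 2 / ρ ^ 2 := by
      have : x.1 ^ 2 / ρ ^ 2 < 1 := by
        rw [div_lt_one (by positivity)]
        exact pow_lt_pow_left₀ h2 h1.le (by norm_num)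
      linarith
    have hm : max 0 (1 - x.1 ^ 2 / ρ ^ 2) = 1 - x.1 ^ 2 / ρ ^ 2 := max_eq_right hv.le
    have hmx : mx (1 - x.1 ^ 2 / ρ ^ 2) = (1 - x.1 ^ 2 / ρ ^ 2) ^ 2 := by
      unfold mx
      rw [hm]
    have hx0 : nu κ ρ B x = gg ρ B x := hA.eq_of_nhds
    have hfd : fderiv ℝ (nu κ ρ B) x = fderiv ℝ (gg ρ B) x := hA.fderiv_eq
    set w : ℝ := 1 - x.1 ^ 2 / ρ ^ 2 with hw
    refine ⟨?_, ?_⟩
    · rw [hx0]
      unfold gg
      rw [norm_mul, ph_norm, mul_one, hmx, Complex.norm_real, Real.norm_eq_abs, sq_abs]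
      ring
    · unfold eden
      rw [hfd, fd, fd, hx0]
      unfold gg
      rw [← hw, hmx, hm]
      have e1 : (((2 * w * (-(2 * x.1 * ((1 : ℝ), (0 : ℝ)).1 / ρ ^ 2)) : ℝ) : ℂ) +
          ((w ^ 2 : ℝ) : ℂ) * (Complex.I *
            (((B * (x.2 * ((1 : ℝ), (0 : ℝ)).1 + x.1 * ((1 : ℝ), (0 : ℝ)).2) / 2) : ℝ) : ℂ))) *
          ph B x - Complex.I * ((-(B * x.2 / 2) : ℝ) : ℂ) * (((w ^ 2 : ℝ) : ℂ) * ph B x) =
          ph B x * ⟨-(4 * x.1 / ρ ^ 2 * w), B * x.2 * w ^ 2⟩ := by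
        have : (⟨-(4 * x.1 / ρ ^ 2 * w), B * x.2 * w ^ 2⟩ : ℂ) =
            ((-(4 * x.1 / ρ ^ 2 * w) : ℝ) : ℂ) + ((B * x.2 * w ^ 2 : ℝ) : ℂ) * Complex.I :=
          Complex.mk_eq_add_mul_I _ _
        rw [this]
        push_cast
        ring
      have e2 : (((2 * w * (-(2 * x.1 * ((0 : ℝ), (1 : ℝ)).1 / ρ ^ 2)) : ℝ) : ℂ) +
          ((w ^ 2 : ℝ) : ℂ) * (Complex.I *
            (((B * (x.2 * ((0 : ℝ), (1 : ℝ)).1 + x.1 * ((0 : ℝ), (1 : ℝ)).2) / 2) : ℝ) : ℂ))) *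
          ph B x - Complex.I * ((B * x.1 / 2 : ℝ) : ℂ) * (((w ^ 2 : ℝ) : ℂ) * ph B x) = 0 := by
        push_cast
        ring
      rw [e1, e2, norm_zero, norm_mul, mul_pow, ph_norm]
      have e3 : ‖(⟨-(4 * x.1 / ρ ^ 2 * w), B * x.2 * w ^ 2⟩ : ℂ)‖ ^ 2 =
          16 * x.1 ^ 2 / ρ ^ 4 * w ^ 2 + B ^ 2 * x.2 ^ 2 * w ^ 4 := by
        rw [Complex.sq_norm, Complex.normSq_apply]
        ring
      rw [e3]
      ring
  · intro x hx hxN
    rcases cases κ ρ r B Ω hκ hρ hr hN x hx with h | ⟨h1, h2⟩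
    · have h0 : nu κ ρ B x = 0 := h.eq_of_nhds
      have hfd : fderiv ℝ (nu κ ρ B) x = 0 := by
        rw [h.fderiv_eq]
        simp
      refine ⟨by rw [h0]; simp, ?_⟩
      unfold eden
      rw [hfd, h0]
      simp
    · have h3 : ρ ≤ x.1 := by
        by_contra hc
        exact hxN ⟨hx, h1, not_le.mp hc, h2⟩
      have hA := nearA κ ρ B hρ x h1 h2
      have hv : 1 - x.1 ^ 2 / ρ ^ 2 ≤ 0 := by
        have : 1 ≤ x.1 ^ 2 / ρ ^ 2 := by
          rw [le_div_iff₀ (by positivity), one_mul]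
          exact pow_le_pow_left₀ hρ.le h3 2
        linarith
      have hm : max 0 (1 - x.1 ^ 2 / ρ ^ 2) = 0 := max_eq_left hv
      have hmx : mx (1 - x.1 ^ 2 / ρ ^ 2) = 0 := by
        unfold mx
        rw [hm]
        simp
      have h0 : nu κ ρ B x = 0 := by
        rw [hA.eq_of_nhds]
        unfold gg
        rw [hmx]
        simp
      refine ⟨by rw [h0]; simp, ?_⟩
      unfold eden
      rw [hA.fderiv_eq, fd, fd, h0, hmx, hm]
      simp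

end Pool.Agent.MFK.TC
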