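import Mathlib
import Pool.Agent.Work.MP_8826fd_mp.TC.StmtsN

/-!
[8826fd TC NW] The trial function in the needle.
-/

set_option autoImplicit false

namespace Pool.Agent.MFK.TC

open MeasureTheory Set Filter Topology Pool.Agent.MFK

namespace INW

theorem isOpen_Nd (κ ρ : ℝ) (Ω : Set (ℝ × ℝ)) (hΩ : IsOpen Ω) : IsOpen (Nd κ ρ Ω) := by
  have e : Nd κ ρ Ω = Ω ∩ ({x : ℝ × ℝ | 0 < x.1} ∩ ({x : ℝ × ℝ | x.1 < ρ} ∩
      {x : ℝ × ℝ | |x.2| < κ * x.1})) := by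
    ext x
    rfl
  rw [e]
  refine hΩ.inter ((isOpen_lt continuous_const continuous_fst).inter
    ((isOpen_lt continuous_fst continuous_const).inter ?_))
  exact isOpen_lt continuous_snd.abs (continuous_const.mul continuous_fst)

theorem integrableOn_Nd {κ ρ : ℝ} (hκ : 0 < κ) (Ω : Set (ℝ × ℝ)) {f : ℝ × ℝ → ℝ}
    (hf : Continuous f) : IntegrableOn f (Nd κ ρ Ω) := by
  have h1 : IntegrableOn f (Icc (0, -(κ * ρ)) (ρ, κ * ρ)) :=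
    hf.continuousOn.integrableOn_compact isCompact_Icc
  refine h1.mono_set ?_
  rintro x ⟨-, h2, h3, h4⟩
  have h5 : κ * x.1 ≤ κ * ρ := mul_le_mul_of_nonneg_left h3.le hκ.le
  have h6 := abs_lt.1 h4
  exact ⟨⟨h2.le, by show -(κ * ρ) ≤ x.2; linarith⟩, ⟨h3.le, by show x.2 ≤ κ * ρ; linarith⟩⟩

theorem v_pos {ρ x : ℝ} (hρ : 0 < ρ) (h0 : 0 < x) (h1 : x < ρ) : 0 < 1 - x ^ 2 / ρ ^ 2 := by
  have h2 : x ^ 2 / ρ ^ 2 < 1 := by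
    rw [div_lt_one (by positivity)]
    nlinarith
  linarith

end INW

theorem pr_NW (h1 : StTR) (h2 : StNB) (h3 : StNT) : StNW := by
  intro B κ ρ r Ω hκ hρ hρr hΩ hN
  obtain ⟨hC, hin, hout⟩ := h3 B κ ρ r Ω hκ hρ hρr hΩ hN
  have hNo := INW.isOpen_Nd κ ρ Ω hΩ
  have hNm := hNo.measurableSet
  have hsub : Nd κ ρ Ω ⊆ Ω := fun x hx => hx.1
  have hK : 0 ≤ B ^ 2 * κ ^ 2 := by positivity
  have hMB := h2 κ ρ r (B ^ 2 * κ ^ 2) Ω hκ hρ hρr hK hΩ hN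
  have cW : Continuous fun x : ℝ × ℝ => (1 - x.1 ^ 2 / ρ ^ 2) ^ 4 := by fun_prop
  have cE : Continuous fun x : ℝ × ℝ => 16 * x.1 ^ 2 / ρ ^ 4 * (1 - x.1 ^ 2 / ρ ^ 2) ^ 2 +
      B ^ 2 * x.2 ^ 2 * (1 - x.1 ^ 2 / ρ ^ 2) ^ 4 := by fun_prop
  have cE2 : Continuous fun x : ℝ × ℝ => 16 * x.1 ^ 2 / ρ ^ 4 * (1 - x.1 ^ 2 / ρ ^ 2) ^ 2 +
      B ^ 2 * κ ^ 2 * x.1 ^ 2 * (1 - x.1 ^ 2 / ρ ^ 2) ^ 4 := by fun_prop
  have iW := INW.integrableOn_Nd (ρ := ρ) hκ Ω cW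
  have iE := INW.integrableOn_Nd (ρ := ρ) hκ Ω cE
  have iE2 := INW.integrableOn_Nd (ρ := ρ) hκ Ω cE2
  have iu : IntegrableOn (fun x => ‖nu κ ρ B x‖ ^ 2) (Nd κ ρ Ω) :=
    iW.congr_fun (fun x hx => ((hin x hx).1).symm) hNm
  have ie : IntegrableOn (fun x => eden B (nu κ ρ B) x) (Nd κ ρ Ω) :=
    iE.congr_fun (fun x hx => ((hin x hx).2).symm) hNm
  have iu2 : IntegrableOn (fun x => ‖nu κ ρ B x‖ ^ 2) Ω :=
    iu.of_forall_diff_eq_zero hΩ.measurableSet fun x hx => (hout x hx.1 hx.2).1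
  have ie2 : IntegrableOn (fun x => eden B (nu κ ρ B) x) Ω :=
    ie.of_forall_diff_eq_zero hΩ.measurableSet fun x hx => (hout x hx.1 hx.2).2
  have eu : (∫ x in Ω, ‖nu κ ρ B x‖ ^ 2) = ∫ x in Nd κ ρ Ω, (1 - x.1 ^ 2 / ρ ^ 2) ^ 4 := by
    rw [setIntegral_eq_of_subset_of_forall_diff_eq_zero hΩ.measurableSet hsub
      fun x hx => (hout x hx.1 hx.2).1]
    exact setIntegral_congr_fun hNm fun x hx => (hin x hx).1
  have ee : (∫ x in Ω, eden B (nu κ ρ B) x) =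
      ∫ x in Nd κ ρ Ω, (16 * x.1 ^ 2 / ρ ^ 4 * (1 - x.1 ^ 2 / ρ ^ 2) ^ 2 +
        B ^ 2 * x.2 ^ 2 * (1 - x.1 ^ 2 / ρ ^ 2) ^ 4) := by
    rw [setIntegral_eq_of_subset_of_forall_diff_eq_zero hΩ.measurableSet hsub
      fun x hx => (hout x hx.1 hx.2).2]
    exact setIntegral_congr_fun hNm fun x hx => (hin x hx).2
  -- positivity
  have hne : (Nd κ ρ Ω).Nonempty := by
    obtain ⟨x, hx, hx0, hxr, hxk⟩ := hN.ne
    obtain ⟨t, ht⟩ : ∃ t : ℝ, t = min (1 / 2) (ρ / (2 * x.1)) := ⟨_, rfl⟩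
    have ht0 : 0 < t := by
      rw [ht]
      exact lt_min (by norm_num) (by positivity)
    have ht1 : t < 1 := by
      rw [ht]
      exact lt_of_le_of_lt (min_le_left _ _) (by norm_num)
    have ht2 : t * x.1 < ρ := by
      have h5 : t ≤ ρ / (2 * x.1) := by rw [ht]; exact min_le_right _ _
      have h6 : t * x.1 ≤ ρ / (2 * x.1) * x.1 := mul_le_mul_of_nonneg_right h5 hx0.le
      have h7 : ρ / (2 * x.1) * x.1 = ρ / 2 := by field_simp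
      linarith
    refine ⟨(t * x.1, t * x.2), hN.star x ⟨hx, hx0, hxr, hxk⟩ t ht0 ht1, mul_pos ht0 hx0, ht2, ?_⟩
    show |t * x.2| < κ * (t * x.1)
    rw [abs_mul, abs_of_pos ht0]
    have := mul_lt_mul_of_pos_left hxk ht0
    linarith
  have hWpos : 0 < ∫ x in Nd κ ρ Ω, (1 - x.1 ^ 2 / ρ ^ 2) ^ 4 := by
    rw [setIntegral_pos_iff_support_of_nonneg_ae
      (Filter.Eventually.of_forall fun x => by positivity) iW]
    have es : Function.support (fun x : ℝ × ℝ => (1 - x.1 ^ 2 / ρ ^ 2) ^ 4) ∩ Nd κ ρ Ω =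
        Nd κ ρ Ω := by
      apply inter_eq_right.2
      intro x hx
      have := INW.v_pos hρ hx.2.1 hx.2.2.1
      rw [Function.mem_support]
      positivity
    rw [es]
    exact hNo.measure_pos volume hne
  have hTR := h1 B Ω (nu κ ρ B) hΩ hC iu2 ie2 (by rw [eu]; exact hWpos)
  rw [eu, ee] at hTR
  refine hTR.trans ?_
  rw [div_le_iff₀ hWpos]
  have hle : ∀ x ∈ Nd κ ρ Ω, 16 * x.1 ^ 2 / ρ ^ 4 * (1 - x.1 ^ 2 / ρ ^ 2) ^ 2 +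
        B ^ 2 * x.2 ^ 2 * (1 - x.1 ^ 2 / ρ ^ 2) ^ 4 ≤
      16 * x.1 ^ 2 / ρ ^ 4 * (1 - x.1 ^ 2 / ρ ^ 2) ^ 2 +
      B ^ 2 * κ ^ 2 * x.1 ^ 2 * (1 - x.1 ^ 2 / ρ ^ 2) ^ 4 := by
    intro x hx
    have e1 : x.2 ^ 2 ≤ κ ^ 2 * x.1 ^ 2 := by
      have h5 := abs_lt.1 hx.2.2.2
      have := sq_le_sq' (a := x.2) (b := κ * x.1) (by linarith) (by linarith)
      calc x.2 ^ 2 ≤ (κ * x.1) ^ 2 := this
        _ = κ ^ 2 * x.1 ^ 2 := by ring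
    have e2 : B ^ 2 * x.2 ^ 2 ≤ B ^ 2 * κ ^ 2 * x.1 ^ 2 := by
      have := mul_le_mul_of_nonneg_left e1 (sq_nonneg B)
      linarith
    have e3 := mul_le_mul_of_nonneg_right e2
      (show 0 ≤ (1 - x.1 ^ 2 / ρ ^ 2) ^ 4 by positivity)
    linarith
  have hmono := setIntegral_mono_on iE iE2 hNm hle
  have iex : IntegrableOn (fun x : ℝ × ℝ => ex ρ (B ^ 2 * κ ^ 2) x.1) (Nd κ ρ Ω) := by
    refine INW.integrableOn_Nd hκ Ω ?_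
    unfold ex
    fun_prop
  have hsplit : (∫ x in Nd κ ρ Ω, (16 * x.1 ^ 2 / ρ ^ 4 * (1 - x.1 ^ 2 / ρ ^ 2) ^ 2 +
      B ^ 2 * κ ^ 2 * x.1 ^ 2 * (1 - x.1 ^ 2 / ρ ^ 2) ^ 4)) =
      (∫ x in Nd κ ρ Ω, ex ρ (B ^ 2 * κ ^ 2) x.1) +
        (20 / (3 * ρ ^ 2) + B ^ 2 * κ ^ 2 * ρ ^ 2 / 6) *
          ∫ x in Nd κ ρ Ω, (1 - x.1 ^ 2 / ρ ^ 2) ^ 4 := by
    rw [← integral_const_mul, ← integral_add iex (iW.const_mul _)]
    refine integral_congr_ae (Filter.Eventually.of_forall fun x => ?_)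
    simp only [ex]
    ring
  linarith

end Pool.Agent.MFK.TC
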