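import Mathlib
import Pool.Agent.Work.MP_8826fd_mp.TC.Stmts

/-! Item VO: the area of the disc `D(a, R)`. -/

set_option autoImplicit false

namespace Pool.Agent.MFK.TC

open MeasureTheory Set Filter Topology Pool.Agent.MFK

namespace IVO

/-- the point as a complex number -/
def zz (x : ℝ × ℝ) : ℂ := ⟨x.1, x.2⟩

theorem norm_zz_sq (x a : ℝ × ℝ) : ‖zz x - zz a‖ ^ 2 = (x.1 - a.1) ^ 2 + (x.2 - a.2) ^ 2 := by
  rw [Complex.sq_norm, Complex.normSq_apply]
  simp only [zz, Complex.sub_re, Complex.sub_im]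
  ring

theorem mem_edisc {a x : ℝ × ℝ} {r : ℝ} (hr : 0 ≤ r) : x ∈ edisc a r ↔ ‖zz x - zz a‖ < r := by
  unfold edisc
  rw [mem_ofPred_eq, ← norm_zz_sq]
  exact sq_lt_sq₀ (norm_nonneg _) hr

end IVO

theorem pr_VO : StVO := by
  intro a R hR
  have h1 : edisc a R = Complex.measurableEquivRealProd.symm ⁻¹' (Metric.ball (IVO.zz a) R) := by
    ext x
    rw [IVO.mem_edisc hR.le, mem_preimage, mem_ball_iff_norm]
    rfl
  rw [h1, (Complex.volume_preserving_equiv_real_prod.symm).measure_preimage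
    Metric.isOpen_ball.measurableSet.nullMeasurableSet, Complex.volume_ball,
    ENNReal.ofReal_mul Real.pi_pos.le, ENNReal.ofReal_pow hR.le, mul_comm]
  congr 1
  rw [← NNReal.coe_real_pi, ENNReal.ofReal_coe_nnreal]

end Pool.Agent.MFK.TC
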